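import Mathlib

/-!
Row Avg: a time average over a common period.
-/

noncomputable section
open MeasureTheory

namespace Pool.Agent.Lib.RotSphere

/-- Let `T > 0` be a common period: `(c j - c m) T = 2 π k_j` with nonzero integers `k_j` for
`j < m` (the speeds are rational and differ). Then `∫_0^T g j (cos ((c j - c m) t)) dt = 0` for
`j < m`, because `θ ↦ g j (cos θ)` changes its sign under `θ ↦ θ + π`, so the mean over `[0, T]`
of the sum is `h m * g m 1`; hence somewhere the sum is at least this. -/
theorem exists_time (m : ℕ) (h : ℕ → ℝ) (g : ℕ → ℝ → ℝ) (hg : ∀ j, Continuous (g j))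
    (hodd : ∀ j s, g j (-s) = - g j s) (c : ℕ → ℚ) (hc : ∀ j < m, c j ≠ c m) :
    ∃ t : ℝ, 0 < t ∧ h m * g m 1 ≤
      ∑ j ∈ Finset.range (m + 1), h j * g j (Real.cos (((c j : ℝ) - c m) * t)) := by
  classical
  set q : ℕ := ∏ j ∈ Finset.range m, (c j - c m).den with hq
  have hqpos : 0 < q := Finset.prod_pos (fun j _ => Rat.den_pos _)
  have hk : ∀ j < m, ∃ k : ℤ, (c j - c m) * (q : ℚ) = k := by
    intro j hj
    have hd : (c j - c m).den ∣ q := Finset.dvd_prod_of_mem _ (Finset.mem_range.2 hj)
    obtain ⟨r, hr⟩ := hd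
    refine ⟨(c j - c m).num * r, ?_⟩
    rw [hr]
    push_cast
    rw [← mul_assoc, Rat.mul_den_eq_num]
  set T : ℝ := 2 * Real.pi * q with hTdef
  have hq' : (0 : ℝ) < q := by exact_mod_cast hqpos
  have hT : 0 < T := by positivity
  have hcont : ∀ j, Continuous (fun θ : ℝ => g j (Real.cos θ)) :=
    fun j => (hg j).comp Real.continuous_cos
  have h0 : ∀ j, ∫ θ in (0 : ℝ)..(2 * Real.pi), g j (Real.cos θ) = 0 := by
    intro j
    have h1 : ∫ θ in (0 : ℝ)..(2 * Real.pi), g j (Real.cos θ) =
        (∫ θ in (0 : ℝ)..Real.pi, g j (Real.cos θ)) +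
          ∫ θ in (Real.pi)..(2 * Real.pi), g j (Real.cos θ) :=
      (intervalIntegral.integral_add_adjacent_intervals
        ((hcont j).intervalIntegrable _ _) ((hcont j).intervalIntegrable _ _)).symm
    have h2 : ∫ θ in (Real.pi)..(2 * Real.pi), g j (Real.cos θ) =
        ∫ θ in (0 : ℝ)..Real.pi, g j (Real.cos (θ + Real.pi)) := by
      rw [intervalIntegral.integral_comp_add_right (fun θ => g j (Real.cos θ)) Real.pi]
      congr 1 <;> ring
    rw [h1, h2]
    simp only [Real.cos_add_pi, hodd, intervalIntegral.integral_neg]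
    ring
  have hj0 : ∀ j < m, ∫ t in (0 : ℝ)..T, g j (Real.cos (((c j : ℝ) - c m) * t)) = 0 := by
    intro j hj
    obtain ⟨k, hk⟩ := hk j hj
    have ha : ((c j : ℝ) - c m) ≠ 0 := by
      have := sub_ne_zero.2 (hc j hj)
      exact_mod_cast this
    have hper : Function.Periodic (fun θ : ℝ => g j (Real.cos θ)) (2 * Real.pi) := by
      intro θ
      simp only [Real.cos_add_two_pi]
    have hkR : ((c j : ℝ) - c m) * q = k := by exact_mod_cast hk
    rw [intervalIntegral.integral_comp_mul_left (fun θ => g j (Real.cos θ)) ha]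
    have haT : ((c j : ℝ) - c m) * T = 0 + k • (2 * Real.pi) := by
      rw [zsmul_eq_mul, hTdef, ← hkR]; ring
    rw [mul_zero, haT, hper.intervalIntegral_add_zsmul_eq k 0
      (fun _ _ => (hcont j).intervalIntegrable _ _), zero_add, h0 j]
    simp
  have hcont2 : ∀ j, Continuous (fun t : ℝ => g j (Real.cos (((c j : ℝ) - c m) * t))) :=
    fun j => (hg j).comp (Real.continuous_cos.comp (continuous_const.mul continuous_id))
  have hcont3 : ∀ j, Continuous
      (fun t : ℝ => h j * g j (Real.cos (((c j : ℝ) - c m) * t))) :=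
    fun j => continuous_const.mul (hcont2 j)
  have hcont4 : Continuous (fun t : ℝ =>
      ∑ j ∈ Finset.range (m + 1), h j * g j (Real.cos (((c j : ℝ) - c m) * t))) :=
    continuous_finsetSum _ fun j _ => hcont3 j
  have hS : ∫ t in (0 : ℝ)..T, (h m * g m 1 -
      ∑ j ∈ Finset.range (m + 1), h j * g j (Real.cos (((c j : ℝ) - c m) * t))) = 0 := by
    rw [intervalIntegral.integral_sub intervalIntegrable_const
      (hcont4.intervalIntegrable _ _),
      intervalIntegral.integral_finsetSum
        (fun j _ => (hcont3 j).intervalIntegrable _ _),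
      Finset.sum_range_succ]
    have h3 : ∑ j ∈ Finset.range m,
        ∫ t in (0 : ℝ)..T, h j * g j (Real.cos (((c j : ℝ) - c m) * t)) = 0 := by
      refine Finset.sum_eq_zero fun j hj => ?_
      rw [intervalIntegral.integral_const_mul, hj0 j (Finset.mem_range.1 hj), mul_zero]
    rw [h3]
    simp
  by_contra hcon
  push Not at hcon
  have hpos := intervalIntegral.intervalIntegral_pos_of_pos_on
    (f := fun t : ℝ => h m * g m 1 -
      ∑ j ∈ Finset.range (m + 1), h j * g j (Real.cos (((c j : ℝ) - c m) * t)))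
    (a := 0) (b := T)
    ((continuous_const.sub hcont4).intervalIntegrable _ _)
    (fun t ht => sub_pos.2 (hcon t ht.1)) hT
  rw [hS] at hpos
  exact lt_irrefl _ hpos

end Pool.Agent.Lib.RotSphere
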