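import Mathlib

/-!
# Calculus on the round sphere by the rotation fields

`J i x = e_i × x` are the three rotation fields, `D i f` the derivative of `f` along `J i`,
`lap f = ∑ i, D i (D i f)` the Laplace-Beltrami operator of the unit sphere,
`vel f = x × ∇ f` the velocity with stream function `f`, and `br f g = (x × ∇ f) · ∇ g`.
-/

noncomputable section
open MeasureTheory Set
open scoped ContDiff

namespace Pool.Agent.Lib.RotSphere

/-- Three-dimensional Euclidean space. -/
abbrev E := EuclideanSpace ℝ (Fin 3)

/-- The unit sphere. -/
abbrev S2 := Metric.sphere (0 : E) 1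

/-- The surface measure of the unit sphere. -/
abbrev area : Measure S2 := (volume : Measure E).toSphere

/-- The rotation field `x ↦ e_i × x` about the `i`-th coordinate axis. -/
def J (i : Fin 3) : E →L[ℝ] E :=
  LinearMap.toContinuousLinearMap
    { toFun := fun x => WithLp.toLp 2 (fun k =>
        if k = i + 1 then - x (i + 2) else if k = i + 2 then x (i + 1) else 0)
      map_add' := by
        intro x y; ext k; simp only [PiLp.add_apply]; split_ifs <;> ring
      map_smul' := by
        intro c x; ext k; simp only [PiLp.smul_apply, smul_eq_mul, RingHom.id_apply]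
        split_ifs <;> ring }

theorem J_apply (i k : Fin 3) (x : E) :
    J i x k = if k = i + 1 then - x (i + 2) else if k = i + 2 then x (i + 1) else 0 := rfl

/-- The derivative of `f` along the rotation field about the `i`-th axis. -/
def D (i : Fin 3) (f : E → ℝ) : E → ℝ := fun x => fderiv ℝ f x (J i x)

/-- The Laplace-Beltrami operator of the unit sphere, as the sum of the squares of the
derivatives along the three rotation fields. -/
def lap (f : E → ℝ) : E → ℝ := fun x => ∑ i, D i (D i f) x

/-- The velocity field `x × ∇ f` with stream function `f`. -/
def vel (f : E → ℝ) (x : E) : E := WithLp.toLp 2 (fun i => D i f x)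

/-- Transport of `g` by the velocity with stream function `f`. -/
def br (f g : E → ℝ) : E → ℝ := fun x => fderiv ℝ g x (vel f x)

/-- Smooth solutions of the 2D Euler equation on the unit sphere, written with the stream
function `ψ`: the vorticity `lap (ψ t)` is transported by the velocity `vel (ψ t)`. -/
structure IsEuler (ψ : ℝ → E → ℝ) : Prop where
  smooth : ContDiff ℝ ∞ (fun p : ℝ × E => ψ p.1 p.2)
  eq : ∀ t x, ‖x‖ = 1 →
    HasDerivAt (fun s => lap (ψ s) x) (- br (ψ t) (lap (ψ t)) x) t

/-- The third coordinate. -/
def X2 : E → ℝ := fun x => x 2

end Pool.Agent.Lib.RotSphere
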