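import Pool.Agent.Lib.MP_dba1af_an.RS.Pert

noncomputable section
open MeasureTheory Set
open scoped ContDiff

namespace Pool.Agent.Lib.RotSphere

/-- Row Ener (over the stub files). The energy of the perturbation is conserved:
the derivative of `∫ ∑ (D i φ)^2 = - ∫ φ lap φ` is `2 ∫ ∑ D i φ D i ∂_t φ = - 2 ∫ φ ∂_t (lap φ)`
(`green`, `dt_D`, `dt_lap`), and `∫ φ D 2 (lap φ) = - ∫ D 2 φ lap φ = 0`, `∫ φ D 2 φ = 0`,
`∫ φ br φ (lap φ) = 0`. -/
theorem energy {φ : ℝ → E → ℝ} (h : IsPert φ) (t : ℝ) :
    ∫ x : S2, ∑ i, D i (φ t) x ^ 2 ∂area = ∫ x : S2, ∑ i, D i (φ 0) x ^ 2 ∂area := by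
  have hF : ∀ s, ∫ x : S2, ∑ i, D i (φ s) x ^ 2 ∂area
      = - ∫ x : S2, φ s x * lap (φ s) x ∂area := by
    intro s
    rw [green (sm_slice h.smooth s) (sm_slice h.smooth s), neg_neg]
    simp only [pow_two]
  have hd : ∀ s, HasDerivAt (fun s => ∫ x : S2, φ s x * lap (φ s) x ∂area) 0 s := by
    intro s
    have h1 := hasDerivAt_area (sm_mul h.smooth (sm_lap h.smooth)) s
    have h2 : ∫ x : S2, dt (fun t x => φ t x * lap (φ t) x) s x ∂area = 0 := by
      have hφ : ContDiff ℝ ∞ (φ s) := sm_slice h.smooth s
      have hdt : ContDiff ℝ ∞ (dt φ s) := sm_slice (sm_dt h.smooth) s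
      have h3 : ∀ x : S2, dt (fun t x => φ t x * lap (φ t) x) s x
          = dt φ s x * lap (φ s) x + φ s x * lap (dt φ s) x := by
        intro x
        have ha := sm_hasDerivAt h.smooth s (x : E)
        have hb := sm_hasDerivAt (sm_lap h.smooth) s (x : E)
        have hc := (ha.mul hb).deriv
        rw [dt_lap h.smooth] at hc
        exact hc
      have i1 : Integrable (fun x : S2 => dt φ s x * lap (φ s) x) area :=
        integrable_area (f := fun x => dt φ s x * lap (φ s) x)
          (hdt.continuous.mul (contDiff_lap hφ).continuous)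
      have i2 : Integrable (fun x : S2 => φ s x * lap (dt φ s) x) area :=
        integrable_area (f := fun x => φ s x * lap (dt φ s) x)
          (hφ.continuous.mul (contDiff_lap hdt).continuous)
      rw [integral_congr_ae (Filter.Eventually.of_forall h3), integral_add i1 i2]
      have h4 : ∫ x : S2, dt φ s x * lap (φ s) x ∂area
          = ∫ x : S2, φ s x * lap (dt φ s) x ∂area := by
        rw [green hdt hφ, green hφ hdt]
        congr 1
        refine integral_congr_ae (Filter.Eventually.of_forall fun x => ?_)
        exact Finset.sum_congr rfl fun i _ => mul_comm _ _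
      have h5 : ∫ x : S2, φ s x * lap (dt φ s) x ∂area = 0 := by
        have h6 : ∀ x : S2, φ s x * lap (dt φ s) x
            = (-1) * (φ s x * D 2 (lap (φ s)) x) + (-2) * (φ s x * D 2 (φ s) x)
              + (-1) * (φ s x * br (φ s) (lap (φ s)) x) := by
          intro x
          have hx : ‖(x : E)‖ = 1 := mem_sphere_zero_iff_norm.1 x.2
          have h7 := h.eq s x hx
          rw [dt_lap h.smooth] at h7
          rw [h7]
          ring
        have j1 : Integrable (fun x : S2 => (-1 : ℝ) * (φ s x * D 2 (lap (φ s)) x)) area :=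
          (integrable_area (f := fun x => φ s x * D 2 (lap (φ s)) x)
            (hφ.continuous.mul (contDiff_D (contDiff_lap hφ) 2).continuous)).const_mul _
        have j2 : Integrable (fun x : S2 => (-2 : ℝ) * (φ s x * D 2 (φ s) x)) area :=
          (integrable_area (f := fun x => φ s x * D 2 (φ s) x)
            (hφ.continuous.mul (contDiff_D hφ 2).continuous)).const_mul _
        have j3 : Integrable (fun x : S2 => (-1 : ℝ) * (φ s x * br (φ s) (lap (φ s)) x)) area :=
          (integrable_area (f := fun x => φ s x * br (φ s) (lap (φ s)) x)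
            (hφ.continuous.mul (contDiff_br hφ (contDiff_lap hφ)).continuous)).const_mul _
        have j12 : Integrable (fun x : S2 => (-1 : ℝ) * (φ s x * D 2 (lap (φ s)) x)
            + (-2) * (φ s x * D 2 (φ s) x)) area := j1.add j2
        rw [integral_congr_ae (Filter.Eventually.of_forall h6), integral_add j12 j3,
          integral_add j1 j2, integral_const_mul, integral_const_mul, integral_const_mul,
          integral_parts hφ (contDiff_lap hφ) 2, integral_D2_mul_lap hφ, integral_mul_D hφ 2,
          integral_mul_br' hφ (contDiff_lap hφ)]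
        ring
      rw [h4, h5]
      ring
    rw [h2] at h1
    exact h1
  have hc := is_const_of_deriv_eq_zero (fun s => (hd s).differentiableAt)
    (fun s => (hd s).deriv) t 0
  rw [hF t, hF 0, hc]

end Pool.Agent.Lib.RotSphere
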