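import Pool.Agent.Lib.MP_dba1af_an.RS.Diff
import Pool.Agent.Lib.MP_dba1af_an.RS.Ener

noncomputable section
open MeasureTheory Set
open scoped ContDiff

namespace Pool.Agent.Lib.RotSphere

private theorem norm_vel_sq (f : E → ℝ) (x : E) : ‖vel f x‖ ^ 2 = ∑ i, D i f x ^ 2 := by
  rw [EuclideanSpace.norm_sq_eq]
  apply Finset.sum_congr rfl
  intro i _
  simp [vel]

private theorem br_le {w : ℝ → E → ℝ} (hw : Sm w) (f : E → ℝ) {t : ℝ} {x : E} {L : ℝ}
    (hL : ‖fderiv ℝ (fun p : ℝ × E => w p.1 p.2) (t, x)‖ ≤ L) :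
    |br f (w t) x| ≤ L * ‖vel f x‖ := by
  have hF : HasFDerivAt (fun p : ℝ × E => w p.1 p.2)
      (fderiv ℝ (fun p : ℝ × E => w p.1 p.2) (t, x)) (t, x) :=
    (hw.differentiable (by simp) (t, x)).hasFDerivAt
  have h1 : HasFDerivAt (w t) ((fderiv ℝ (fun p : ℝ × E => w p.1 p.2) (t, x)).comp
      (ContinuousLinearMap.inr ℝ ℝ E)) x :=
    HasFDerivAt.comp x hF (hasFDerivAt_prodMk_right t x)
  unfold br
  rw [h1.fderiv, ContinuousLinearMap.comp_apply, ContinuousLinearMap.inr_apply, ← Real.norm_eq_abs]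
  refine (ContinuousLinearMap.le_opNorm _ _).trans ?_
  have h2 : ‖((0 : ℝ), vel f x)‖ = ‖vel f x‖ := by
    rw [Prod.norm_def]; simp
  rw [h2]
  exact mul_le_mul_of_nonneg_right hL (norm_nonneg _)

/-- Row Bound (over the stub files). The bracket is bounded by the gradients; `L` bounds
`‖fderiv (w t) x‖` on `[0, T] × S2` (compactness), and `‖vel φ x‖^2 = ∑ (D i φ x)^2`.
`2 |R| |u| L δ ≤ L (R^2 + δ^2 |u|^2)`. -/
theorem diff_bound {w χ : ℝ → E → ℝ} (hl : IsLin w χ) (T : ℝ) : ∃ L : ℝ, 0 ≤ L ∧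
    ∀ φ : ℝ → E → ℝ, IsPert φ → ∀ δ : ℝ, 0 < δ → ∀ t ∈ Icc 0 T,
      - 2 * δ * ∫ x : S2, (lap (φ t) x - δ * w t x) * br (φ t) (w t) x ∂area ≤
        L * (∫ x : S2, (lap (φ t) x - δ * w t x) ^ 2 ∂area) +
        L * δ ^ 2 * ∫ x : S2, ∑ i, D i (φ 0) x ^ 2 ∂area := by
  have hw : Sm w := hl.smooth
  have hK : IsCompact (Icc (0 : ℝ) T ×ˢ Metric.sphere (0 : E) 1) :=
    isCompact_Icc.prod (isCompact_sphere 0 1)
  obtain ⟨C, hC⟩ := hK.exists_bound_of_continuousOn
    (f := fun p => fderiv ℝ (fun p : ℝ × E => w p.1 p.2) p)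
    ((hw.continuous_fderiv (by simp)).continuousOn)
  refine ⟨max C 0, le_max_right _ _, ?_⟩
  intro φ hφ δ hδ t ht
  set L := max C 0 with hLdef
  have hL0 : 0 ≤ L := le_max_right _ _
  have hφt : ContDiff ℝ ∞ (φ t) := sm_slice hφ.smooth t
  have hwt : ContDiff ℝ ∞ (w t) := sm_slice hw t
  have hR : Continuous (fun x : E => lap (φ t) x - δ * w t x) :=
    (contDiff_lap hφt).continuous.sub (continuous_const.mul hwt.continuous)
  have hB : Continuous (fun x : E => br (φ t) (w t) x) := (contDiff_br hφt hwt).continuous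
  have hD : Continuous (fun x : E => ∑ i, D i (φ t) x ^ 2) := by
    apply continuous_finsetSum
    intro i _
    exact (contDiff_D hφt i).continuous.pow 2
  have hpt : ∀ x : S2, - 2 * δ * ((lap (φ t) x - δ * w t x) * br (φ t) (w t) x) ≤
      L * (lap (φ t) x - δ * w t x) ^ 2 + L * δ ^ 2 * ∑ i, D i (φ t) (x : E) ^ 2 := by
    intro x
    have hb : |br (φ t) (w t) x| ≤ L * ‖vel (φ t) x‖ := by
      apply br_le hw
      refine (hC (t, (x : E)) ⟨ht, x.2⟩).trans (le_max_left _ _)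
    rw [← norm_vel_sq]
    generalize lap (φ t) (x : E) - δ * w t (x : E) = R at *
    generalize br (φ t) (w t) (x : E) = B at *
    generalize ‖vel (φ t) (x : E)‖ = v at *
    have hR0 : 0 ≤ |R| := abs_nonneg _
    calc - 2 * δ * (R * B) ≤ |(- 2 * δ * (R * B))| := le_abs_self _
      _ = 2 * δ * (|R| * |B|) := by
          rw [abs_mul, abs_mul, abs_mul, abs_of_pos hδ]; norm_num
      _ ≤ 2 * δ * (|R| * (L * v)) := by
          apply mul_le_mul_of_nonneg_left _ (by positivity)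
          exact mul_le_mul_of_nonneg_left hb hR0
      _ = L * (2 * |R| * (δ * v)) := by ring
      _ ≤ L * (|R| ^ 2 + (δ * v) ^ 2) := by
          apply mul_le_mul_of_nonneg_left (two_mul_le_add_sq _ _) hL0
      _ = L * R ^ 2 + L * δ ^ 2 * v ^ 2 := by rw [sq_abs]; ring
  have hi1 : Integrable (fun x : S2 => - 2 * δ * ((lap (φ t) x - δ * w t x) *
      br (φ t) (w t) x)) area :=
    integrable_area (f := fun x => - 2 * δ * ((lap (φ t) x - δ * w t x) * br (φ t) (w t) x))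
      (continuous_const.mul (hR.mul hB))
  have hi2 : Integrable (fun x : S2 => L * (lap (φ t) x - δ * w t x) ^ 2) area :=
    integrable_area (f := fun x => L * (lap (φ t) x - δ * w t x) ^ 2)
      (continuous_const.mul (hR.pow 2))
  have hi3 : Integrable (fun x : S2 => L * δ ^ 2 * ∑ i, D i (φ t) (x : E) ^ 2) area :=
    integrable_area (f := fun x => L * δ ^ 2 * ∑ i, D i (φ t) x ^ 2) (continuous_const.mul hD)
  rw [← energy hφ t, ← integral_const_mul, ← integral_const_mul, ← integral_const_mul,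
    ← integral_add hi2 hi3]
  exact integral_mono hi1 (hi2.add hi3) hpt

end Pool.Agent.Lib.RotSphere
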