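import Pool.Agent.Lib.MP_dba1af_an.RS.Base

noncomputable section
open MeasureTheory Set
open scoped ContDiff

namespace Pool.Agent.Lib.RotSphere

private theorem D_mul {a b : E → ℝ} {x : E} (j : Fin 3) (ha : DifferentiableAt ℝ a x) (hb : DifferentiableAt ℝ b x) :
    D j (fun y => a y * b y) x = D j a x * b x + a x * D j b x := by
  simp only [D]
  rw [fderiv_fun_mul ha hb]
  simp only [_root_.add_apply, _root_.smul_apply, smul_eq_mul]
  ring

private theorem D_sub {a b : E → ℝ} {x : E} (j : Fin 3) (ha : DifferentiableAt ℝ a x) (hb : DifferentiableAt ℝ b x) :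
    D j (fun y => a y - b y) x = D j a x - D j b x := by
  simp only [D]
  rw [fderiv_fun_sub ha hb]
  rfl

private theorem D_normsq (j : Fin 3) (x : E) : D j (fun y => ‖y‖ ^ 2) x = 0 := by
  simp only [D]
  rw [(hasStrictFDerivAt_norm_sq x).hasFDerivAt.fderiv]
  have h : inner ℝ x (J j x) = 0 := by
    rw [PiLp.inner_apply, Fin.sum_univ_three]
    simp only [J_apply]
    fin_cases j <;> simp <;> ring
  simp [h]

private theorem coord_diff (j : Fin 3) (x : E) : DifferentiableAt ℝ (fun y : E => y j) x :=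
  (EuclideanSpace.proj j : E →L[ℝ] ℝ).differentiableAt

private theorem D_coord (j : Fin 3) (x : E) : D j (fun y : E => y j) x = 0 := by
  have h : fderiv ℝ (fun y : E => y j) x = (EuclideanSpace.proj j : E →L[ℝ] ℝ) :=
    (EuclideanSpace.proj j : E →L[ℝ] ℝ).hasFDerivAt.fderiv
  simp only [D]
  rw [h]
  show J j x j = 0
  rw [J_apply]
  fin_cases j <;> simp

private theorem vec_eq (v : E) : v = v 0 • EuclideanSpace.single 0 1 + v 1 • EuclideanSpace.single 1 1 +
    v 2 • EuclideanSpace.single 2 (1 : ℝ) := by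
  ext k
  fin_cases k <;> simp

private theorem D_exp (h : E → ℝ) (j : Fin 3) (x : E) : D j h x =
    J j x 0 * fderiv ℝ h x (EuclideanSpace.single 0 1) + J j x 1 * fderiv ℝ h x (EuclideanSpace.single 1 1) +
    J j x 2 * fderiv ℝ h x (EuclideanSpace.single 2 1) := by
  simp only [D]
  conv_lhs => rw [vec_eq (J j x)]
  rw [map_add, map_add, map_smul, map_smul, map_smul, smul_eq_mul, smul_eq_mul, smul_eq_mul]

private theorem sum_coord (h : E → ℝ) (x : E) : x 0 * D 0 h x + x 1 * D 1 h x + x 2 * D 2 h x = 0 := by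
  rw [D_exp, D_exp, D_exp]
  simp only [J_apply]
  simp
  ring

private theorem br_exp (f g : E → ℝ) (x : E) : br f g x =
    D 0 f x * fderiv ℝ g x (EuclideanSpace.single 0 1) + D 1 f x * fderiv ℝ g x (EuclideanSpace.single 1 1) +
    D 2 f x * fderiv ℝ g x (EuclideanSpace.single 2 1) := by
  simp only [br]
  conv_lhs => rw [vec_eq (vel f x)]
  rw [map_add, map_add, map_smul, map_smul, map_smul, smul_eq_mul, smul_eq_mul, smul_eq_mul]
  rfl

/-- Row BrDiv. `(x × ∇ f) · ∇ g` in divergence form. With `v_j = |x|^2 ∂_j g - x_j (x · ∇ g)`: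
`∑ D_j (f v_j) = |x|^2 (x × ∇ f) · ∇ g`, because `∑ D_j ∂_j g = 0` (symmetric second derivatives),
`D_j |x|^2 = 0`, `D_j x_j = 0`, `∑ x_j D_j F = 0`, `∑ D_j f x_j = 0`. Everything is finite
algebra in `x 0, x 1, x 2`, the partial derivatives and the symmetric second partial
derivatives: write `fderiv` at `J i x` in coordinates. -/
theorem br_div {f g : E → ℝ} (hf : ContDiff ℝ ∞ f) (hg : ContDiff ℝ ∞ g) (x : E) :
    ∑ j, D j (fun y => f y * (‖y‖ ^ 2 * fderiv ℝ g y (EuclideanSpace.single j 1)
      - y j * fderiv ℝ g y y)) x = ‖x‖ ^ 2 * br f g x := by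
  have hg' : ContDiff ℝ ∞ (fderiv ℝ g) := hg.fderiv_right (by simp)
  have hfd : DifferentiableAt ℝ f x := (hf.differentiable (by simp)).differentiableAt
  have hG : ∀ j : Fin 3, DifferentiableAt ℝ (fun y => fderiv ℝ g y (EuclideanSpace.single j 1)) x := fun j =>
    ((hg'.clm_apply contDiff_const).differentiable (by simp)).differentiableAt
  have hS : DifferentiableAt ℝ (fun y => fderiv ℝ g y y) x :=
    ((hg'.clm_apply contDiff_id).differentiable (by simp)).differentiableAt
  have hN : DifferentiableAt ℝ (fun y : E => ‖y‖ ^ 2) x := (contDiff_norm_sq ℝ (n := 1)).differentiable (by simp) |>.differentiableAt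
  have key : ∀ j : Fin 3, D j (fun y => f y * (‖y‖ ^ 2 * fderiv ℝ g y (EuclideanSpace.single j 1)
      - y j * fderiv ℝ g y y)) x = D j f x * (‖x‖ ^ 2 * fderiv ℝ g x (EuclideanSpace.single j 1) - x j * fderiv ℝ g x x) +
        f x * (‖x‖ ^ 2 * D j (fun y => fderiv ℝ g y (EuclideanSpace.single j 1)) x -
          x j * D j (fun y => fderiv ℝ g y y) x) := by
    intro j
    have h1 : DifferentiableAt ℝ (fun y => ‖y‖ ^ 2 * fderiv ℝ g y (EuclideanSpace.single j 1)) x := hN.mul (hG j)
    have h2 : DifferentiableAt ℝ (fun y => y j * fderiv ℝ g y y) x := (coord_diff j x).mul hS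
    have h3 : DifferentiableAt ℝ (fun y => ‖y‖ ^ 2 * fderiv ℝ g y (EuclideanSpace.single j 1) - y j * fderiv ℝ g y y) x :=
      h1.sub h2
    rw [D_mul j hfd h3, D_sub j h1 h2, D_mul j hN (hG j), D_mul j (coord_diff j x) hS, D_normsq, D_coord]
    ring
  have hsym : ∀ v w : E, fderiv ℝ (fderiv ℝ g) x v w = fderiv ℝ (fderiv ℝ g) x w v := by
    intro v w
    exact (hg.contDiffAt.isSymmSndFDerivAt (by simp only [minSmoothness_of_isRCLikeNormedField]; exact WithTop.coe_le_coe.2 le_top)).eq v w
  have hH : ∀ j k : Fin 3, fderiv ℝ (fun y => fderiv ℝ g y (EuclideanSpace.single j 1)) x (EuclideanSpace.single k 1) =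
      fderiv ℝ (fderiv ℝ g) x (EuclideanSpace.single k 1) (EuclideanSpace.single j 1) := by
    intro j k
    have h1 : DifferentiableAt ℝ (fderiv ℝ g) x := (hg'.differentiable (by simp)).differentiableAt
    rw [fderiv_clm_apply h1 (differentiableAt_const _)]
    simp
  have hcurl : D 0 (fun y => fderiv ℝ g y (EuclideanSpace.single 0 1)) x + D 1 (fun y => fderiv ℝ g y (EuclideanSpace.single 1 1)) x +
      D 2 (fun y => fderiv ℝ g y (EuclideanSpace.single 2 1)) x = 0 := by
    rw [D_exp, D_exp, D_exp]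
    simp only [hH]
    rw [hsym (EuclideanSpace.single 1 1) (EuclideanSpace.single 0 1), hsym (EuclideanSpace.single 2 1) (EuclideanSpace.single 0 1),
      hsym (EuclideanSpace.single 2 1) (EuclideanSpace.single 1 1)]
    simp only [J_apply]
    simp
    ring
  have h1 := sum_coord f x
  have h2 := sum_coord (fun y => fderiv ℝ g y y) x
  rw [Fin.sum_univ_three, key, key, key, br_exp]
  linear_combination (- fderiv ℝ g x x) * h1 - f x * h2 + f x * ‖x‖ ^ 2 * hcurl

end Pool.Agent.Lib.RotSphere
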