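import Pool.Agent.Lib.MP_dba1af_an.RS.Base

noncomputable section
open MeasureTheory Set
open scoped ContDiff

namespace Pool.Agent.Lib.RotSphere

/-- Row Calc. Smoothness and the rules of the calculus. -/
theorem contDiff_D {f : E → ℝ} (hf : ContDiff ℝ ∞ f) (i : Fin 3) : ContDiff ℝ ∞ (D i f) := by
  have h1 : ContDiff ℝ ∞ (fderiv ℝ f) := hf.fderiv_right (m := ∞) (by simp)
  exact h1.clm_apply (J i).contDiff

theorem contDiff_lap {f : E → ℝ} (hf : ContDiff ℝ ∞ f) : ContDiff ℝ ∞ (lap f) := by
  unfold lap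
  exact ContDiff.sum fun i _ => contDiff_D (contDiff_D hf i) i

theorem contDiff_br {f g : E → ℝ} (hf : ContDiff ℝ ∞ f) (hg : ContDiff ℝ ∞ g) :
    ContDiff ℝ ∞ (br f g) := by
  have h1 : ContDiff ℝ ∞ (fderiv ℝ g) := hg.fderiv_right (m := ∞) (by simp)
  have h2 : ContDiff ℝ ∞ (vel f) := contDiff_euclidean.2 fun i => contDiff_D hf i
  exact h1.clm_apply h2

theorem D_add {f g : E → ℝ} (hf : ContDiff ℝ ∞ f) (hg : ContDiff ℝ ∞ g) (i : Fin 3) :
    D i (fun y => f y + g y) = fun y => D i f y + D i g y := by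
  funext x
  have hf' : DifferentiableAt ℝ f x := hf.differentiable (by simp) x
  have hg' : DifferentiableAt ℝ g x := hg.differentiable (by simp) x
  unfold D
  rw [fderiv_fun_add hf' hg']
  rfl

theorem D_smul {f : E → ℝ} (hf : ContDiff ℝ ∞ f) (c : ℝ) (i : Fin 3) :
    D i (fun y => c * f y) = fun y => c * D i f y := by
  funext x
  have hf' : DifferentiableAt ℝ f x := hf.differentiable (by simp) x
  unfold D
  rw [fderiv_const_mul hf']
  rfl

theorem D_mul {f g : E → ℝ} (hf : ContDiff ℝ ∞ f) (hg : ContDiff ℝ ∞ g) (i : Fin 3) :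
    D i (fun y => f y * g y) = fun y => D i f y * g y + f y * D i g y := by
  funext x
  have hf' : DifferentiableAt ℝ f x := hf.differentiable (by simp) x
  have hg' : DifferentiableAt ℝ g x := hg.differentiable (by simp) x
  unfold D
  rw [fderiv_fun_mul hf' hg']
  simp only [add_apply, smul_apply, smul_eq_mul]
  ring

theorem lap_add {f g : E → ℝ} (hf : ContDiff ℝ ∞ f) (hg : ContDiff ℝ ∞ g) :
    lap (fun y => f y + g y) = fun y => lap f y + lap g y := by
  funext x
  unfold lap
  rw [← Finset.sum_add_distrib]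
  refine Finset.sum_congr rfl fun i _ => ?_
  rw [D_add hf hg i, D_add (contDiff_D hf i) (contDiff_D hg i) i]

theorem lap_smul {f : E → ℝ} (hf : ContDiff ℝ ∞ f) (c : ℝ) :
    lap (fun y => c * f y) = fun y => c * lap f y := by
  funext x
  unfold lap
  rw [Finset.mul_sum]
  refine Finset.sum_congr rfl fun i _ => ?_
  rw [D_smul hf c i, D_smul (contDiff_D hf i) c i]

theorem br_add_left {f g h : E → ℝ} (hf : ContDiff ℝ ∞ f) (hg : ContDiff ℝ ∞ g) :
    br (fun y => f y + g y) h = fun y => br f h y + br g h y := by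
  funext x
  have h1 : vel (fun y => f y + g y) x = vel f x + vel g x := by
    ext i
    show D i (fun y => f y + g y) x = D i f x + D i g x
    rw [D_add hf hg i]
  unfold br
  rw [h1, map_add]

theorem br_add_right {f g h : E → ℝ} (hg : ContDiff ℝ ∞ g) (hh : ContDiff ℝ ∞ h) :
    br f (fun y => g y + h y) = fun y => br f g y + br f h y := by
  funext x
  have hg' : DifferentiableAt ℝ g x := hg.differentiable (by simp) x
  have hh' : DifferentiableAt ℝ h x := hh.differentiable (by simp) x
  unfold br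
  rw [fderiv_fun_add hg' hh']
  rfl

theorem br_smul_right {f g : E → ℝ} (hg : ContDiff ℝ ∞ g) (c : ℝ) :
    br f (fun y => c * g y) = fun y => c * br f g y := by
  funext x
  have hg' : DifferentiableAt ℝ g x := hg.differentiable (by simp) x
  unfold br
  rw [fderiv_const_mul hg']
  rfl

theorem br_mul_right {f g h : E → ℝ} (hg : ContDiff ℝ ∞ g) (hh : ContDiff ℝ ∞ h) :
    br f (fun y => g y * h y) = fun y => br f g y * h y + g y * br f h y := by
  funext x
  have hg' : DifferentiableAt ℝ g x := hg.differentiable (by simp) x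
  have hh' : DifferentiableAt ℝ h x := hh.differentiable (by simp) x
  unfold br
  rw [fderiv_fun_mul hg' hh']
  simp only [add_apply, smul_apply, smul_eq_mul]
  ring

private theorem ca_exp (L : E →L[ℝ] ℝ) (v : E) :
    L v = v 0 * L (EuclideanSpace.single 0 1) + v 1 * L (EuclideanSpace.single 1 1) +
      v 2 * L (EuclideanSpace.single 2 1) := by
  have h : v = v 0 • EuclideanSpace.single 0 (1 : ℝ) + v 1 • EuclideanSpace.single 1 (1 : ℝ) +
      v 2 • EuclideanSpace.single 2 (1 : ℝ) := by
    ext k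
    fin_cases k <;> simp
  conv_lhs => rw [h]
  simp only [map_add, map_smul, smul_eq_mul]

/-- `∇ f · (x × ∇ f) = 0`. -/
theorem br_self (f : E → ℝ) : br f f = fun _ => 0 := by
  funext x
  have hv : ∀ i, vel f x i = fderiv ℝ f x (J i x) := fun i => rfl
  have h0 := ca_exp (fderiv ℝ f x) (J 0 x)
  have h1 := ca_exp (fderiv ℝ f x) (J 1 x)
  have h2 := ca_exp (fderiv ℝ f x) (J 2 x)
  have a00 : (J 0 x) 0 = 0 := by rw [J_apply, if_neg (by decide), if_neg (by decide)]
  have a01 : (J 0 x) 1 = - x 2 := by rw [J_apply, if_pos (by decide)]; rfl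
  have a02 : (J 0 x) 2 = x 1 := by rw [J_apply, if_neg (by decide), if_pos (by decide)]; rfl
  have a11 : (J 1 x) 1 = 0 := by rw [J_apply, if_neg (by decide), if_neg (by decide)]
  have a12 : (J 1 x) 2 = - x 0 := by rw [J_apply, if_pos (by decide)]; rfl
  have a10 : (J 1 x) 0 = x 2 := by rw [J_apply, if_neg (by decide), if_pos (by decide)]; rfl
  have a22 : (J 2 x) 2 = 0 := by rw [J_apply, if_neg (by decide), if_neg (by decide)]
  have a20 : (J 2 x) 0 = - x 1 := by rw [J_apply, if_pos (by decide)]; rfl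
  have a21 : (J 2 x) 1 = x 0 := by rw [J_apply, if_neg (by decide), if_pos (by decide)]; rfl
  unfold br
  rw [ca_exp (fderiv ℝ f x) (vel f x), hv 0, hv 1, hv 2, h0, h1, h2, a00, a01, a02, a10, a11, a12, a20, a21, a22]
  ring

end Pool.Agent.Lib.RotSphere
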