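import Mathlib

/-!
Row Cheb: facts on the Chebyshev polynomials of odd index and on the central binomial coefficient.
-/

noncomputable section
open Polynomial

namespace Pool.Agent.Lib.RotSphere

theorem cheb_odd (m : ℕ) (s : ℝ) :
    (Polynomial.Chebyshev.T ℝ (2 * m + 1 : ℕ)).eval (-s) =
      - (Polynomial.Chebyshev.T ℝ (2 * m + 1 : ℕ)).eval s := by
  rw [Polynomial.Chebyshev.T_eval_neg]
  have h : ((2 * m + 1 : ℕ) : ℤ).negOnePow = -1 := by
    rw [Int.negOnePow_odd]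
    exact ⟨m, by push_cast; ring⟩
  rw [h]
  simp

theorem cheb_abs_le (n : ℕ) {s : ℝ} (hs : |s| ≤ 1) :
    |(Polynomial.Chebyshev.T ℝ (n : ℕ)).eval s| ≤ 1 := by
  exact Polynomial.Chebyshev.abs_eval_T_real_le_one _ hs

theorem cheb_natDegree (n : ℕ) : (Polynomial.Chebyshev.T ℝ (n : ℕ)).natDegree = n := by
  rw [Polynomial.Chebyshev.natDegree_T]
  simp

/-- The leading coefficient of `T_n` is `2^(n-1)`. -/
theorem cheb_coeff (n : ℕ) (hn : 1 ≤ n) :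
    (Polynomial.Chebyshev.T ℝ (n : ℕ)).coeff n = 2 ^ (n - 1) := by
  have h := Polynomial.Chebyshev.leadingCoeff_T (R := ℝ) (n : ℤ)
  rw [Polynomial.leadingCoeff, cheb_natDegree] at h
  rw [h]
  simp

private theorem cb (n : ℕ) : (2 * n + 1) * n.centralBinom ^ 2 ≤ 16 ^ n := by
  induction n with
  | zero => simp
  | succ n ih =>
    have h := Nat.succ_mul_centralBinom_succ n
    have h2 : (n + 1) ^ 2 * ((2 * (n + 1) + 1) * (n + 1).centralBinom ^ 2) ≤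
        (n + 1) ^ 2 * 16 ^ (n + 1) := by
      calc (n + 1) ^ 2 * ((2 * (n + 1) + 1) * (n + 1).centralBinom ^ 2)
          = (2 * (n + 1) + 1) * ((n + 1) * (n + 1).centralBinom) ^ 2 := by ring
        _ = (2 * (n + 1) + 1) * (2 * (2 * n + 1) * n.centralBinom) ^ 2 := by rw [h]
        _ = 4 * (2 * n + 3) * (2 * n + 1) * ((2 * n + 1) * n.centralBinom ^ 2) := by ring
        _ ≤ 4 * (2 * n + 3) * (2 * n + 1) * 16 ^ n := Nat.mul_le_mul_left _ ih
        _ ≤ (n + 1) ^ 2 * 16 * 16 ^ n := Nat.mul_le_mul_right _ (by nlinarith)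
        _ = (n + 1) ^ 2 * 16 ^ (n + 1) := by ring
    exact Nat.le_of_mul_le_mul_left h2 (by positivity)

/-- `2^(n-1) 2^n / C(2n,n) ≥ sqrt(2n+1) / 2`, by `(2n+1) C(2n,n)^2 ≤ 16^n` (induction with
`Nat.succ_mul_centralBinom_succ`). -/
theorem ratio_large (n : ℕ) (hn : 1 ≤ n) :
    Real.sqrt (2 * n + 1) / 2 ≤ 2 ^ (n - 1) / (((2 * n).choose n : ℝ) / 2 ^ n) := by
  obtain ⟨m, rfl⟩ : ∃ m, n = m + 1 := ⟨n - 1, by omega⟩
  have h1 := cb (m + 1)
  rw [Nat.centralBinom_eq_two_mul_choose] at h1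
  have h2 : ((2 * (m + 1) + 1 : ℕ) : ℝ) * ((2 * (m + 1)).choose (m + 1) : ℝ) ^ 2 ≤ 16 ^ (m + 1) := by
    exact_mod_cast h1
  have hC : 0 < ((2 * (m + 1)).choose (m + 1) : ℝ) := by
    exact_mod_cast Nat.choose_pos (by omega)
  generalize ((2 * (m + 1)).choose (m + 1) : ℝ) = C at *
  rw [le_div_iff₀ (by positivity), Nat.add_sub_cancel]
  have hs : Real.sqrt (2 * ((m + 1 : ℕ) : ℝ) + 1) ^ 2 = 2 * ((m + 1 : ℕ) : ℝ) + 1 :=
    Real.sq_sqrt (by positivity)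
  have hs0 : 0 ≤ Real.sqrt (2 * ((m + 1 : ℕ) : ℝ) + 1) := Real.sqrt_nonneg _
  generalize Real.sqrt (2 * ((m + 1 : ℕ) : ℝ) + 1) = s at *
  have ha : (0 : ℝ) < 2 ^ m := by positivity
  have h16 : (16 : ℝ) ^ (m + 1) = 16 * (2 ^ m) ^ 4 := by
    rw [← pow_mul, mul_comm m 4, pow_mul, pow_succ]
    norm_num
    ring
  have h2m : (2 : ℝ) ^ (m + 1) = 2 * 2 ^ m := by ring
  rw [h16] at h2
  rw [h2m]
  generalize (2 : ℝ) ^ m = a at *
  have key : (s * C) ^ 2 ≤ (4 * a ^ 2) ^ 2 := by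
    have e : (s * C) ^ 2 = ((2 * (m + 1) + 1 : ℕ) : ℝ) * C ^ 2 := by
      rw [mul_pow, hs]
      push_cast
      ring
    rw [e]
    nlinarith [h2]
  have h3 : s * C ≤ 4 * a ^ 2 :=
    (pow_le_pow_iff_left₀ (by positivity) (by positivity) two_ne_zero).1 key
  have e : s / 2 * (C / (2 * a)) = (s * C) / (4 * a) := by
    field_simp
    ring
  rw [e, div_le_iff₀ (by positivity)]
  nlinarith [h3]

end Pool.Agent.Lib.RotSphere
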