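import Pool.Agent.Lib.MP_dba1af_an.RS.Calc

noncomputable section
open MeasureTheory Set
open scoped ContDiff

namespace Pool.Agent.Lib.RotSphere

private theorem D_D {f : E → ℝ} (hf : ContDiff ℝ ∞ f) (i j : Fin 3) (x : E) :
    D i (D j f) x = fderiv ℝ f x (J j (J i x)) + fderiv ℝ (fderiv ℝ f) x (J i x) (J j x) := by
  have h1 : HasFDerivAt (fderiv ℝ f) (fderiv ℝ (fderiv ℝ f) x) x := by
    have h : ContDiff ℝ 1 (fderiv ℝ f) := hf.fderiv_right (m := 1) (by norm_cast)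
    exact (h.differentiable one_ne_zero x).hasFDerivAt
  have h2 := h1.clm_apply (J j).hasFDerivAt
  have h3 : fderiv ℝ (D j f) x = (fderiv ℝ f x).comp (J j) +
      (fderiv ℝ (fderiv ℝ f) x).flip (J j x) := h2.fderiv
  show fderiv ℝ (D j f) x (J i x) = _
  rw [h3]
  rfl

private theorem symm2 {f : E → ℝ} (hf : ContDiff ℝ ∞ f) (x v w : E) :
    fderiv ℝ (fderiv ℝ f) x v w = fderiv ℝ (fderiv ℝ f) x w v := by
  have h : IsSymmSndFDerivAt ℝ f x := by
    apply ContDiffAt.isSymmSndFDerivAt (n := ∞) hf.contDiffAt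
    rw [minSmoothness_of_isRCLikeNormedField]
    exact WithTop.coe_le_coe.2 le_top
  exact h.eq v w

private theorem J20 (x : E) : J 2 (J 0 x) = J 0 (J 2 x) + J 1 x := by
  ext k
  simp only [PiLp.add_apply, J_apply]
  fin_cases k <;> simp

private theorem J21 (x : E) : J 2 (J 1 x) = J 1 (J 2 x) - J 0 x := by
  ext k
  simp only [PiLp.sub_apply, J_apply]
  fin_cases k <;> simp

private theorem comm02 {f : E → ℝ} (hf : ContDiff ℝ ∞ f) (x : E) :
    D 0 (D 2 f) x = D 2 (D 0 f) x + D 1 f x := by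
  rw [D_D hf, D_D hf, symm2 hf x (J 2 x) (J 0 x), J20, map_add]
  show _ = _ + fderiv ℝ f x (J 1 x)
  ring

private theorem comm12 {f : E → ℝ} (hf : ContDiff ℝ ∞ f) (x : E) :
    D 1 (D 2 f) x = D 2 (D 1 f) x - D 0 f x := by
  rw [D_D hf, D_D hf, symm2 hf x (J 2 x) (J 1 x), J21, map_sub]
  show _ = _ - fderiv ℝ f x (J 0 x)
  ring

/-- Row Comm (over the stub Calc). `D 2 f lap f = ∑ D i (D 2 f D i f) - 1/2 D 2 (∑ (D i f)^2)`
pointwise: the commutators `[D 0, D 2] = ± D 1`, `[D 1, D 2] = ∓ D 0` cancel in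
`∑ i, (D i (D 2 f) - D 2 (D i f)) D i f`. First prove the commutator formulas, by
`fderiv` of `x ↦ fderiv f x (J i x)` and the symmetry of the second derivative. -/
theorem D2_mul_lap {f : E → ℝ} (hf : ContDiff ℝ ∞ f) (x : E) :
    D 2 f x * lap f x = ∑ i, D i (fun y => D 2 f y * D i f y) x
      - (1 / 2) * D 2 (fun y => ∑ i, D i f y ^ 2) x := by
  have hD : ∀ i, ContDiff ℝ ∞ (D i f) := fun i => contDiff_D hf i
  have h1 : ∀ i, D i (fun y => D 2 f y * D i f y) x =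
      D i (D 2 f) x * D i f x + D 2 f x * D i (D i f) x := fun i => by
    rw [D_mul (hD 2) (hD i)]
  have h2 : D 2 (fun y => ∑ i, D i f y ^ 2) x = 2 * (D 2 (D 0 f) x * D 0 f x +
      D 2 (D 1 f) x * D 1 f x + D 2 (D 2 f) x * D 2 f x) := by
    have e : (fun y => ∑ i, D i f y ^ 2) =
        fun y => (D 0 f y * D 0 f y + D 1 f y * D 1 f y) + D 2 f y * D 2 f y := by
      funext y
      rw [Fin.sum_univ_three]
      ring
    rw [e, D_add (((hD 0).mul (hD 0)).add ((hD 1).mul (hD 1))) ((hD 2).mul (hD 2)),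
      D_add ((hD 0).mul (hD 0)) ((hD 1).mul (hD 1)), D_mul (hD 0) (hD 0), D_mul (hD 1) (hD 1),
      D_mul (hD 2) (hD 2)]
    ring
  have h3 : lap f x = D 0 (D 0 f) x + D 1 (D 1 f) x + D 2 (D 2 f) x := by
    unfold lap
    rw [Fin.sum_univ_three]
  rw [h2, h3, Fin.sum_univ_three, h1 0, h1 1, h1 2, comm02 hf, comm12 hf]
  ring

end Pool.Agent.Lib.RotSphere
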