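import Pool.Agent.Lib.MP_dba1af_an.RS.Base

noncomputable section
open MeasureTheory Set
open scoped ContDiff

namespace Pool.Agent.Lib.RotSphere

private theorem coord_fderiv (k : Fin 3) (x v : E) :
    fderiv ℝ (fun y : E => y k) x v = v k := by
  have h : HasFDerivAt (fun y : E => y k) (EuclideanSpace.proj k : E →L[ℝ] ℝ) x :=
    (EuclideanSpace.proj k : E →L[ℝ] ℝ).hasFDerivAt
  rw [h.fderiv]
  rfl

private theorem coord_D (i k : Fin 3) (x : E) : D i (fun y : E => y k) x = J i x k :=
  coord_fderiv k x (J i x)

private theorem coord_D_neg (i k : Fin 3) (x : E) :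
    D i (fun y : E => - y k) x = - J i x k := by
  have h : HasFDerivAt (fun y : E => - y k) (-(EuclideanSpace.proj k : E →L[ℝ] ℝ)) x :=
    (EuclideanSpace.proj k : E →L[ℝ] ℝ).hasFDerivAt.neg
  unfold D
  rw [h.fderiv]
  rfl

private theorem coord_D0 : D 0 X2 = fun y => y 1 := by
  funext x
  rw [show X2 = fun y : E => y 2 from rfl, coord_D, J_apply]
  simp

private theorem coord_D1 : D 1 X2 = fun y => - y 0 := by
  funext x
  rw [show X2 = fun y : E => y 2 from rfl, coord_D, J_apply]
  simp

private theorem coord_D2 : D 2 X2 = fun _ => 0 := by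
  funext x
  rw [show X2 = fun y : E => y 2 from rfl, coord_D, J_apply]
  simp

/-- Row Coord. The third coordinate. -/
theorem contDiff_X2 : ContDiff ℝ ∞ X2 := by
  exact (EuclideanSpace.proj (2 : Fin 3) : E →L[ℝ] ℝ).contDiff

theorem lap_X2 : lap X2 = fun y => -2 * X2 y := by
  funext x
  unfold lap
  rw [Fin.sum_univ_three, coord_D0, coord_D1, coord_D2, coord_D, coord_D_neg, J_apply, J_apply]
  have h : D 2 (fun _ : E => (0 : ℝ)) x = 0 := by
    unfold D
    simp
  rw [h]
  simp [X2]
  ring

private theorem coord_vel (x : E) : vel X2 x = - J 2 x := by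
  ext k
  unfold vel
  rw [PiLp.neg_apply, J_apply]
  fin_cases k
  · simp [coord_D0]
  · simp [coord_D1]
  · simp [coord_D2]

/-- The velocity with stream function `-x_2` is the rotation field about the last axis. -/
theorem br_X2_left (g : E → ℝ) : br X2 g = fun y => - D 2 g y := by
  funext x
  unfold br D
  rw [coord_vel, map_neg]

theorem br_X2_right (f : E → ℝ) : br f X2 = fun y => D 2 f y := by
  funext x
  unfold br
  rw [show X2 = fun y : E => y 2 from rfl, coord_fderiv]
  rfl

end Pool.Agent.Lib.RotSphere
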