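import Pool.Agent.Lib.MP_dba1af_an.RS.Base

noncomputable section
open MeasureTheory Set
open scoped ContDiff

namespace Pool.Agent.Lib.RotSphere

/-- Continuous functions are integrable over the sphere. -/
theorem integrable_area {f : E → ℝ} (hf : Continuous f) :
    Integrable (fun x : S2 => f x) area :=
  (hf.comp continuous_subtype_val).integrable_of_hasCompactSupport
    (HasCompactSupport.of_compactSpace _)

/-- Row DerInt. Derivative under the integral over the (compact) sphere. -/
theorem hasDerivAt_integral {F : ℝ × E → ℝ} (hF : ContDiff ℝ 1 F) (t : ℝ) :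
    HasDerivAt (fun s => ∫ x : S2, F (s, (x : E)) ∂area)
      (∫ x : S2, fderiv ℝ F (t, (x : E)) (1, 0) ∂area) t := by
  have hc : Continuous (fderiv ℝ F) := hF.continuous_fderiv (by simp)
  have hK : IsCompact (Icc (t - 1) (t + 1) ×ˢ Metric.sphere (0 : E) 1) :=
    isCompact_Icc.prod (isCompact_sphere 0 1)
  obtain ⟨C, hC⟩ := hK.exists_bound_of_continuousOn (f := fun p => fderiv ℝ F p (1, 0))
    ((hc.clm_apply continuous_const).continuousOn)
  have hmeas : ∀ s : ℝ, AEStronglyMeasurable (fun x : S2 => F (s, (x : E))) area := fun s =>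
    (integrable_area (f := fun x => F (s, x))
      (hF.continuous.comp (by fun_prop))).aestronglyMeasurable
  refine (hasDerivAt_integral_of_dominated_loc_of_deriv_le
    (F := fun (s : ℝ) (x : S2) => F (s, (x : E)))
    (F' := fun (s : ℝ) (x : S2) => fderiv ℝ F (s, (x : E)) (1, 0))
    (s := Icc (t - 1) (t + 1)) (bound := fun _ => C)
    (Icc_mem_nhds (by linarith) (by linarith)) (Filter.Eventually.of_forall hmeas) ?_ ?_ ?_ ?_ ?_).2
  · exact integrable_area (f := fun x => F (t, x)) (hF.continuous.comp (by fun_prop))
  · exact (integrable_area (f := fun x => fderiv ℝ F (t, x) (1, 0))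
      ((hc.comp (by fun_prop)).clm_apply continuous_const)).aestronglyMeasurable
  · refine Filter.Eventually.of_forall fun x s hs => ?_
    exact hC (s, (x : E)) ⟨hs, x.2⟩
  · exact integrable_const _
  · refine Filter.Eventually.of_forall fun x s _ => ?_
    have h1 : HasFDerivAt F (fderiv ℝ F (s, (x : E))) (s, (x : E)) :=
      (hF.differentiable (by simp) _).hasFDerivAt
    have h2 : HasDerivAt (fun s : ℝ => (s, (x : E))) ((1 : ℝ), (0 : E)) s :=
      (hasDerivAt_id s).prodMk (hasDerivAt_const s _)
    exact h1.comp_hasDerivAt s h2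

end Pool.Agent.Lib.RotSphere
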