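import Pool.Agent.Lib.MP_dba1af_an.RS.Pert

noncomputable section
open MeasureTheory Set
open scoped ContDiff

namespace Pool.Agent.Lib.RotSphere

private theorem diff_int4 {f1 f2 f3 f4 : S2 → ℝ} (a b c d : ℝ) (h1 : Integrable f1 area)
    (h2 : Integrable f2 area) (h3 : Integrable f3 area) (h4 : Integrable f4 area) :
    ∫ x, a * f1 x + b * f2 x + c * f3 x + d * f4 x ∂area =
      a * ∫ x, f1 x ∂area + b * ∫ x, f2 x ∂area + c * ∫ x, f3 x ∂area + d * ∫ x, f4 x ∂area := by
  have k1 : Integrable (fun x => a * f1 x) area := h1.const_mul a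
  have k2 : Integrable (fun x => b * f2 x) area := h2.const_mul b
  have k3 : Integrable (fun x => c * f3 x) area := h3.const_mul c
  have k4 : Integrable (fun x => d * f4 x) area := h4.const_mul d
  have k12 : Integrable (fun x => a * f1 x + b * f2 x) area := k1.add k2
  have k123 : Integrable (fun x => a * f1 x + b * f2 x + c * f3 x) area := k12.add k3
  rw [integral_add k123 k4, integral_add k12 k3, integral_add k1 k2, integral_const_mul,
    integral_const_mul, integral_const_mul, integral_const_mul]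

/-- Row Diff (over the stub files). Derivative of the squared `L²` distance of the perturbation
`lap φ` and the solution `δ w` of the linearized equation. With `r = φ - δ χ` (so `lap r = R` on
the sphere, `R = lap φ - δ w`), on the sphere `∂_t R = - D 2 R - 2 D 2 r - br φ (δ w + R)`, and
`∫ R D 2 R = 0`, `∫ R D 2 r = ∫ lap r D 2 r = 0`, `∫ R br φ R = 0`. -/
theorem diff_deriv {φ w χ : ℝ → E → ℝ} (h : IsPert φ) (hl : IsLin w χ) (δ t : ℝ) :
    HasDerivAt (fun s => ∫ x : S2, (lap (φ s) x - δ * w s x) ^ 2 ∂area)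
      (- 2 * δ * ∫ x : S2, (lap (φ t) x - δ * w t x) * br (φ t) (w t) x ∂area) t := by
  have hφ := sm_slice h.smooth t
  have hw := sm_slice hl.smooth t
  have hχ := sm_slice hl.smooth' t
  have hW := contDiff_lap hφ
  have hdw : ContDiff ℝ ∞ (fun y => (-δ) * w t y) := contDiff_const.mul hw
  have hdχ : ContDiff ℝ ∞ (fun y => (-δ) * χ t y) := contDiff_const.mul hχ
  have hR : Sm (fun s x => lap (φ s) x + (-δ) * w s x) :=
    sm_add (sm_lap h.smooth) (sm_smul hl.smooth (-δ))
  have hmain := hasDerivAt_area (sm_mul hR hR) t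
  have hfun : (fun s => ∫ x : S2, (lap (φ s) x - δ * w s x) ^ 2 ∂area) =
      fun s => ∫ x : S2, (lap (φ s) x + (-δ) * w s x) * (lap (φ s) x + (-δ) * w s x) ∂area := by
    funext s
    congr 1
    funext x
    ring
  rw [hfun]
  refine hmain.congr_deriv ?_
  have hRf : ContDiff ℝ ∞ (fun y => lap (φ t) y + (-δ) * w t y) := hW.add hdw
  have hr : ContDiff ℝ ∞ (fun y => φ t y + (-δ) * χ t y) := hφ.add hdχ
  have e1 : D 2 (fun y => lap (φ t) y + (-δ) * w t y) =
      fun y => D 2 (lap (φ t)) y + (-δ) * D 2 (w t) y := by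
    rw [D_add hW hdw, D_smul hw]
  have e2 : D 2 (fun y => φ t y + (-δ) * χ t y) =
      fun y => D 2 (φ t) y + (-δ) * D 2 (χ t) y := by
    rw [D_add hφ hdχ, D_smul hχ]
  have e3 : lap (fun y => φ t y + (-δ) * χ t y) =
      fun y => lap (φ t) y + (-δ) * lap (χ t) y := by
    rw [lap_add hφ hdχ, lap_smul hχ]
  have e4 : br (φ t) (fun y => lap (φ t) y + (-δ) * w t y) =
      fun y => br (φ t) (lap (φ t)) y + (-δ) * br (φ t) (w t) y := by
    rw [br_add_right hW hdw, br_smul_right hw]
  -- the pointwise identity on the sphere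
  have hpt : ∀ x : S2, dt (fun s x => (lap (φ s) x + (-δ) * w s x) * (lap (φ s) x + (-δ) * w s x)) t x =
      (-2) * ((lap (φ t) x + (-δ) * w t x) * D 2 (fun y => lap (φ t) y + (-δ) * w t y) x) +
      (-4) * (D 2 (fun y => φ t y + (-δ) * χ t y) x * lap (fun y => φ t y + (-δ) * χ t y) x) +
      (-2) * ((lap (φ t) x + (-δ) * w t x) * br (φ t) (fun y => lap (φ t) y + (-δ) * w t y) x) +
      (-2 * δ) * ((lap (φ t) x - δ * w t x) * br (φ t) (w t) x) := by
    intro x
    have hx : ‖(x : E)‖ = 1 := norm_eq_of_mem_sphere x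
    have a1 := sm_hasDerivAt (sm_lap h.smooth) t (x : E)
    have a2 := sm_hasDerivAt hl.smooth t (x : E)
    have a3 : HasDerivAt (fun s => lap (φ s) x + (-δ) * w s x)
        (dt (fun s => lap (φ s)) t x + (-δ) * dt w t x) t := a1.add (a2.const_mul (-δ))
    have a4 : HasDerivAt (fun s => (lap (φ s) x + (-δ) * w s x) * (lap (φ s) x + (-δ) * w s x))
        ((dt (fun s => lap (φ s)) t x + (-δ) * dt w t x) * (lap (φ t) x + (-δ) * w t x) +
          (lap (φ t) x + (-δ) * w t x) * (dt (fun s => lap (φ s)) t x + (-δ) * dt w t x)) t := a3.mul a3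
    have a5 : dt (fun s x => (lap (φ s) x + (-δ) * w s x) * (lap (φ s) x + (-δ) * w s x)) t x =
        (dt (fun s => lap (φ s)) t x + (-δ) * dt w t x) * (lap (φ t) x + (-δ) * w t x) +
          (lap (φ t) x + (-δ) * w t x) * (dt (fun s => lap (φ s)) t x + (-δ) * dt w t x) := a4.deriv
    have e5 := hl.lap_eq t x hx
    rw [a5, h.eq t x hx, hl.eq t x hx, congrFun e1 x, congrFun e2 x, congrFun e3 x, congrFun e4 x]
    rw [e5]
    ring
  rw [integral_congr_ae (Filter.Eventually.of_forall hpt)]
  -- the three vanishing integrals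
  have i1 : ∫ x : S2, (lap (φ t) x + (-δ) * w t x) * D 2 (fun y => lap (φ t) y + (-δ) * w t y) x ∂area = 0 := by
    have b1 := integral_D ((hRf.mul hRf).of_le (by exact_mod_cast le_top)) 2
    rw [D_mul hRf hRf] at b1
    have b2 : ∀ x : S2, D 2 (fun y => lap (φ t) y + (-δ) * w t y) x * (lap (φ t) x + (-δ) * w t x) +
        (lap (φ t) x + (-δ) * w t x) * D 2 (fun y => lap (φ t) y + (-δ) * w t y) x =
        2 * ((lap (φ t) x + (-δ) * w t x) * D 2 (fun y => lap (φ t) y + (-δ) * w t y) x) := by
      intro x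
      ring
    rw [integral_congr_ae (Filter.Eventually.of_forall b2), integral_const_mul] at b1
    linarith
  have i2 : ∫ x : S2, D 2 (fun y => φ t y + (-δ) * χ t y) x *
      lap (fun y => φ t y + (-δ) * χ t y) x ∂area = 0 := integral_D2_mul_lap hr
  have i3 : ∫ x : S2, (lap (φ t) x + (-δ) * w t x) *
      br (φ t) (fun y => lap (φ t) y + (-δ) * w t y) x ∂area = 0 := integral_mul_br hφ hRf
  have c1 : Integrable (fun x : S2 => (lap (φ t) x + (-δ) * w t x) *
      D 2 (fun y => lap (φ t) y + (-δ) * w t y) x) area :=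
    integrable_area (hRf.continuous.mul (contDiff_D hRf 2).continuous)
  have c2 : Integrable (fun x : S2 => D 2 (fun y => φ t y + (-δ) * χ t y) x *
      lap (fun y => φ t y + (-δ) * χ t y) x) area :=
    integrable_area ((contDiff_D hr 2).continuous.mul (contDiff_lap hr).continuous)
  have c3 : Integrable (fun x : S2 => (lap (φ t) x + (-δ) * w t x) *
      br (φ t) (fun y => lap (φ t) y + (-δ) * w t y) x) area :=
    integrable_area (hRf.continuous.mul (contDiff_br hφ hRf).continuous)
  have c4 : Integrable (fun x : S2 => (lap (φ t) x - δ * w t x) * br (φ t) (w t) x) area :=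
    integrable_area ((hW.continuous.sub (continuous_const.mul hw.continuous)).mul
      (contDiff_br hφ hw).continuous)
  refine (diff_int4 (-2) (-4) (-2) (-2 * δ) c1 c2 c3 c4).trans ?_
  rw [i1, i2, i3]
  ring

end Pool.Agent.Lib.RotSphere
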