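import Pool.Agent.Lib.MP_dba1af_an.RS.Pert

noncomputable section
open MeasureTheory Set
open scoped ContDiff

namespace Pool.Agent.Lib.RotSphere

/-- Row Enst (over the stub files). The enstrophy of the perturbation is conserved:
its derivative is `2 ∫ W ∂_t W`, `W = lap φ`, and `∫ W D 2 W = 0`, `∫ W D 2 φ = 0`
(`integral_D2_mul_lap`), `∫ W br φ W = 0`. -/
theorem enstrophy {φ : ℝ → E → ℝ} (h : IsPert φ) (t : ℝ) :
    ∫ x : S2, lap (φ t) x ^ 2 ∂area = ∫ x : S2, lap (φ 0) x ^ 2 ∂area := by
  have hW : Sm (fun t => lap (φ t)) := sm_lap h.smooth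
  have hWW : Sm (fun t x => lap (φ t) x * lap (φ t) x) := sm_mul hW hW
  have key : ∀ s : ℝ, HasDerivAt (fun s => ∫ x : S2, lap (φ s) x * lap (φ s) x ∂area) 0 s := by
    intro s
    have h1 := hasDerivAt_area hWW s
    have hp : ContDiff ℝ ∞ (φ s) := sm_slice h.smooth s
    have hl : ContDiff ℝ ∞ (lap (φ s)) := contDiff_lap hp
    have hd : ∀ x : S2, dt (fun t x => lap (φ t) x * lap (φ t) x) s x
        = (-2) * (lap (φ s) x * D 2 (lap (φ s)) x)
          + ((-4) * (D 2 (φ s) x * lap (φ s) x)
          + (-2) * (lap (φ s) x * br (φ s) (lap (φ s)) x)) := by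
      intro x
      have hx : ‖(x : E)‖ = 1 := by simp
      have h2 : HasDerivAt (fun r => lap (φ r) (x : E)) (dt (fun r => lap (φ r)) s x) s :=
        sm_hasDerivAt hW s x
      have h3 : HasDerivAt (fun r => lap (φ r) (x : E) * lap (φ r) (x : E))
          (dt (fun r => lap (φ r)) s x * lap (φ s) x + lap (φ s) x * dt (fun r => lap (φ r)) s x)
          s := h2.mul h2
      have h4 : dt (fun t x => lap (φ t) x * lap (φ t) x) s x
          = dt (fun r => lap (φ r)) s x * lap (φ s) x
            + lap (φ s) x * dt (fun r => lap (φ r)) s x := h3.deriv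
      rw [h4, h.eq s x hx]
      ring
    have hz : ∫ x : S2, dt (fun t x => lap (φ t) x * lap (φ t) x) s x ∂area = 0 := by
      have i1 : Integrable (fun x : S2 => (-2) * (lap (φ s) x * D 2 (lap (φ s)) x)) area :=
        (integrable_area (f := fun x => lap (φ s) x * D 2 (lap (φ s)) x)
          (hl.continuous.mul (contDiff_D hl 2).continuous)).const_mul _
      have i2 : Integrable (fun x : S2 => (-4) * (D 2 (φ s) x * lap (φ s) x)) area :=
        (integrable_area (f := fun x => D 2 (φ s) x * lap (φ s) x)
          ((contDiff_D hp 2).continuous.mul hl.continuous)).const_mul _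
      have i3 : Integrable (fun x : S2 => (-2) * (lap (φ s) x * br (φ s) (lap (φ s)) x)) area :=
        (integrable_area (f := fun x => lap (φ s) x * br (φ s) (lap (φ s)) x)
          (hl.continuous.mul (contDiff_br hp hl).continuous)).const_mul _
      have i23 : Integrable (fun x : S2 => (-4) * (D 2 (φ s) x * lap (φ s) x)
          + (-2) * (lap (φ s) x * br (φ s) (lap (φ s)) x)) area := i2.add i3
      rw [integral_congr_ae (Filter.Eventually.of_forall hd), integral_add i1 i23,
        integral_add i2 i3, integral_const_mul, integral_const_mul, integral_const_mul,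
        integral_mul_D hl 2, integral_D2_mul_lap hp, integral_mul_br hp hl]
      simp
    rwa [hz] at h1
  have hc : (fun s => ∫ x : S2, lap (φ s) x * lap (φ s) x ∂area) t
      = (fun s => ∫ x : S2, lap (φ s) x * lap (φ s) x ∂area) 0 :=
    is_const_of_deriv_eq_zero (fun s => (key s).differentiableAt) (fun s => (key s).deriv) t 0
  simpa only [sq] using hc

end Pool.Agent.Lib.RotSphere
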