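import Pool.Agent.Lib.MP_dba1af_an.RS.Base

noncomputable section
open MeasureTheory Set
open scoped ContDiff

namespace Pool.Agent.Lib.RotSphere

private def Lr (i : Fin 3) (s : ℝ) : E →ₗ[ℝ] E :=
  LinearMap.id + Real.sin s • (J i).toLinearMap +
    (1 - Real.cos s) • ((J i).toLinearMap ∘ₗ (J i).toLinearMap)

private theorem Lr_apply (i : Fin 3) (s : ℝ) (x : E) :
    Lr i s x = x + Real.sin s • J i x + (1 - Real.cos s) • J i (J i x) := rfl

private theorem Lr_norm (i : Fin 3) (s : ℝ) (x : E) : ‖Lr i s x‖ = ‖x‖ := by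
  rw [EuclideanSpace.norm_eq, EuclideanSpace.norm_eq]
  congr 1
  have h := Real.sin_sq_add_cos_sq s
  simp only [Lr_apply, PiLp.add_apply, PiLp.smul_apply, smul_eq_mul, J_apply, Real.norm_eq_abs,
    sq_abs, Fin.sum_univ_three]
  fin_cases i
  · simp
    linear_combination (x 1 ^ 2 + x 2 ^ 2) * h
  · simp
    linear_combination (x 2 ^ 2 + x 0 ^ 2) * h
  · simp
    linear_combination (x 0 ^ 2 + x 1 ^ 2) * h

private def Li (i : Fin 3) (s : ℝ) : E →ₗᵢ[ℝ] E := ⟨Lr i s, Lr_norm i s⟩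

/-- Row ExRot. The rotations about the `i`-th axis, e.g. `R s x = x + sin s • J i x + (1 - cos s) • J i (J i x)`,
norm preserving because `‖x‖^2 = x 0 ^2 + x 1 ^2 + x 2 ^2`. -/
theorem exists_rot (i : Fin 3) : ∃ R : ℝ → (E ≃ₗᵢ[ℝ] E), (∀ x, R 0 x = x) ∧
    ContDiff ℝ ∞ (fun p : ℝ × E => R p.1 p.2) ∧ ∀ x, HasDerivAt (fun s => R s x) (J i x) 0 := by
  have hR : ∀ (s : ℝ) (x : E), (Li i s).toLinearIsometryEquiv rfl x =
      x + Real.sin s • J i x + (1 - Real.cos s) • J i (J i x) := fun s x => rfl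
  refine ⟨fun s => (Li i s).toLinearIsometryEquiv rfl, ?_, ?_, ?_⟩
  · intro x
    rw [hR, Real.sin_zero, Real.cos_zero, zero_smul, add_zero, sub_self, zero_smul, add_zero]
  · simp only [hR]
    have h1 : ContDiff ℝ ∞ (fun p : ℝ × E => J i p.2) := (J i).contDiff.comp contDiff_snd
    have h2 : ContDiff ℝ ∞ (fun p : ℝ × E => J i (J i p.2)) := (J i).contDiff.comp h1
    have h3 : ContDiff ℝ ∞ (fun p : ℝ × E => Real.sin p.1) := Real.contDiff_sin.comp contDiff_fst
    have h4 : ContDiff ℝ ∞ (fun p : ℝ × E => Real.cos p.1) := Real.contDiff_cos.comp contDiff_fst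
    exact (contDiff_snd.add (h3.smul h1)).add ((contDiff_const.sub h4).smul h2)
  · intro x
    simp only [hR]
    have h1 := (Real.hasDerivAt_sin 0).smul_const (J i x)
    have h2 := ((Real.hasDerivAt_cos 0).const_sub 1).smul_const (J i (J i x))
    have h3 := (h1.const_add x).add h2
    rw [Real.cos_zero, one_smul, Real.sin_zero, neg_zero, neg_zero, zero_smul, add_zero] at h3
    exact h3

end Pool.Agent.Lib.RotSphere
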