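import Mathlib

/-!
Row Expand: an odd polynomial is a combination of given odd polynomials `P j` of degree `2 j + 1`.
-/

noncomputable section
open Polynomial

namespace Pool.Agent.Lib.RotSphere

private theorem odd_coeff (q : ℝ[X]) (hq : ∀ s, q.eval (-s) = - q.eval s) (n : ℕ) (hn : Even n) :
    q.coeff n = 0 := by
  have h1 : q.comp (C (-1) * X) = -q := by
    refine Polynomial.funext fun s => ?_
    rw [eval_comp, eval_neg, eval_mul, eval_C, eval_X, neg_one_mul, hq s]
  have h2 := congrArg (fun r : ℝ[X] => r.coeff n) h1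
  simp only [comp_C_mul_X_coeff, coeff_neg, hn.neg_one_pow, mul_one] at h2
  linarith

/-- Strong induction on `m`: subtract `(coeff of X^(2m+1)) / leadingCoeff (P m) • P m`; the rest
is odd of degree `< 2 m + 1`, hence (odd) of degree `≤ 2 (m-1) + 1`, or `0` if `m = 0`. -/
theorem expand_odd (P : ℕ → ℝ[X]) (hdeg : ∀ j, (P j).natDegree = 2 * j + 1)
    (hodd : ∀ j s, (P j).eval (-s) = - (P j).eval s) (m : ℕ) (q : ℝ[X])
    (hq : q.natDegree ≤ 2 * m + 1) (hqodd : ∀ s, q.eval (-s) = - q.eval s) :
    ∃ h : ℕ → ℝ, q = ∑ j ∈ Finset.range (m + 1), C (h j) * P j ∧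
      h m = q.coeff (2 * m + 1) / (P m).leadingCoeff := by
  have hne : ∀ j, (P j).leadingCoeff ≠ 0 := by
    intro j h
    rw [leadingCoeff_eq_zero] at h
    have h1 := hdeg j
    rw [h, natDegree_zero] at h1
    omega
  have hlc : ∀ j, (P j).coeff (2 * j + 1) = (P j).leadingCoeff := by
    intro j
    rw [leadingCoeff, hdeg j]
  have hhigh : ∀ j n, 2 * j + 1 < n → (P j).coeff n = 0 := by
    intro j n hn
    exact coeff_eq_zero_of_natDegree_lt (by rw [hdeg j]; exact hn)
  induction m generalizing q with
  | zero =>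
    refine ⟨fun _ => q.coeff 1 / (P 0).leadingCoeff, ?_, rfl⟩
    rw [zero_add, Finset.sum_range_one]
    ext n
    rw [coeff_C_mul]
    rcases Nat.lt_trichotomy n 1 with h | h | h
    · have h0 : n = 0 := by omega
      subst h0
      rw [odd_coeff q hqodd 0 (by simp), odd_coeff (P 0) (hodd 0) 0 (by simp), mul_zero]
    · subst h
      have h1 := hlc 0
      simp only [mul_zero, zero_add] at h1
      rw [h1, div_mul_cancel₀ _ (hne 0)]
    · rw [coeff_eq_zero_of_natDegree_lt (lt_of_le_of_lt hq (by omega)), hhigh 0 n (by omega),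
        mul_zero]
  | succ m ih =>
    set c : ℝ := q.coeff (2 * (m + 1) + 1) / (P (m + 1)).leadingCoeff with hc
    have hr : (q - C c * P (m + 1)).natDegree ≤ 2 * m + 1 := by
      rw [natDegree_le_iff_coeff_eq_zero]
      intro n hn
      rw [coeff_sub, coeff_C_mul]
      rcases Nat.lt_trichotomy n (2 * (m + 1) + 1) with h | h | h
      · have h0 : n = 2 * (m + 1) := by omega
        have h1 : Even n := by rw [h0]; exact even_two_mul _
        rw [odd_coeff q hqodd n h1, odd_coeff (P (m + 1)) (hodd (m + 1)) n h1, mul_zero, sub_zero]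
      · subst h
        rw [hlc (m + 1), hc, div_mul_cancel₀ _ (hne (m + 1)), sub_self]
      · rw [coeff_eq_zero_of_natDegree_lt (lt_of_le_of_lt hq h), hhigh (m + 1) n h, mul_zero,
          sub_zero]
    have hrodd : ∀ s, (q - C c * P (m + 1)).eval (-s) = - (q - C c * P (m + 1)).eval s := by
      intro s
      rw [eval_sub, eval_sub, eval_mul, eval_mul, eval_C, eval_C, hqodd s, hodd (m + 1) s]
      ring
    obtain ⟨h, h1, -⟩ := ih (q - C c * P (m + 1)) hr hrodd
    refine ⟨Function.update h (m + 1) c, ?_, ?_⟩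
    · rw [Finset.sum_range_succ, Function.update_self]
      have h2 : ∑ j ∈ Finset.range (m + 1), C (Function.update h (m + 1) c j) * P j =
          ∑ j ∈ Finset.range (m + 1), C (h j) * P j := by
        refine Finset.sum_congr rfl fun j hj => ?_
        rw [Finset.mem_range] at hj
        rw [Function.update_of_ne (by omega)]
      rw [h2, ← h1]
      ring
    · rw [Function.update_self]

end Pool.Agent.Lib.RotSphere
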