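import Pool.Agent.Lib.MP_dba1af_an.RS.IntRot
import Pool.Agent.Lib.MP_dba1af_an.RS.ExRot
import Pool.Agent.Lib.MP_dba1af_an.RS.DerInt

noncomputable section
open MeasureTheory Set
open scoped ContDiff

namespace Pool.Agent.Lib.RotSphere

/-- Row IntD (over the stubs IntRot, ExRot, DerInt). With `R` of `exists_rot`, the integral of
`h (R s x)` does not depend on `s` (`integral_rot`), and its derivative at `s = 0` is the
integral of `D i h` (`hasDerivAt_integral`, chain rule). -/
theorem integral_D {h : E → ℝ} (hh : ContDiff ℝ 1 h) (i : Fin 3) :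
    ∫ x : S2, D i h x ∂area = 0 := by
  obtain ⟨R, h0, hsm, hder⟩ := exists_rot i
  have hF : ContDiff ℝ 1 (fun p : ℝ × E => h (R p.1 p.2)) :=
    hh.comp (hsm.of_le (by exact_mod_cast le_top))
  have h1 := hasDerivAt_integral hF 0
  have h2 : (fun s : ℝ => ∫ x : S2, (fun p : ℝ × E => h (R p.1 p.2)) (s, (x : E)) ∂area) =
      fun _ => ∫ x : S2, h x ∂area := by
    funext s
    exact integral_rot (R s) h
  rw [h2] at h1
  have h3 := h1.unique (hasDerivAt_const (0 : ℝ) (∫ x : S2, h x ∂area))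
  rw [← h3]
  refine integral_congr_ae (Filter.Eventually.of_forall fun x => ?_)
  have hp : HasDerivAt (fun s : ℝ => (s, (x : E))) ((1 : ℝ), (0 : E)) 0 :=
    (hasDerivAt_id (0 : ℝ)).prodMk (hasDerivAt_const (0 : ℝ) (x : E))
  have hd1 : HasFDerivAt (fun p : ℝ × E => h (R p.1 p.2))
      (fderiv ℝ (fun p : ℝ × E => h (R p.1 p.2)) ((0 : ℝ), (x : E))) ((0 : ℝ), (x : E)) :=
    ((hF.differentiable one_ne_zero) _).hasFDerivAt
  have ha := hd1.comp_hasDerivAt (0 : ℝ) hp
  have hd2 : HasFDerivAt h (fderiv ℝ h (x : E)) (R 0 (x : E)) := by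
    rw [h0]
    exact ((hh.differentiable one_ne_zero) _).hasFDerivAt
  have hb := hd2.comp_hasDerivAt (0 : ℝ) (hder (x : E))
  exact hb.unique ha

end Pool.Agent.Lib.RotSphere
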