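import Pool.Agent.Lib.MP_dba1af_an.RS.Calc
import Pool.Agent.Lib.MP_dba1af_an.RS.IntD

noncomputable section
open MeasureTheory Set
open scoped ContDiff

namespace Pool.Agent.Lib.RotSphere

private theorem int_of {f : E → ℝ} (hf : ContDiff ℝ ∞ f) : Integrable (fun x : S2 => f x) area := by
  have h1 : Continuous fun x : S2 => f x := hf.continuous.comp continuous_subtype_val
  exact h1.integrable_of_hasCompactSupport (HasCompactSupport.of_compactSpace _)

private theorem parts_aux {f g : E → ℝ} (hf : ContDiff ℝ ∞ f) (hg : ContDiff ℝ ∞ g) (i : Fin 3) :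
    ∫ x : S2, f x * D i g x ∂area = - ∫ x : S2, D i f x * g x ∂area := by
  have h1 : ContDiff ℝ ∞ fun y => f y * g y := hf.mul hg
  have h2 := integral_D (h := fun y => f y * g y) (h1.of_le (by simp)) i
  rw [D_mul hf hg i] at h2
  have h3 : Integrable (fun x : S2 => D i f x * g x) area :=
    int_of (f := fun y => D i f y * g y) ((contDiff_D hf i).mul hg)
  have h4 : Integrable (fun x : S2 => f x * D i g x) area :=
    int_of (f := fun y => f y * D i g y) (hf.mul (contDiff_D hg i))
  rw [integral_add h3 h4] at h2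
  linarith

/-- Row Green (over the stubs Calc, IntD): `D i (f D i g) = D i f D i g + f D i (D i g)`. -/
theorem green {f g : E → ℝ} (hf : ContDiff ℝ ∞ f) (hg : ContDiff ℝ ∞ g) :
    ∫ x : S2, f x * lap g x ∂area = - ∫ x : S2, ∑ i, D i f x * D i g x ∂area := by
  have h1 : ∀ x : S2, f x * lap g x = ∑ i, f x * D i (D i g) x := by
    intro x
    unfold lap
    rw [Finset.mul_sum]
  simp_rw [h1]
  rw [integral_finsetSum _ fun i _ =>
      int_of (f := fun y => f y * D i (D i g) y) (hf.mul (contDiff_D (contDiff_D hg i) i)),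
    integral_finsetSum _ fun i _ =>
      int_of (f := fun y => D i f y * D i g y) ((contDiff_D hf i).mul (contDiff_D hg i)),
    ← Finset.sum_neg_distrib]
  exact Finset.sum_congr rfl fun i _ => parts_aux hf (contDiff_D hg i) i

/-- `∫ f D i f = 0`. -/
theorem integral_mul_D {f : E → ℝ} (hf : ContDiff ℝ ∞ f) (i : Fin 3) :
    ∫ x : S2, f x * D i f x ∂area = 0 := by
  have h1 := parts_aux hf hf i
  have h2 : ∫ x : S2, D i f x * f x ∂area = ∫ x : S2, f x * D i f x ∂area := by
    simp_rw [mul_comm]
  rw [h2] at h1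
  linarith

/-- Integration by parts. -/
theorem integral_parts {f g : E → ℝ} (hf : ContDiff ℝ ∞ f) (hg : ContDiff ℝ ∞ g) (i : Fin 3) :
    ∫ x : S2, f x * D i g x ∂area = - ∫ x : S2, D i f x * g x ∂area :=
  parts_aux hf hg i

end Pool.Agent.Lib.RotSphere
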