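import Mathlib

/-!
Row Gron: a simple form of Gronwall's lemma.
-/

noncomputable section

namespace Pool.Agent.Lib.RotSphere

/-- `exp (-L t) y t - B t` is antitone on `[0, T]`. -/
theorem gron {y y' : ℝ → ℝ} {L B T : ℝ} (hL : 0 ≤ L) (hB : 0 ≤ B) (hT : 0 ≤ T)
    (hy : ∀ t, HasDerivAt y (y' t) t) (h : ∀ t ∈ Set.Icc 0 T, y' t ≤ L * y t + B)
    (h0 : y 0 = 0) : y T ≤ Real.exp (L * T) * (B * T) := by
  have hg : ∀ t, HasDerivAt (fun s => Real.exp (-(L * s)) * y s - B * s)
      (Real.exp (-(L * t)) * (-(L * 1)) * y t + Real.exp (-(L * t)) * y' t - B * 1) t := by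
    intro t
    have h1 : HasDerivAt (fun s : ℝ => -(L * s)) (-(L * 1)) t :=
      ((hasDerivAt_id t).const_mul L).neg
    exact (h1.exp.mul (hy t)).sub ((hasDerivAt_id t).const_mul B)
  have hanti : AntitoneOn (fun s => Real.exp (-(L * s)) * y s - B * s) (Set.Icc 0 T) := by
    refine antitoneOn_of_deriv_nonpos (convex_Icc 0 T)
      (fun t _ => (hg t).continuousAt.continuousWithinAt)
      (fun t _ => (hg t).differentiableAt.differentiableWithinAt) ?_
    intro t ht
    rw [interior_Icc] at ht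
    rw [(hg t).deriv]
    have h2 := h t ⟨ht.1.le, ht.2.le⟩
    have h3 : 0 < Real.exp (-(L * t)) := Real.exp_pos _
    have h4 : Real.exp (-(L * t)) ≤ 1 := by
      rw [Real.exp_le_one_iff]
      have := mul_nonneg hL ht.1.le
      linarith
    have h5 : Real.exp (-(L * t)) * (y' t - L * y t) ≤ Real.exp (-(L * t)) * B :=
      mul_le_mul_of_nonneg_left (by linarith) h3.le
    have h6 : Real.exp (-(L * t)) * B ≤ 1 * B := mul_le_mul_of_nonneg_right h4 hB
    nlinarith
  have h7 := hanti (Set.left_mem_Icc.2 hT) (Set.right_mem_Icc.2 hT) hT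
  simp only [h0, mul_zero, sub_zero] at h7
  have h8 : Real.exp (L * T) * Real.exp (-(L * T)) = 1 := by
    rw [← Real.exp_add, add_neg_cancel, Real.exp_zero]
  have h9 : Real.exp (-(L * T)) * y T ≤ B * T := by linarith
  calc y T = Real.exp (L * T) * (Real.exp (-(L * T)) * y T) := by
        rw [← mul_assoc, h8, one_mul]
    _ ≤ Real.exp (L * T) * (B * T) := mul_le_mul_of_nonneg_left h9 (Real.exp_pos _).le

end Pool.Agent.Lib.RotSphere
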