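import Pool.Agent.Lib.MP_dba1af_an.RS.Pert

noncomputable section
open MeasureTheory Set
open scoped ContDiff

namespace Pool.Agent.Lib.RotSphere

/-- Row Init (over the stub files). If `lap f = c lap g` on the sphere then the energy of `f` is at
most `2 c^2` times the energy of `g`: for `r = f - c g`, `∫ ∑ (D i r)^2 = - ∫ r lap r = 0`
(`green`), and `(a + b)^2 ≤ 2 a^2 + 2 b^2`. -/
theorem energy_init {f g : E → ℝ} (hf : ContDiff ℝ ∞ f) (hg : ContDiff ℝ ∞ g) (c : ℝ)
    (h : ∀ x : E, ‖x‖ = 1 → lap f x = c * lap g x) :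
    ∫ x : S2, ∑ i, D i f x ^ 2 ∂area ≤ 2 * c ^ 2 * ∫ x : S2, ∑ i, D i g x ^ 2 ∂area := by
  obtain ⟨r, hrdef⟩ : ∃ r : E → ℝ, r = fun y => f y + (-c) * g y := ⟨_, rfl⟩
  have hcg : ContDiff ℝ ∞ (fun y => (-c) * g y) := contDiff_const.mul hg
  have hr : ContDiff ℝ ∞ r := by
    rw [hrdef]
    exact hf.add hcg
  have hD : ∀ i y, D i r y = D i f y + (-c) * D i g y := by
    intro i y
    rw [hrdef, D_add hf hcg, D_smul hg]
  have hlap : ∀ x : E, ‖x‖ = 1 → lap r x = 0 := by
    intro x hx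
    rw [hrdef, lap_add hf hcg, lap_smul hg]
    show lap f x + (-c) * lap g x = 0
    rw [h x hx]
    ring
  have h0 : ∫ x : S2, ∑ i, D i r x * D i r x ∂area = 0 := by
    have h1 := green hr hr
    have h2 : ∫ x : S2, r x * lap r x ∂area = 0 := by
      have h3 : (fun x : S2 => r x * lap r x) = fun _ => (0 : ℝ) := by
        funext x
        rw [hlap x (by simp), mul_zero]
      rw [h3, integral_zero]
    linarith
  have cD : ∀ (u : E → ℝ), ContDiff ℝ ∞ u → ∀ i, Continuous (D i u) := fun u hu i =>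
    (contDiff_D hu i).continuous
  have ir : Integrable (fun x : S2 => ∑ i, D i r x * D i r x) area :=
    integrable_area (f := fun x => ∑ i, D i r x * D i r x)
      (continuous_finsetSum _ fun i _ => (cD r hr i).mul (cD r hr i))
  have ig : Integrable (fun x : S2 => ∑ i, D i g x ^ 2) area :=
    integrable_area (f := fun x => ∑ i, D i g x ^ 2)
      (continuous_finsetSum _ fun i _ => (cD g hg i).pow 2)
  have if' : Integrable (fun x : S2 => ∑ i, D i f x ^ 2) area :=
    integrable_area (f := fun x => ∑ i, D i f x ^ 2)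
      (continuous_finsetSum _ fun i _ => (cD f hf i).pow 2)
  have h4 : ∫ x : S2, ∑ i, D i f x ^ 2 ∂area ≤
      ∫ x : S2, (2 * (∑ i, D i r x * D i r x) + 2 * c ^ 2 * ∑ i, D i g x ^ 2) ∂area := by
    refine integral_mono if' ((ir.const_mul 2).add (ig.const_mul (2 * c ^ 2))) fun x => ?_
    show ∑ i, D i f x ^ 2 ≤ 2 * (∑ i, D i r x * D i r x) + 2 * c ^ 2 * ∑ i, D i g x ^ 2
    rw [Finset.mul_sum, Finset.mul_sum, ← Finset.sum_add_distrib]
    refine Finset.sum_le_sum fun i _ => ?_
    rw [hD i x]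
    nlinarith [sq_nonneg (D i f (x : E) - 2 * c * D i g (x : E))]
  rw [integral_add (ir.const_mul 2) (ig.const_mul (2 * c ^ 2)), integral_const_mul,
    integral_const_mul, h0] at h4
  linarith

end Pool.Agent.Lib.RotSphere
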