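import Pool.Agent.Lib.MP_dba1af_an.RS.BrDiv
import Pool.Agent.Lib.MP_dba1af_an.RS.Calc
import Pool.Agent.Lib.MP_dba1af_an.RS.IntD

noncomputable section
open MeasureTheory Set
open scoped ContDiff

namespace Pool.Agent.Lib.RotSphere

private theorem intBr_smooth {f g : E → ℝ} (hf : ContDiff ℝ ∞ f) (hg : ContDiff ℝ ∞ g)
    (j : Fin 3) :
    ContDiff ℝ ∞ (fun y => f y * (‖y‖ ^ 2 * fderiv ℝ g y (EuclideanSpace.single j 1)
      - y j * fderiv ℝ g y y)) := by
  have h1 : ContDiff ℝ ∞ (fderiv ℝ g) := hg.fderiv_right (m := ∞) (by simp)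
  have h2 : ContDiff ℝ ∞ (fun y : E => fderiv ℝ g y (EuclideanSpace.single j 1)) :=
    h1.clm_apply contDiff_const
  have h3 : ContDiff ℝ ∞ (fun y : E => fderiv ℝ g y y) := h1.clm_apply contDiff_id
  have h4 : ContDiff ℝ ∞ (fun y : E => y j) := (EuclideanSpace.proj (𝕜 := ℝ) j).contDiff
  have h5 : ContDiff ℝ ∞ (fun y : E => ‖y‖ ^ 2) := contDiff_norm_sq ℝ
  exact hf.mul ((h5.mul h2).sub (h4.mul h3))

/-- Row IntBr (over the stubs BrDiv, Calc, IntD): sum of `integral_D`, as `‖x‖ = 1` on the sphere. -/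
theorem integral_br {f g : E → ℝ} (hf : ContDiff ℝ ∞ f) (hg : ContDiff ℝ ∞ g) :
    ∫ x : S2, br f g x ∂area = 0 := by
  have h1 : ∀ x : S2, br f g x = ∑ j, D j (fun y => f y * (‖y‖ ^ 2 *
      fderiv ℝ g y (EuclideanSpace.single j 1) - y j * fderiv ℝ g y y)) (x : E) := by
    intro x
    have h2 := br_div hf hg (x : E)
    have h3 : ‖(x : E)‖ = 1 := by
      have := x.2
      rwa [mem_sphere_zero_iff_norm] at this
    rw [h3, one_pow, one_mul] at h2
    exact h2.symm
  simp only [h1]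
  rw [integral_finsetSum]
  · exact Finset.sum_eq_zero fun j _ =>
      integral_D ((intBr_smooth hf hg j).of_le (by simp)) j
  · intro j _
    exact integrable_area (contDiff_D (intBr_smooth hf hg j) j).continuous

/-- `∫ g {f, g} = 0`: use `br f (g^2) = 2 g br f g`. -/
theorem integral_mul_br {f g : E → ℝ} (hf : ContDiff ℝ ∞ f) (hg : ContDiff ℝ ∞ g) :
    ∫ x : S2, g x * br f g x ∂area = 0 := by
  have h1 := integral_br hf (hg.mul hg)
  have h2 : (br f fun y => g y * g y) = fun y => 2 * (g y * br f g y) := by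
    rw [br_mul_right hg hg]
    funext y
    ring
  rw [h2, integral_const_mul] at h1
  linarith

/-- `∫ f {f, g} = 0`: use `br f (f g) = f br f g`, as `br f f = 0`. -/
theorem integral_mul_br' {f g : E → ℝ} (hf : ContDiff ℝ ∞ f) (hg : ContDiff ℝ ∞ g) :
    ∫ x : S2, f x * br f g x ∂area = 0 := by
  have h1 := integral_br hf (hf.mul hg)
  have h2 : (br f fun y => f y * g y) = fun y => f y * br f g y := by
    rw [br_mul_right hf hg, br_self]
    funext y
    ring
  rw [h2] at h1
  exact h1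

end Pool.Agent.Lib.RotSphere
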