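import Pool.Agent.Lib.MP_dba1af_an.RS.Comm
import Pool.Agent.Lib.MP_dba1af_an.RS.IntD

noncomputable section
open MeasureTheory Set
open scoped ContDiff

namespace Pool.Agent.Lib.RotSphere

private theorem int_D {g : E → ℝ} (hg : ContDiff ℝ ∞ g) (i : Fin 3) :
    Integrable (fun x : S2 => D i g x) area := by
  have hc : Continuous (fun x : S2 => D i g x) :=
    (contDiff_D hg i).continuous.comp continuous_subtype_val
  exact hc.integrable_of_hasCompactSupport (HasCompactSupport.of_compactSpace _)

/-- Row IntComm (over the stubs Comm, Calc, IntD): the mean of `D 2 f lap f` is `0`. -/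
theorem integral_D2_mul_lap {f : E → ℝ} (hf : ContDiff ℝ ∞ f) :
    ∫ x : S2, D 2 f x * lap f x ∂area = 0 := by
  have hg : ∀ i : Fin 3, ContDiff ℝ ∞ (fun y => D 2 f y * D i f y) :=
    fun i => (contDiff_D hf 2).mul (contDiff_D hf i)
  have hq : ContDiff ℝ ∞ (fun y => ∑ i : Fin 3, D i f y ^ 2) :=
    ContDiff.sum fun i _ => (contDiff_D hf i).pow 2
  have h1 : (fun x : S2 => D 2 f x * lap f x) = fun x : S2 =>
      ∑ i, D i (fun y => D 2 f y * D i f y) x - (1 / 2) * D 2 (fun y => ∑ i, D i f y ^ 2) x := by
    funext x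
    exact D2_mul_lap hf x
  rw [h1, integral_sub (integrable_finsetSum _ fun i _ => int_D (hg i) i)
    ((int_D hq 2).const_mul _), integral_finsetSum _ (fun i _ => int_D (hg i) i),
    integral_const_mul, integral_D (hq.of_le (by simp)) 2]
  simp only [mul_zero, sub_zero]
  exact Finset.sum_eq_zero fun i _ => integral_D ((hg i).of_le (by simp)) i

end Pool.Agent.Lib.RotSphere
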