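import Pool.Agent.Lib.MP_dba1af_an.RS.Base

noncomputable section
open MeasureTheory Set
open scoped ContDiff Pointwise

namespace Pool.Agent.Lib.RotSphere

/-- a linear isometry as a homeomorphism of the sphere -/
private def rotS (R : E ≃ₗᵢ[ℝ] E) : S2 ≃ₜ S2 :=
  R.toHomeomorph.subtype (fun x => by simp)

private theorem rotS_coe (R : E ≃ₗᵢ[ℝ] E) (x : S2) : ((rotS R x : S2) : E) = R x := rfl

private theorem cone_pre (R : E ≃ₗᵢ[ℝ] E) (s : Set S2) :
    Ioo (0 : ℝ) 1 • ((fun x : S2 => (x : E)) '' (rotS R ⁻¹' s)) =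
      R ⁻¹' (Ioo (0 : ℝ) 1 • ((fun x : S2 => (x : E)) '' s)) := by
  ext y
  simp only [mem_preimage, mem_smul, mem_image]
  constructor
  · rintro ⟨r, hr, _, ⟨x, hx, rfl⟩, rfl⟩
    exact ⟨r, hr, _, ⟨rotS R x, hx, rfl⟩, by rw [rotS_coe, map_smul]⟩
  · rintro ⟨r, hr, _, ⟨x, hx, rfl⟩, h⟩
    refine ⟨r, hr, _, ⟨(rotS R).symm x, ?_, rfl⟩, ?_⟩
    · rw [Homeomorph.apply_symm_apply]; exact hx
    · apply R.injective
      rw [map_smul, ← rotS_coe, Homeomorph.apply_symm_apply]
      exact h

/-- Row IntRot. The surface measure is invariant under linear isometries.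
Hint: `Measure.toSphere_apply'` on measurable sets: `Ioo 0 1 • (coe '' (R ⁻¹ s)) = R ⁻¹ (Ioo 0 1 • coe '' s)`,
`LinearIsometryEquiv.measurePreserving`; then `integral_map` for the homeomorphism of the sphere. -/
theorem integral_rot (R : E ≃ₗᵢ[ℝ] E) (f : E → ℝ) :
    ∫ x : S2, f (R x) ∂area = ∫ x : S2, f x ∂area := by
  have hm : MeasurePreserving (rotS R).toMeasurableEquiv area area := by
    refine ⟨(rotS R).toMeasurableEquiv.measurable, ?_⟩
    ext s hs
    rw [Measure.map_apply (rotS R).toMeasurableEquiv.measurable hs, Measure.toSphere_apply' _ hs,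
      Measure.toSphere_apply' _ ((rotS R).toMeasurableEquiv.measurable hs)]
    congr 1
    have h := cone_pre R s
    have h2 := R.measurePreserving.measure_preimage_emb R.toHomeomorph.measurableEmbedding
      (Ioo (0 : ℝ) 1 • ((fun x : S2 => (x : E)) '' s))
    rw [← h2, ← h]
    rfl
  have := hm.integral_comp' (fun x : S2 => f x)
  exact this

end Pool.Agent.Lib.RotSphere
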