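import Pool.Agent.Lib.MP_dba1af_an.RS.Time
import Pool.Agent.Lib.MP_dba1af_an.RS.DerInt

noncomputable section
open MeasureTheory Set
open scoped ContDiff

namespace Pool.Agent.Lib.RotSphere

/-- Row IntTime (over the stubs Time, DerInt): derivative in the time of an integral over the
sphere of a smooth function of time and space. -/
theorem hasDerivAt_area {ψ : ℝ → E → ℝ} (h : Sm ψ) (t : ℝ) :
    HasDerivAt (fun s => ∫ x : S2, ψ s x ∂area) (∫ x : S2, dt ψ t x ∂area) t := by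
  have h0 : ContDiff ℝ ∞ (fun p : ℝ × E => ψ p.1 p.2) := h
  have h1 : ContDiff ℝ 1 (fun p : ℝ × E => ψ p.1 p.2) := h0.of_le (by exact_mod_cast le_top)
  have h2 := hasDerivAt_integral h1 t
  have h3 : (fun x : S2 => dt ψ t x) =
      fun x : S2 => fderiv ℝ (fun p : ℝ × E => ψ p.1 p.2) (t, (x : E)) (1, 0) := by
    funext x
    have h4 : HasFDerivAt (fun p : ℝ × E => ψ p.1 p.2)
        (fderiv ℝ (fun p : ℝ × E => ψ p.1 p.2) (t, (x : E))) (t, (x : E)) :=
      ((h1.differentiable one_ne_zero) _).hasFDerivAt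
    have h5 : HasDerivAt (fun s : ℝ => (s, (x : E))) ((1 : ℝ), (0 : E)) t :=
      (hasDerivAt_id t).prodMk (hasDerivAt_const t (x : E))
    have h6 := h4.comp_hasDerivAt t h5
    exact h6.deriv
  rw [h3]
  exact h2

/-- Sums, multiples, products, squares of smooth functions. -/
theorem sm_add {ψ φ : ℝ → E → ℝ} (h : Sm ψ) (h' : Sm φ) : Sm (fun t x => ψ t x + φ t x) :=
  ContDiff.add (𝕜 := ℝ) (f := fun p : ℝ × E => ψ p.1 p.2) (g := fun p : ℝ × E => φ p.1 p.2) h h'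

theorem sm_smul {ψ : ℝ → E → ℝ} (h : Sm ψ) (c : ℝ) : Sm (fun t x => c * ψ t x) :=
  ContDiff.mul (𝕜 := ℝ) (f := fun _ : ℝ × E => c) (g := fun p : ℝ × E => ψ p.1 p.2)
    contDiff_const h

theorem sm_mul {ψ φ : ℝ → E → ℝ} (h : Sm ψ) (h' : Sm φ) : Sm (fun t x => ψ t x * φ t x) :=
  ContDiff.mul (𝕜 := ℝ) (f := fun p : ℝ × E => ψ p.1 p.2) (g := fun p : ℝ × E => φ p.1 p.2) h h'

end Pool.Agent.Lib.RotSphere
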