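import Pool.Agent.Lib.MP_dba1af_an.RS.Base

noncomputable section
open MeasureTheory Set
open scoped ContDiff

namespace Pool.Agent.Lib.RotSphere

/-- Row Large (measure). If a continuous function `w` has `K + 2 ≤ |w x₀|` at a point of the
sphere, then there is `a > 0` such that every continuous `ω` with `|f x| < K δ` on the sphere
has `∫ (f - δ w)^2 ≥ a δ^2`: the set `{x : S2 | K + 1 < |w x|}` is open and nonempty, so its
measure is positive (`toSphere` is an open-positive measure), and there `|f - δ w| ≥ δ`. -/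
theorem large (w : E → ℝ) (hw : Continuous w) (K : ℝ) (x₀ : S2) (h : K + 2 ≤ |w x₀|) :
    ∃ a : ℝ, 0 < a ∧ ∀ f : E → ℝ, Continuous f → ∀ δ : ℝ, 0 < δ →
      (∀ x : S2, |f x| < K * δ) → a * δ ^ 2 ≤ ∫ x : S2, (f x - δ * w x) ^ 2 ∂area := by
  have hwc : Continuous (fun x : S2 => w x) := hw.comp continuous_subtype_val
  have hUo : IsOpen {x : S2 | K + 1 < |w x|} := isOpen_lt continuous_const hwc.abs
  have hUn : ({x : S2 | K + 1 < |w x|} : Set S2).Nonempty :=
    ⟨x₀, by show K + 1 < |w x₀|; linarith⟩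
  have hpos : 0 < area {x : S2 | K + 1 < |w x|} := hUo.measure_pos area hUn
  have hfin : area {x : S2 | K + 1 < |w x|} ≠ ⊤ := measure_ne_top _ _
  refine ⟨area.real {x : S2 | K + 1 < |w x|}, ENNReal.toReal_pos hpos.ne' hfin,
    fun f hf δ hδ hfx => ?_⟩
  have hfc : Continuous (fun x : S2 => f x) := hf.comp continuous_subtype_val
  have hcont : Continuous (fun x : S2 => (f x - δ * w x) ^ 2) :=
    (hfc.sub (continuous_const.mul hwc)).pow 2
  have hint : Integrable (fun x : S2 => (f x - δ * w x) ^ 2) area :=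
    hcont.integrable_of_hasCompactSupport (HasCompactSupport.of_compactSpace _)
  have h1 : area.real {x : S2 | K + 1 < |w x|} * δ ^ 2
      = ∫ x in {x : S2 | K + 1 < |w x|}, δ ^ 2 ∂area := by
    rw [setIntegral_const, smul_eq_mul]
  have h2 : ∫ x in {x : S2 | K + 1 < |w x|}, δ ^ 2 ∂area
      ≤ ∫ x in {x : S2 | K + 1 < |w x|}, (f x - δ * w x) ^ 2 ∂area := by
    refine setIntegral_mono_on (integrableOn_const hfin) hint.integrableOn
      hUo.measurableSet (fun x hx => ?_)
    have hx' : K + 1 < |w x| := hx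
    have h3 : δ ≤ |f x - δ * w x| := by
      have h4 : |δ * w x| - |f x| ≤ |f x - δ * w x| := by
        rw [abs_sub_comm]
        exact abs_sub_abs_le_abs_sub _ _
      have h5 : |δ * w x| = δ * |w x| := by rw [abs_mul, abs_of_pos hδ]
      have h6 : δ * (K + 1) < δ * |w x| := mul_lt_mul_of_pos_left hx' hδ
      have h7 := hfx x
      nlinarith
    calc δ ^ 2 ≤ |f x - δ * w x| ^ 2 := pow_le_pow_left₀ hδ.le h3 2
      _ = (f x - δ * w x) ^ 2 := sq_abs _
  rw [h1]
  exact h2.trans (setIntegral_le_integral hint (Filter.Eventually.of_forall fun x => sq_nonneg _))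

end Pool.Agent.Lib.RotSphere
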