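import Pool.Agent.Lib.MP_dba1af_an.RS.Base

noncomputable section
open MeasureTheory Set
open scoped ContDiff

namespace Pool.Agent.Lib.RotSphere

open Polynomial in
/-- The Legendre polynomials `P_n(s) = Q_n((1 - s)/2)`, `Q_n` the shifted ones of Mathlib. -/
def Leg (n : ℕ) : ℝ[X] :=
  ((shiftedLegendre n).map (Int.castRingHom ℝ)).comp (C (1 / 2) * (1 - X))

open Polynomial in
private theorem legode_coeff (n k : ℕ) :
    ((k : ℤ) + 1) ^ 2 * (shiftedLegendre n).coeff (k + 1) =
      ((k : ℤ) * (k + 1) - n * (n + 1)) * (shiftedLegendre n).coeff k := by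
  rw [coeff_shiftedLegendre, coeff_shiftedLegendre]
  have h1 : ((n.choose (k + 1) : ℕ) : ℤ) * (k + 1) = (n.choose k : ℤ) * ((n : ℤ) - k) := by
    rcases le_or_gt k n with h | h
    · have := Nat.choose_succ_right_eq n k
      have h2 : ((n.choose (k + 1) * (k + 1) : ℕ) : ℤ) = ((n.choose k * (n - k) : ℕ) : ℤ) := by
        rw [this]
      push_cast [Nat.cast_sub h] at h2
      exact h2
    · rw [Nat.choose_eq_zero_of_lt h, Nat.choose_eq_zero_of_lt (by omega)]
      simp
  have h2 : (((n + (k + 1)).choose n : ℕ) : ℤ) * (k + 1) =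
      ((n + k).choose n : ℤ) * ((n : ℤ) + k + 1) := by
    have := Nat.choose_mul_succ_eq (n + k) n
    have h3 : n + k + 1 - n = k + 1 := by omega
    rw [h3] at this
    have h4 : (((n + k).choose n * (n + k + 1) : ℕ) : ℤ) =
        (((n + k + 1).choose n * (k + 1) : ℕ) : ℤ) := by
      rw [this]
    push_cast at h4
    rw [show n + (k + 1) = n + k + 1 by ring]
    linarith
  calc ((k : ℤ) + 1) ^ 2 * ((-1) ^ (k + 1) * (n.choose (k + 1) : ℤ) * ((n + (k + 1)).choose n : ℤ))
      = (-1) ^ (k + 1) * ((n.choose (k + 1) : ℤ) * (k + 1)) *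
          (((n + (k + 1)).choose n : ℤ) * (k + 1)) := by ring
    _ = (-1) ^ (k + 1) * ((n.choose k : ℤ) * ((n : ℤ) - k)) *
          (((n + k).choose n : ℤ) * ((n : ℤ) + k + 1)) := by rw [h1, h2]
    _ = _ := by ring

open Polynomial in
private theorem legode_poly (n : ℕ) :
    X * (1 - X) * derivative (derivative (shiftedLegendre n)) +
      (1 - 2 * X) * derivative (shiftedLegendre n) =
      C (-((n : ℤ) * (n + 1))) * shiftedLegendre n := by
  ext k
  rw [show X * (1 - X) * derivative (derivative (shiftedLegendre n)) +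
      (1 - 2 * X) * derivative (shiftedLegendre n) =
      X * derivative (derivative (shiftedLegendre n))
        - X * (X * derivative (derivative (shiftedLegendre n)))
        + derivative (shiftedLegendre n) - C (2 : ℤ) * (X * derivative (shiftedLegendre n)) by
      rw [show (C (2 : ℤ) : ℤ[X]) = 2 by rfl]; ring]
  rw [coeff_sub, coeff_add, coeff_sub, coeff_C_mul, coeff_C_mul]
  have hk := legode_coeff n k
  rcases k with _ | k
  · simp only [coeff_X_mul_zero, coeff_derivative]
    push_cast at hk ⊢
    linarith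
  · rcases k with _ | k
    · simp only [coeff_X_mul, coeff_X_mul_zero, coeff_derivative]
      push_cast at hk ⊢
      linarith
    · simp only [coeff_X_mul, coeff_derivative]
      push_cast at hk ⊢
      linarith

open Polynomial in
private theorem legode_real (n : ℕ) (x : ℝ) :
    x * (1 - x) * (derivative (derivative ((shiftedLegendre n).map (Int.castRingHom ℝ)))).eval x +
      (1 - 2 * x) * (derivative ((shiftedLegendre n).map (Int.castRingHom ℝ))).eval x =
      -((n : ℝ) * (n + 1)) * ((shiftedLegendre n).map (Int.castRingHom ℝ)).eval x := by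
  have h := congrArg (fun q : ℤ[X] => (q.map (Int.castRingHom ℝ)).eval x) (legode_poly n)
  simpa [derivative_map, Polynomial.map_mul, Polynomial.map_add, Polynomial.map_sub] using h

open Polynomial in
/-- Row LegOde. The Legendre equation. Hint: for `Q = shiftedLegendre n` compare the coefficients
(`coeff_shiftedLegendre`) of `x (1 - x) Q'' + (1 - 2 x) Q' = - n (n + 1) Q`: with
`a k = (-1)^k C(n,k) C(n+k,n)` one has `(k+1)^2 a (k+1) = (k (k+1) - n (n+1)) a k`. -/
theorem leg_ode (n : ℕ) (s : ℝ) :
    (1 - s ^ 2) * (derivative (derivative (Leg n))).eval s - 2 * s * (derivative (Leg n)).eval s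
      = - (n * (n + 1)) * (Leg n).eval s := by
  have hd : derivative (C (1 / 2 : ℝ) * (1 - X)) = C (-(1 / 2) : ℝ) := by
    simp
  have h1 : (derivative (Leg n)).eval s = -(1 / 2) *
      (derivative ((shiftedLegendre n).map (Int.castRingHom ℝ))).eval (1 / 2 * (1 - s)) := by
    rw [Leg, derivative_comp, hd, eval_mul, eval_C, eval_comp]
    simp
  have h2 : (derivative (derivative (Leg n))).eval s = 1 / 4 *
      (derivative (derivative ((shiftedLegendre n).map (Int.castRingHom ℝ)))).eval
        (1 / 2 * (1 - s)) := by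
    rw [Leg, derivative_comp, hd, derivative_C_mul, derivative_comp, hd, eval_mul, eval_C, eval_mul,
      eval_C, eval_comp]
    simp
    ring
  have h3 : (Leg n).eval s =
      ((shiftedLegendre n).map (Int.castRingHom ℝ)).eval (1 / 2 * (1 - s)) := by
    rw [Leg, eval_comp]
    simp
  have h := legode_real n (1 / 2 * (1 - s))
  rw [h1, h2, h3, ← h]
  ring

end Pool.Agent.Lib.RotSphere
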