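import Mathlib

/-!
Row LegVal: values, degree and leading coefficient of the Legendre polynomials (the definition
of `Leg` is repeated here as a local abbreviation, so that this file only needs Mathlib).
-/

noncomputable section
open Polynomial

namespace Pool.Agent.Lib.RotSphere

private theorem arg_eval (s : ℝ) : ((C (1 / 2) * (1 - X) : ℝ[X])).eval s = 1 / 2 * (1 - s) := by
  simp

private theorem arg_natDegree : (C (1 / 2) * (1 - X) : ℝ[X]).natDegree = 1 := by
  have h : (C (1 / 2) * (1 - X) : ℝ[X]) = C (-1 / 2) * X + C (1 / 2) := by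
    rw [mul_sub, mul_one, show (-1 / 2 : ℝ) = -(1 / 2) by norm_num, C_neg]
    ring
  rw [h]
  exact natDegree_linear (by norm_num)

private theorem arg_leadingCoeff : (C (1 / 2) * (1 - X) : ℝ[X]).leadingCoeff = -1 / 2 := by
  have h : (C (1 / 2) * (1 - X) : ℝ[X]) = C (-1 / 2) * X + C (1 / 2) := by
    rw [mul_sub, mul_one, show (-1 / 2 : ℝ) = -(1 / 2) by norm_num, C_neg]
    ring
  rw [h]
  exact leadingCoeff_linear (by norm_num)

/-- `P_n(1) = 1`: `shiftedLegendre n` at `0`. -/
theorem leg_one (n : ℕ) : (((shiftedLegendre n).map (Int.castRingHom ℝ)).comp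
    (C (1 / 2) * (1 - X)) : ℝ[X]).eval 1 = 1 := by
  rw [eval_comp, arg_eval]
  rw [sub_self, mul_zero, ← coeff_zero_eq_eval_zero, coeff_map, coeff_shiftedLegendre]
  simp

/-- `P_n(-s) = (-1)^n P_n(s)`: `shiftedLegendre_eval_symm`. -/
theorem leg_neg (n : ℕ) (s : ℝ) : (((shiftedLegendre n).map (Int.castRingHom ℝ)).comp
    (C (1 / 2) * (1 - X)) : ℝ[X]).eval (-s) = (-1) ^ n * (((shiftedLegendre n).map
    (Int.castRingHom ℝ)).comp (C (1 / 2) * (1 - X)) : ℝ[X]).eval s := by
  rw [eval_comp, eval_comp, arg_eval, arg_eval]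
  have h := shiftedLegendre_eval_symm n (1 / 2 * (1 - -s))
  have h2 : (1 : ℝ) - 1 / 2 * (1 - -s) = 1 / 2 * (1 - s) := by ring
  rw [h2] at h
  simpa [aeval_def, eval_map] using h

theorem leg_natDegree (n : ℕ) : (((shiftedLegendre n).map (Int.castRingHom ℝ)).comp
    (C (1 / 2) * (1 - X)) : ℝ[X]).natDegree = n := by
  rw [natDegree_comp, arg_natDegree, mul_one,
    natDegree_map_eq_of_injective (RingHom.injective_int (Int.castRingHom ℝ)),
    natDegree_shiftedLegendre]

/-- The leading coefficient is `C(2n,n) / 2^n`. -/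
theorem leg_leadingCoeff (n : ℕ) : (((shiftedLegendre n).map (Int.castRingHom ℝ)).comp
    (C (1 / 2) * (1 - X)) : ℝ[X]).leadingCoeff = (2 * n).choose n / 2 ^ n := by
  rw [leadingCoeff_comp (by rw [arg_natDegree]; exact one_ne_zero), arg_leadingCoeff,
    leadingCoeff_map_of_injective (RingHom.injective_int (Int.castRingHom ℝ)),
    natDegree_map_eq_of_injective (RingHom.injective_int (Int.castRingHom ℝ)),
    natDegree_shiftedLegendre, leadingCoeff, natDegree_shiftedLegendre, coeff_shiftedLegendre]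
  have h : ((-1 : ℝ)) ^ n * (-1 / 2) ^ n = 1 / 2 ^ n := by
    rw [← mul_pow, ← one_div_pow]
    norm_num
  simp only [Nat.choose_self, Nat.cast_one, mul_one, eq_intCast, Int.cast_mul, Int.cast_pow,
    Int.cast_neg, Int.cast_one, Int.cast_natCast]
  rw [mul_right_comm, h, two_mul]
  ring

end Pool.Agent.Lib.RotSphere
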