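import Pool.Agent.Lib.MP_dba1af_an.RS.LinEq
import Pool.Agent.Lib.MP_dba1af_an.RS.LegVal
import Pool.Agent.Lib.MP_dba1af_an.RS.Expand
import Pool.Agent.Lib.MP_dba1af_an.RS.Cheb
import Pool.Agent.Lib.MP_dba1af_an.RS.Avg

noncomputable section
open MeasureTheory Set
open scoped ContDiff

namespace Pool.Agent.Lib.RotSphere

private theorem spd_ne {j m : ℕ} (hjm : j < m) : spd j ≠ spd m := by
  intro h
  unfold spd at h
  have hj : (0 : ℚ) < (2 * j + 1) * (2 * j + 2) := by positivity
  have hm : (0 : ℚ) < (2 * m + 1) * (2 * m + 2) := by positivity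
  have h1 : (2 : ℚ) / ((2 * j + 1) * (2 * j + 2)) = 2 / ((2 * m + 1) * (2 * m + 2)) := by linarith
  rw [div_eq_div_iff hj.ne' hm.ne'] at h1
  have hlt : (j : ℚ) < m := by exact_mod_cast hjm
  have hj0 : (0 : ℚ) ≤ j := by positivity
  nlinarith

private theorem ph_zero (x : E) : ph 0 x = x 0 := by
  simp [ph]

/-- Row LinBig (over the stubs LegVal, Expand, Cheb, Avg, Wave). Take the Chebyshev polynomial of
degree `2 m + 1` and its expansion in `Leg (2 j + 1)` (`expand_odd`); the last coefficient is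
`≥ sqrt (4 m + 3) / 2` (`cheb_coeff`, `leg_leadingCoeff`, `ratio_large`). At time `0` one has
`ph 0 x = x 0`, `|x 0| ≤ 1`. At the time of `exists_time` (`c = spd`, `g j = eval (Leg (2 j + 1))`)
take the point `(cos a, sin a, 0)`, `a = spd m * t` (`ph_at`, `norm_point`). -/
theorem exists_big (K : ℝ) : ∃ (m : ℕ) (h : ℕ → ℝ),
    (∀ x : E, ‖x‖ = 1 → |wl m h 0 x| ≤ 1) ∧ ∃ T : ℝ, 0 < T ∧ ∃ x₀ : S2, K ≤ |wl m h T x₀| := by
  obtain ⟨m, hm⟩ := exists_nat_ge ((2 * K) ^ 2)
  set q : Polynomial ℝ := Polynomial.Chebyshev.T ℝ (2 * m + 1 : ℕ) with hq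
  have hdeg : ∀ j : ℕ, (Leg (2 * j + 1)).natDegree = 2 * j + 1 := fun j => leg_natDegree _
  have hodd : ∀ (j : ℕ) (s : ℝ), (Leg (2 * j + 1)).eval (-s) = - (Leg (2 * j + 1)).eval s := by
    intro j s
    have h1 := leg_neg (2 * j + 1) s
    have h2 : ((-1 : ℝ)) ^ (2 * j + 1) = -1 := Odd.neg_one_pow ⟨j, rfl⟩
    rw [h2] at h1
    unfold Leg
    rw [h1]
    ring
  obtain ⟨h, hsum, hlast⟩ := expand_odd (fun j => Leg (2 * j + 1)) hdeg hodd m q
    (by rw [hq, cheb_natDegree]) (fun s => by
      have := cheb_odd m s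
      rw [hq]
      exact_mod_cast this)
  refine ⟨m, h, ?_, ?_⟩
  · intro x hx
    have h1 : wl m h 0 x = q.eval (x 0) := by
      rw [hsum, Polynomial.eval_finsetSum]
      unfold wl
      apply Finset.sum_congr rfl
      intro j _
      simp [ph_zero, Polynomial.eval_mul]
    rw [h1, hq]
    apply cheb_abs_le
    rw [← ph_zero x]
    exact abs_ph_le 0 x hx
  · obtain ⟨t, ht, hle⟩ := exists_time m h (fun j s => (Leg (2 * j + 1)).eval s)
      (fun j => (Leg (2 * j + 1)).continuous) hodd spd (fun j hj => spd_ne hj)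
    refine ⟨t, ht, ⟨WithLp.toLp 2 ![Real.cos ((spd m : ℝ) * t), Real.sin ((spd m : ℝ) * t), 0], ?_⟩,
      ?_⟩
    · rw [mem_sphere_zero_iff_norm]
      exact norm_point _
    · have hone : (Leg (2 * m + 1)).eval 1 = 1 := leg_one _
      have hw : wl m h t (WithLp.toLp 2 ![Real.cos ((spd m : ℝ) * t),
          Real.sin ((spd m : ℝ) * t), 0]) = ∑ j ∈ Finset.range (m + 1),
            h j * (Leg (2 * j + 1)).eval (Real.cos (((spd j : ℝ) - spd m) * t)) := by
        unfold wl
        apply Finset.sum_congr rfl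
        intro j _
        rw [ph_at, ← sub_mul]
      have hK : K ≤ h m := by
        rw [hlast]
        have hc : q.coeff (2 * m + 1) = 2 ^ (2 * m) := by
          rw [hq, cheb_coeff (2 * m + 1) (by omega)]
          simp
        have hl : (Leg (2 * m + 1)).leadingCoeff =
            (((2 * (2 * m + 1)).choose (2 * m + 1) : ℕ) : ℝ) / 2 ^ (2 * m + 1) :=
          leg_leadingCoeff _
        have hr := ratio_large (2 * m + 1) (by omega)
        simp only [Nat.add_sub_cancel] at hr
        rw [hc]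
        show K ≤ 2 ^ (2 * m) / (Leg (2 * m + 1)).leadingCoeff
        rw [hl]
        refine le_trans ?_ hr
        have h2 : 2 * K ≤ Real.sqrt (2 * ((2 * m + 1 : ℕ) : ℝ) + 1) := by
          apply Real.le_sqrt_of_sq_le
          push_cast
          have : (0 : ℝ) ≤ m := by positivity
          linarith
        linarith
      refine le_trans ?_ (le_abs_self _)
      show K ≤ wl m h t _
      rw [hw]
      simp only [hone, mul_one] at hle
      exact hK.trans hle

end Pool.Agent.Lib.RotSphere
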