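import Pool.Agent.Lib.MP_dba1af_an.RS.Base

noncomputable section
open MeasureTheory Set
open scoped ContDiff

namespace Pool.Agent.Lib.RotSphere

/-- The phase `x · (cos θ, sin θ, 0)`. -/
def ph (θ : ℝ) (x : E) : ℝ := x 0 * Real.cos θ + x 1 * Real.sin θ

/-- the phase as a continuous linear map -/
private def phL (θ : ℝ) : E →L[ℝ] ℝ :=
  Real.cos θ • EuclideanSpace.proj (0 : Fin 3) + Real.sin θ • EuclideanSpace.proj (1 : Fin 3)

private theorem phL_apply (θ : ℝ) (x : E) : phL θ x = ph θ x := by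
  show Real.cos θ * x 0 + Real.sin θ * x 1 = ph θ x
  unfold ph
  ring

private theorem hasF_ph (θ : ℝ) (x : E) : HasFDerivAt (fun y => ph θ y) (phL θ) x := by
  have h : (fun y => ph θ y) = fun y => phL θ y := by
    funext y
    exact (phL_apply θ y).symm
  rw [h]
  exact (phL θ).hasFDerivAt

private theorem hasF_phJ (θ : ℝ) (i : Fin 3) (x : E) :
    HasFDerivAt (fun y => ph θ (J i y)) ((phL θ).comp (J i)) x := by
  have h : (fun y => ph θ (J i y)) = fun y => (phL θ).comp (J i) y := by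
    funext y
    rw [ContinuousLinearMap.comp_apply, phL_apply]
  rw [h]
  exact ((phL θ).comp (J i)).hasFDerivAt

open Polynomial in
private theorem hasF_eval (P : ℝ[X]) (θ : ℝ) (x : E) :
    HasFDerivAt (fun y => P.eval (ph θ y)) ((derivative P).eval (ph θ x) • phL θ) x :=
  (P.hasDerivAt (ph θ x)).comp_hasFDerivAt x (hasF_ph θ x)

open Polynomial in
private theorem D_eval (P : ℝ[X]) (θ : ℝ) (i : Fin 3) : D i (fun y => P.eval (ph θ y)) =
    fun x => (derivative P).eval (ph θ x) * ph θ (J i x) := by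
  funext x
  unfold D
  rw [(hasF_eval P θ x).fderiv]
  show (derivative P).eval (ph θ x) * phL θ (J i x) = _
  rw [phL_apply]

open Polynomial in
private theorem DD_eval (P : ℝ[X]) (θ : ℝ) (i : Fin 3) (x : E) :
    D i (D i (fun y => P.eval (ph θ y))) x =
      (derivative (derivative P)).eval (ph θ x) * ph θ (J i x) ^ 2 +
        (derivative P).eval (ph θ x) * ph θ (J i (J i x)) := by
  rw [D_eval]
  unfold D
  have h : HasFDerivAt (fun y => (derivative P).eval (ph θ y) * ph θ (J i y)) _ x :=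
    (hasF_eval (derivative P) θ x).mul (hasF_phJ θ i x)
  rw [h.fderiv]
  show (derivative P).eval (ph θ x) * phL θ (J i (J i x)) +
    ph θ (J i x) * ((derivative (derivative P)).eval (ph θ x) * phL θ (J i x)) = _
  rw [phL_apply, phL_apply]
  ring

private theorem J0 (x : E) : J 0 x 0 = 0 ∧ J 0 x 1 = - x 2 ∧ J 0 x 2 = x 1 := by
  refine ⟨?_, ?_, ?_⟩ <;> rw [J_apply] <;> rfl

private theorem J1 (x : E) : J 1 x 0 = x 2 ∧ J 1 x 1 = 0 ∧ J 1 x 2 = - x 0 := by
  refine ⟨?_, ?_, ?_⟩ <;> rw [J_apply] <;> rfl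

private theorem J2 (x : E) : J 2 x 0 = - x 1 ∧ J 2 x 1 = x 0 ∧ J 2 x 2 = 0 := by
  refine ⟨?_, ?_, ?_⟩ <;> rw [J_apply] <;> rfl

private theorem norm_coord (x : E) (hx : ‖x‖ = 1) : x 0 ^ 2 + x 1 ^ 2 + x 2 ^ 2 = 1 := by
  have h := EuclideanSpace.norm_sq_eq x
  rw [hx, Fin.sum_univ_three] at h
  simp only [Real.norm_eq_abs, sq_abs] at h
  linarith

open Polynomial in
/-- Row Wave. `D i`, `lap` and `∂_t` of `P (x · e(θ))`. `D 0 (ph θ) = - x 2 sin θ`,
`D 1 (ph θ) = x 2 cos θ`, `D 2 (ph θ) = - x 1 cos θ + x 0 sin θ`. -/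
theorem D2_wave (P : ℝ[X]) (θ : ℝ) (x : E) : D 2 (fun y => P.eval (ph θ y)) x =
    (derivative P).eval (ph θ x) * (x 0 * Real.sin θ - x 1 * Real.cos θ) := by
  rw [D_eval]
  show (derivative P).eval (ph θ x) * ph θ (J 2 x) = _
  have h : ph θ (J 2 x) = x 0 * Real.sin θ - x 1 * Real.cos θ := by
    unfold ph
    rw [(J2 x).1, (J2 x).2.1]
    ring
  rw [h]

open Polynomial in
theorem lap_wave (P : ℝ[X]) (θ : ℝ) (x : E) (hx : ‖x‖ = 1) :
    lap (fun y => P.eval (ph θ y)) x =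
      (1 - ph θ x ^ 2) * (derivative (derivative P)).eval (ph θ x)
        - 2 * ph θ x * (derivative P).eval (ph θ x) := by
  unfold lap
  rw [Fin.sum_univ_three, DD_eval, DD_eval, DD_eval]
  generalize (derivative (derivative P)).eval (ph θ x) = A
  generalize (derivative P).eval (ph θ x) = B
  have hn := norm_coord x hx
  have hc := Real.sin_sq_add_cos_sq θ
  have e0 : ph θ (J 0 x) = - x 2 * Real.sin θ := by
    unfold ph
    rw [(J0 x).1, (J0 x).2.1]
    ring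
  have e1 : ph θ (J 1 x) = x 2 * Real.cos θ := by
    unfold ph
    rw [(J1 x).1, (J1 x).2.1]
    ring
  have e2 : ph θ (J 2 x) = x 0 * Real.sin θ - x 1 * Real.cos θ := by
    unfold ph
    rw [(J2 x).1, (J2 x).2.1]
    ring
  have f0 : ph θ (J 0 (J 0 x)) = - x 1 * Real.sin θ := by
    unfold ph
    rw [(J0 (J 0 x)).1, (J0 (J 0 x)).2.1, (J0 x).2.2]
    ring
  have f1 : ph θ (J 1 (J 1 x)) = - x 0 * Real.cos θ := by
    unfold ph
    rw [(J1 (J 1 x)).1, (J1 (J 1 x)).2.1, (J1 x).2.2]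
    ring
  have f2 : ph θ (J 2 (J 2 x)) = - x 0 * Real.cos θ - x 1 * Real.sin θ := by
    unfold ph
    rw [(J2 (J 2 x)).1, (J2 (J 2 x)).2.1, (J2 x).1, (J2 x).2.1]
    ring
  rw [e0, e1, e2, f0, f1, f2]
  unfold ph
  have k1 : (- x 2 * Real.sin θ) ^ 2 + (x 2 * Real.cos θ) ^ 2 +
      (x 0 * Real.sin θ - x 1 * Real.cos θ) ^ 2 =
      1 - (x 0 * Real.cos θ + x 1 * Real.sin θ) ^ 2 := by
    linear_combination (x 0 ^ 2 + x 1 ^ 2 + x 2 ^ 2) * hc + hn
  linear_combination A * k1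

open Polynomial in
theorem hasDerivAt_wave (P : ℝ[X]) (c t : ℝ) (x : E) :
    HasDerivAt (fun s => P.eval (ph (c * s) x))
      (- c * ((derivative P).eval (ph (c * t) x) *
        (x 0 * Real.sin (c * t) - x 1 * Real.cos (c * t)))) t := by
  have hl : HasDerivAt (fun s : ℝ => c * s) c t := by
    simpa using (hasDerivAt_id t).const_mul c
  have h1 : HasDerivAt (fun s : ℝ => ph (c * s) x)
      (x 0 * (- Real.sin (c * t) * c) + x 1 * (Real.cos (c * t) * c)) t := by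
    unfold ph
    exact (hl.cos.const_mul (x 0)).add (hl.sin.const_mul (x 1))
  have h2 := (P.hasDerivAt (ph (c * t) x)).comp t h1
  exact h2.congr_deriv (by ring)

open Polynomial in
theorem contDiff_wave (P : ℝ[X]) (c : ℝ) :
    ContDiff ℝ ∞ (fun p : ℝ × E => P.eval (ph (c * p.1) p.2)) := by
  have h0 : ∀ i : Fin 3, ContDiff ℝ ∞ (fun p : ℝ × E => p.2 i) := fun i =>
    (EuclideanSpace.proj i : E →L[ℝ] ℝ).contDiff.comp contDiff_snd
  have h1 : ContDiff ℝ ∞ (fun p : ℝ × E => c * p.1) := contDiff_const.mul contDiff_fst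
  have h2 : ContDiff ℝ ∞ (fun p : ℝ × E => ph (c * p.1) p.2) := by
    unfold ph
    exact ((h0 0).mul h1.cos).add ((h0 1).mul h1.sin)
  exact (Polynomial.contDiff_aeval P ∞).comp h2

theorem abs_ph_le (θ : ℝ) (x : E) (hx : ‖x‖ = 1) : |ph θ x| ≤ 1 := by
  have hn := norm_coord x hx
  have hc := Real.sin_sq_add_cos_sq θ
  rw [abs_le_one_iff_mul_self_le_one]
  unfold ph
  have k : (x 0 * Real.cos θ + x 1 * Real.sin θ) * (x 0 * Real.cos θ + x 1 * Real.sin θ) =
      1 - x 2 ^ 2 - (x 0 * Real.sin θ - x 1 * Real.cos θ) ^ 2 := by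
    linear_combination (x 0 ^ 2 + x 1 ^ 2) * hc + hn
  rw [k]
  nlinarith [sq_nonneg (x 2), sq_nonneg (x 0 * Real.sin θ - x 1 * Real.cos θ)]

/-- At the moving point `e(a)`. -/
theorem ph_at (θ a : ℝ) : ph θ (WithLp.toLp 2 ![Real.cos a, Real.sin a, 0]) = Real.cos (θ - a) := by
  rw [Real.cos_sub]
  show Real.cos a * Real.cos θ + Real.sin a * Real.sin θ = _
  ring

theorem norm_point (a : ℝ) : ‖(WithLp.toLp 2 ![Real.cos a, Real.sin a, 0] : E)‖ = 1 := by
  rw [EuclideanSpace.norm_eq, Fin.sum_univ_three]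
  have h : ‖Real.cos a‖ ^ 2 + ‖Real.sin a‖ ^ 2 + ‖(0 : ℝ)‖ ^ 2 = 1 := by
    rw [Real.norm_eq_abs, Real.norm_eq_abs, sq_abs, sq_abs, norm_zero]
    have := Real.sin_sq_add_cos_sq a
    linarith
  show √(‖Real.cos a‖ ^ 2 + ‖Real.sin a‖ ^ 2 + ‖(0 : ℝ)‖ ^ 2) = 1
  rw [h, Real.sqrt_one]

end Pool.Agent.Lib.RotSphere
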