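import Pool.Agent.Lib.MP_dba1af_an.RS.Pert
import Pool.Agent.Lib.MP_dba1af_an.RS.Wave
import Pool.Agent.Lib.MP_dba1af_an.RS.LegOde

noncomputable section
open MeasureTheory Set
open scoped ContDiff

namespace Pool.Agent.Lib.RotSphere

/-- The angular speed of the part of degree `2 j + 1`. -/
def spd (j : ℕ) : ℚ := 1 - 2 / ((2 * j + 1) * (2 * j + 2))

/-- The solution of the linearized equation. -/
def wl (m : ℕ) (h : ℕ → ℝ) (t : ℝ) (x : E) : ℝ :=
  ∑ j ∈ Finset.range (m + 1), h j * (Leg (2 * j + 1)).eval (ph ((spd j : ℝ) * t) x)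

/-- Its stream function. -/
def cl (m : ℕ) (h : ℕ → ℝ) (t : ℝ) (x : E) : ℝ :=
  ∑ j ∈ Finset.range (m + 1), (- h j / ((2 * j + 1) * (2 * j + 2))) *
    (Leg (2 * j + 1)).eval (ph ((spd j : ℝ) * t) x)

private theorem sm_sum {ι : Type} (s : Finset ι) (c : ι → ℝ) (f : ι → E → ℝ)
    (hf : ∀ j, ContDiff ℝ ∞ (f j)) : ContDiff ℝ ∞ (fun y => ∑ j ∈ s, c j * f j y) :=
  ContDiff.sum fun j _ => contDiff_const.mul (hf j)

private theorem lap_sum {ι : Type} (s : Finset ι) (c : ι → ℝ) (f : ι → E → ℝ)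
    (hf : ∀ j, ContDiff ℝ ∞ (f j)) :
    lap (fun y => ∑ j ∈ s, c j * f j y) = fun y => ∑ j ∈ s, c j * lap (f j) y := by
  classical
  induction s using Finset.induction_on with
  | empty =>
    have h0 : ∀ i, D i (fun _ : E => (0 : ℝ)) = fun _ => 0 := by
      intro i
      funext z
      simp [D]
    funext y
    simp [lap, h0]
  | insert a s ha ih =>
    simp only [Finset.sum_insert ha]
    rw [lap_add (contDiff_const.mul (hf a)) (sm_sum s c f hf), lap_smul (hf a), ih]

private theorem D_sum {ι : Type} (i : Fin 3) (s : Finset ι) (c : ι → ℝ) (f : ι → E → ℝ)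
    (hf : ∀ j, ContDiff ℝ ∞ (f j)) :
    D i (fun y => ∑ j ∈ s, c j * f j y) = fun y => ∑ j ∈ s, c j * D i (f j) y := by
  classical
  induction s using Finset.induction_on with
  | empty =>
    funext y
    simp [D]
  | insert a s ha ih =>
    simp only [Finset.sum_insert ha]
    rw [D_add (contDiff_const.mul (hf a)) (sm_sum s c f hf), D_smul (hf a), ih]

open Polynomial in
private theorem sm_wave (P : ℝ[X]) (θ : ℝ) : ContDiff ℝ ∞ (fun y : E => P.eval (ph θ y)) := by
  have h : ContDiff ℝ ∞ (fun y : E => ((1 : ℝ), y)) := contDiff_const.prodMk contDiff_id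
  have h2 := (contDiff_wave P θ).comp h
  have h3 : (fun p : ℝ × E => P.eval (ph (θ * p.1) p.2)) ∘ (fun y : E => ((1 : ℝ), y)) =
      fun y : E => P.eval (ph θ y) := by
    funext y
    simp [Function.comp]
  rw [h3] at h2
  exact h2

/-- Row LinEq (over the stubs Wave, LegOde, Calc). By `lap_wave` and `leg_ode` (with `n = 2 j + 1`)
every summand of `cl` has `lap` equal to the summand of `wl` on the sphere; by `hasDerivAt_wave` and
`D2_wave`, `∂_t w_j = - spd j D 2 w_j` and `-spd j + 1 - 2 / ((2 j + 1) (2 j + 2)) = 0`. -/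
theorem isLin_wl (m : ℕ) (h : ℕ → ℝ) : IsLin (wl m h) (cl m h) := by
  have hs : ∀ t, ∀ j, ContDiff ℝ ∞ (fun y : E => (Leg (2 * j + 1)).eval (ph ((spd j : ℝ) * t) y)) :=
    fun t j => sm_wave _ _
  have hspd : ∀ j : ℕ, ((spd j : ℚ) : ℝ) = 1 - 2 / ((2 * j + 1) * (2 * j + 2)) := by
    intro j
    simp [spd]
  refine ⟨?_, ?_, ?_, ?_⟩
  · exact ContDiff.sum fun j _ => contDiff_const.mul (contDiff_wave _ _)
  · exact ContDiff.sum fun j _ => contDiff_const.mul (contDiff_wave _ _)
  · intro t x hx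
    have e := congrFun (lap_sum (Finset.range (m + 1))
      (fun j : ℕ => - h j / ((2 * j + 1) * (2 * j + 2)))
      (fun j y => (Leg (2 * j + 1)).eval (ph ((spd j : ℝ) * t) y)) (hs t)) x
    have e' : lap (cl m h t) x = ∑ j ∈ Finset.range (m + 1), (- h j / ((2 * j + 1) * (2 * j + 2))) *
        lap (fun y => (Leg (2 * j + 1)).eval (ph ((spd j : ℝ) * t) y)) x := e
    rw [e']
    unfold wl
    refine Finset.sum_congr rfl fun j _ => ?_
    rw [lap_wave _ _ x hx, leg_ode]
    have h1 : (2 * (j : ℝ) + 1) ≠ 0 := by positivity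
    have h2 : (2 * (j : ℝ) + 2) ≠ 0 := by positivity
    push_cast
    field_simp
    ring
  · intro t x hx
    have e1 : D 2 (wl m h t) x = ∑ j ∈ Finset.range (m + 1), h j *
        D 2 (fun y => (Leg (2 * j + 1)).eval (ph ((spd j : ℝ) * t) y)) x :=
      congrFun (D_sum 2 (Finset.range (m + 1)) (fun j : ℕ => h j)
        (fun j y => (Leg (2 * j + 1)).eval (ph ((spd j : ℝ) * t) y)) (hs t)) x
    have e2 : D 2 (cl m h t) x = ∑ j ∈ Finset.range (m + 1), (- h j / ((2 * j + 1) * (2 * j + 2))) *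
        D 2 (fun y => (Leg (2 * j + 1)).eval (ph ((spd j : ℝ) * t) y)) x :=
      congrFun (D_sum 2 (Finset.range (m + 1)) (fun j : ℕ => - h j / ((2 * j + 1) * (2 * j + 2)))
        (fun j y => (Leg (2 * j + 1)).eval (ph ((spd j : ℝ) * t) y)) (hs t)) x
    have e3 : HasDerivAt (fun s => wl m h s x) (∑ j ∈ Finset.range (m + 1), h j *
        (- (spd j : ℝ) * ((Polynomial.derivative (Leg (2 * j + 1))).eval (ph ((spd j : ℝ) * t) x) *
        (x 0 * Real.sin ((spd j : ℝ) * t) - x 1 * Real.cos ((spd j : ℝ) * t))))) t := by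
      unfold wl
      exact HasDerivAt.fun_sum fun j _ => (hasDerivAt_wave _ _ t x).const_mul (h j)
    have e4 : dt (wl m h) t x = _ := e3.deriv
    rw [e4, e1, e2, Finset.mul_sum, ← Finset.sum_add_distrib, ← Finset.sum_neg_distrib]
    refine Finset.sum_congr rfl fun j _ => ?_
    rw [D2_wave, hspd]
    ring

end Pool.Agent.Lib.RotSphere
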