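import Pool.Agent.Lib.MP_dba1af_an.RS.IntTime
import Pool.Agent.Lib.MP_dba1af_an.RS.IntBr
import Pool.Agent.Lib.MP_dba1af_an.RS.Green
import Pool.Agent.Lib.MP_dba1af_an.RS.IntComm

noncomputable section
open MeasureTheory Set
open scoped ContDiff

namespace Pool.Agent.Lib.RotSphere

/-- The equation of the perturbation `φ` of the stream function of the solid body rotation. -/
structure IsPert (φ : ℝ → E → ℝ) : Prop where
  smooth : Sm φ
  eq : ∀ t x, ‖x‖ = 1 → dt (fun s => lap (φ s)) t x =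
    - (D 2 (lap (φ t)) x + 2 * D 2 (φ t) x + br (φ t) (lap (φ t)) x)

/-- The linearized equation for `w = lap χ` on the sphere. -/
structure IsLin (w χ : ℝ → E → ℝ) : Prop where
  smooth : Sm w
  smooth' : Sm χ
  lap_eq : ∀ t x, ‖x‖ = 1 → lap (χ t) x = w t x
  eq : ∀ t x, ‖x‖ = 1 → dt w t x = - (D 2 (w t) x + 2 * D 2 (χ t) x)

end Pool.Agent.Lib.RotSphere
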