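import Pool.Agent.Lib.MP_dba1af_an.RS.QDef

noncomputable section
open MeasureTheory Set
open scoped ContDiff

namespace Pool.Agent.Lib.RotSphere

private theorem qang_key (m : ℕ) (hm : 1 ≤ m) (k k' : ℕ) (hk' : k' < m) (h : k < k') :
    1 / (32 * (m : ℝ)) ≤ (m : ℝ) ^ 8 * (1 / ((2 * (jj m k : ℝ) + 1) * (2 * (jj m k : ℝ) + 2)) -
      1 / ((2 * (jj m k' : ℝ) + 1) * (2 * (jj m k' : ℝ) + 2))) ∧
    (m : ℝ) ^ 8 * (1 / ((2 * (jj m k : ℝ) + 1) * (2 * (jj m k : ℝ) + 2)) -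
      1 / ((2 * (jj m k' : ℝ) + 1) * (2 * (jj m k' : ℝ) + 2))) ≤ 1 / 4 := by
  have hm1 : (1 : ℝ) ≤ m := by exact_mod_cast hm
  have hm0 : (0 : ℝ) < m := by linarith
  have hk1 : (k : ℝ) + 1 ≤ k' := by exact_mod_cast h
  have hk2 : (k' : ℝ) + 1 ≤ m := by exact_mod_cast hk'
  have hk0 : (0 : ℝ) ≤ k := Nat.cast_nonneg k
  obtain ⟨j, hj⟩ : ∃ j : ℝ, j = (jj m k : ℝ) := ⟨_, rfl⟩
  obtain ⟨j', hj'⟩ : ∃ j' : ℝ, j' = (jj m k' : ℝ) := ⟨_, rfl⟩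
  rw [← hj, ← hj']
  have e1 : j = m ^ 4 + k * m ^ 3 := by rw [hj]; unfold jj; push_cast; ring
  have e2 : j' = m ^ 4 + k' * m ^ 3 := by rw [hj']; unfold jj; push_cast; ring
  have hm3 : (1 : ℝ) ≤ (m : ℝ) ^ 3 := one_le_pow₀ hm1
  have hm4 : (0 : ℝ) < (m : ℝ) ^ 4 := by positivity
  have a1 : (m : ℝ) ^ 4 ≤ j := by rw [e1]; nlinarith
  have a2 : (m : ℝ) ^ 4 ≤ j' := by rw [e2]; nlinarith
  have a3 : j' - j ≥ (m : ℝ) ^ 3 := by rw [e1, e2]; nlinarith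
  have a4 : j' ≤ 2 * (m : ℝ) ^ 4 - (m : ℝ) ^ 3 := by
    have h1 : (k' : ℝ) * (m : ℝ) ^ 3 ≤ (m - 1) * (m : ℝ) ^ 3 :=
      mul_le_mul_of_nonneg_right (by linarith) (by linarith)
    rw [e2]
    nlinarith
  have a5 : j ≤ 2 * (m : ℝ) ^ 4 - (m : ℝ) ^ 3 := by linarith
  have bd : ∀ y : ℝ, (m : ℝ) ^ 4 ≤ y → y ≤ 2 * (m : ℝ) ^ 4 - (m : ℝ) ^ 3 →
      4 * (m : ℝ) ^ 8 ≤ (2 * y + 1) * (2 * y + 2) ∧ (2 * y + 1) * (2 * y + 2) ≤ 16 * (m : ℝ) ^ 8 := by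
    intro y h1 h2
    have h3 : (2 * y + 1) ≤ 4 * (m : ℝ) ^ 4 := by linarith
    have h4 : (2 * y + 2) ≤ 4 * (m : ℝ) ^ 4 := by linarith
    have h5 : (m : ℝ) ^ 8 = (m : ℝ) ^ 4 * (m : ℝ) ^ 4 := by ring
    have h6 : (2 * y + 1) * (2 * y + 2) ≤ (4 * (m : ℝ) ^ 4) * (4 * (m : ℝ) ^ 4) :=
      mul_le_mul h3 h4 (by linarith) (by linarith)
    have h7 : (2 * (m : ℝ) ^ 4) * (2 * (m : ℝ) ^ 4) ≤ (2 * y + 1) * (2 * y + 2) :=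
      mul_le_mul (by linarith) (by linarith) (by linarith) (by linarith)
    rw [h5]
    constructor <;> linarith
  obtain ⟨b1, b2⟩ := bd j a1 a5
  obtain ⟨b3, b4⟩ := bd j' a2 a4
  have hm8 : (0 : ℝ) < (m : ℝ) ^ 8 := by positivity
  obtain ⟨L, hL⟩ : ∃ L : ℝ, L = (2 * j + 1) * (2 * j + 2) := ⟨_, rfl⟩
  obtain ⟨L', hL'⟩ : ∃ L' : ℝ, L' = (2 * j' + 1) * (2 * j' + 2) := ⟨_, rfl⟩
  rw [← hL] at b1 b2 ⊢
  rw [← hL'] at b3 b4 ⊢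
  have hL0 : 0 < L := by linarith
  have hL0' : 0 < L' := by linarith
  have c1 : 8 * (m : ℝ) ^ 7 ≤ L' - L := by
    have h1 : L' - L = 4 * ((j' - j) * (j' + j)) + 6 * (j' - j) := by rw [hL, hL']; ring
    have h2 : (m : ℝ) ^ 3 * (2 * (m : ℝ) ^ 4) ≤ (j' - j) * (j' + j) :=
      mul_le_mul a3 (by linarith) (by positivity) (by linarith)
    have h3 : (m : ℝ) ^ 3 * (2 * (m : ℝ) ^ 4) = 2 * (m : ℝ) ^ 7 := by ring
    rw [h1]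
    linarith
  constructor
  · have h1 : (m : ℝ) ^ 8 * (1 / L - 1 / L') = (m : ℝ) ^ 8 * (L' - L) / (L * L') := by
      field_simp
    rw [h1, le_div_iff₀ (mul_pos hL0 hL0')]
    have h2 : L * L' ≤ (16 * (m : ℝ) ^ 8) * (16 * (m : ℝ) ^ 8) :=
      mul_le_mul b2 b4 hL0'.le (by positivity)
    calc 1 / (32 * (m : ℝ)) * (L * L') ≤ 1 / (32 * (m : ℝ)) * ((16 * (m : ℝ) ^ 8) * (16 * (m : ℝ) ^ 8)) :=
          mul_le_mul_of_nonneg_left h2 (by positivity)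
      _ = (m : ℝ) ^ 8 * (8 * (m : ℝ) ^ 7) := by
          field_simp
          ring
      _ ≤ (m : ℝ) ^ 8 * (L' - L) := mul_le_mul_of_nonneg_left c1 hm8.le
  · have h1 : 1 / L - 1 / L' ≤ 1 / L := by
      have : 0 < 1 / L' := by positivity
      linarith
    calc (m : ℝ) ^ 8 * (1 / L - 1 / L') ≤ (m : ℝ) ^ 8 * (1 / L) := mul_le_mul_of_nonneg_left h1 hm8.le
      _ ≤ 1 / 4 := by
          rw [mul_one_div, div_le_iff₀ hL0]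
          linarith

private theorem qang_sin {x y : ℝ} (h0 : 0 ≤ x) (hy : 2 * y ≤ x) (h1 : x ≤ 1 / 4) : y ≤ |Real.sin x| := by
  have hpi := Real.pi_gt_three
  have hpi4 := Real.pi_le_four
  have h2 := Real.mul_le_sin h0 (by linarith)
  have h3 : 1 / 2 * x ≤ 2 / Real.pi * x := by
    refine mul_le_mul_of_nonneg_right ?_ h0
    rw [le_div_iff₀ Real.pi_pos]
    linarith
  have h4 := le_abs_self (Real.sin x)
  linarith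

private theorem qang_spd (j : ℕ) : ((spd j : ℚ) : ℝ) = 1 - 2 * (1 / ((2 * (j : ℝ) + 1) * (2 * (j : ℝ) + 2))) := by
  unfold spd
  push_cast
  ring

/-- Row QAng. The angles at time `0` are separated. For `k < k' < m` and `L_k = (2j+1)(2j+2)`,
`j = jj m k`: the difference of the angles is `m^8 (1/L_k - 1/L_k')`, `4 m^8 ≤ L_k ≤ 16 m^8`,
`L_k' - L_k ≥ 4 (j'-j)(j'+j) ≥ 8 m^7`, so it lies in `[1/(32 m), 1/4]`; `sin t ≥ t / 2` there. -/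
theorem ang_sep (m : ℕ) (hm : 1 ≤ m) (k k' : ℕ) (hk : k < m) (hk' : k' < m) (hne : k ≠ k') :
    1 / (64 * (m : ℝ)) ≤ |Real.sin ((spd (jj m k') : ℝ) * (0 - (m : ℝ) ^ 8 / 2)
      - (spd (jj m k) : ℝ) * (0 - (m : ℝ) ^ 8 / 2))| := by
  have hm1 : (1 : ℝ) ≤ m := by exact_mod_cast hm
  have hm0 : (0 : ℝ) < m := by linarith
  have e1 : (2 : ℝ) * (1 / (64 * (m : ℝ))) = 1 / (32 * (m : ℝ)) := by
    field_simp
    norm_num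
  have e0 : (0 : ℝ) < 1 / (32 * (m : ℝ)) := by positivity
  rw [qang_spd, qang_spd]
  rcases Nat.lt_or_gt_of_ne hne with h | h
  · obtain ⟨h1, h2⟩ := qang_key m hm k k' hk' h
    have e2 : (1 - 2 * (1 / ((2 * (jj m k' : ℝ) + 1) * (2 * (jj m k' : ℝ) + 2)))) * (0 - (m : ℝ) ^ 8 / 2) -
        (1 - 2 * (1 / ((2 * (jj m k : ℝ) + 1) * (2 * (jj m k : ℝ) + 2)))) * (0 - (m : ℝ) ^ 8 / 2) =
        -((m : ℝ) ^ 8 * (1 / ((2 * (jj m k : ℝ) + 1) * (2 * (jj m k : ℝ) + 2)) -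
          1 / ((2 * (jj m k' : ℝ) + 1) * (2 * (jj m k' : ℝ) + 2)))) := by ring
    rw [e2, Real.sin_neg, abs_neg]
    exact qang_sin (by linarith) (by rw [e1]; exact h1) h2
  · obtain ⟨h1, h2⟩ := qang_key m hm k' k hk h
    have e2 : (1 - 2 * (1 / ((2 * (jj m k' : ℝ) + 1) * (2 * (jj m k' : ℝ) + 2)))) * (0 - (m : ℝ) ^ 8 / 2) -
        (1 - 2 * (1 / ((2 * (jj m k : ℝ) + 1) * (2 * (jj m k : ℝ) + 2)))) * (0 - (m : ℝ) ^ 8 / 2) =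
        (m : ℝ) ^ 8 * (1 / ((2 * (jj m k' : ℝ) + 1) * (2 * (jj m k' : ℝ) + 2)) -
          1 / ((2 * (jj m k : ℝ) + 1) * (2 * (jj m k : ℝ) + 2))) := by ring
    rw [e2]
    exact qang_sin (by linarith) (by rw [e1]; exact h1) h2

end Pool.Agent.Lib.RotSphere
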