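import Pool.Agent.Lib.MP_dba1af_an.RS.QDer0

noncomputable section
open MeasureTheory Set
open scoped ContDiff

namespace Pool.Agent.Lib.RotSphere

open Polynomial in
private theorem qb_core (P : ℝ[X]) (l : ℝ) (hl : 1 ≤ l)
    (hode : ∀ s : ℝ, (1 - s ^ 2) * (derivative (derivative P)).eval s - 2 * s * (derivative P).eval s =
      -(l * (l + 1)) * P.eval s)
    (h1 : P.eval 1 = 1) (h0 : P.eval 0 = 0) (hd : ((derivative P).eval 0) ^ 2 ≤ l) (t : ℝ)
    (ht : t ∈ Icc (0 : ℝ) 1) :
    |P.eval t| ≤ 1 ∧ (1 - t ^ 2) * ((derivative P).eval t) ^ 2 ≤ l * (l + 1) ∧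
      (1 - t ^ 2) * (P.eval t) ^ 2 ≤ 1 / (l + 1) := by
  have hL : 0 < l * (l + 1) := by nlinarith
  have hp : ∀ s, HasDerivAt (fun x => P.eval x) ((derivative P).eval s) s := fun s => P.hasDerivAt s
  have hq : ∀ s, HasDerivAt (fun x => (derivative P).eval x) ((derivative (derivative P)).eval s) s :=
    fun s => (derivative P).hasDerivAt s
  set H : ℝ → ℝ := fun x => P.eval x ^ 2 + (1 - x ^ 2) * (derivative P).eval x ^ 2 / (l * (l + 1)) with hH
  have hw : ∀ s : ℝ, HasDerivAt (fun x : ℝ => 1 - x ^ 2) (-(2 * s)) s := by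
    intro s
    have := (hasDerivAt_pow 2 s).const_sub 1
    simpa using this
  have hHd : ∀ s, HasDerivAt H (2 * s * (derivative P).eval s ^ 2 / (l * (l + 1))) s := by
    intro s
    have h2 := ((hp s).pow 2).add ((((hw s).mul ((hq s).pow 2))).div_const (l * (l + 1)))
    refine h2.congr_deriv ?_
    have h3 := hode s
    field_simp
    push_cast
    simp only [Pi.pow_apply, pow_one]
    linear_combination (2 * (derivative P).eval s) * h3
  have hGd : ∀ s, HasDerivAt (fun x => (1 - x ^ 2) * H x) (-(2 * s) * P.eval s ^ 2) s := by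
    intro s
    have h2 := (hw s).mul (hHd s)
    refine h2.congr_deriv ?_
    simp only [hH]
    field_simp
    ring
  have hHmono : MonotoneOn H (Icc (0 : ℝ) 1) := by
    refine monotoneOn_of_deriv_nonneg (convex_Icc 0 1) (fun s _ => (hHd s).continuousAt.continuousWithinAt)
      (fun s _ => (hHd s).differentiableAt.differentiableWithinAt) fun s hs => ?_
    rw [interior_Icc] at hs
    rw [(hHd s).deriv]
    have := hs.1
    positivity
  have hGanti : AntitoneOn (fun x => (1 - x ^ 2) * H x) (Icc (0 : ℝ) 1) := by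
    refine antitoneOn_of_deriv_nonpos (convex_Icc 0 1) (fun s _ => (hGd s).continuousAt.continuousWithinAt)
      (fun s _ => (hGd s).differentiableAt.differentiableWithinAt) fun s hs => ?_
    rw [interior_Icc] at hs
    rw [(hGd s).deriv]
    have := mul_nonneg hs.1.le (sq_nonneg (P.eval s))
    linarith
  have hH1 : H 1 = 1 := by
    simp only [hH, h1]
    norm_num
  have hH0 : H 0 ≤ 1 / (l + 1) := by
    have h3 : (derivative P).eval 0 ^ 2 / (l * (l + 1)) ≤ 1 / (l + 1) := by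
      rw [div_le_div_iff₀ hL (by linarith)]
      nlinarith [mul_le_mul_of_nonneg_right hd (show (0 : ℝ) ≤ l + 1 by linarith)]
    simp only [hH, h0]
    norm_num at h3 ⊢
    exact h3
  have hHt : H t ≤ 1 := by
    rw [← hH1]
    exact hHmono ht (right_mem_Icc.2 zero_le_one) ht.2
  have hGt : (1 - t ^ 2) * H t ≤ 1 / (l + 1) := by
    have := hGanti (left_mem_Icc.2 zero_le_one) ht ht.1
    simp only at this
    norm_num at this
    linarith
  have ht2 : 0 ≤ 1 - t ^ 2 := by nlinarith [ht.1, ht.2]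
  have hnn : 0 ≤ (1 - t ^ 2) * (derivative P).eval t ^ 2 / (l * (l + 1)) := by positivity
  have hHe : H t = P.eval t ^ 2 + (1 - t ^ 2) * (derivative P).eval t ^ 2 / (l * (l + 1)) := rfl
  refine ⟨?_, ?_, ?_⟩
  · apply abs_le_one_iff_mul_self_le_one.2
    nlinarith
  · have h3 : (1 - t ^ 2) * (derivative P).eval t ^ 2 / (l * (l + 1)) ≤ 1 := by
      nlinarith [sq_nonneg (P.eval t)]
    rwa [div_le_one hL] at h3
  · have h3 : (1 - t ^ 2) * P.eval t ^ 2 ≤ (1 - t ^ 2) * H t := by
      apply mul_le_mul_of_nonneg_left _ ht2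
      linarith
    linarith

/-- Row QBd (over the stubs QDer0, LegOde, LegVal). `P = Leg (2j+1)`, `L = (2j+1)(2j+2)`,
`H = P^2 + (1-s^2) P'^2 / L`. On `[0,1]`: `H' = 2 s P'^2 / L ≥ 0` (by `leg_ode`) and `H(1) = 1`
(`leg_one`), so `H ≤ 1`; `((1-s^2) H)' = - 2 s P^2 ≤ 0`, so
`(1-s^2) H ≤ H(0) = P'(0)^2 / L ≤ 1/(2j+2)` (`P` is odd, `leg_neg`, so `P(0) = 0`).
For `s < 0` use that `P` is odd. -/
theorem leg_bounds (j : ℕ) (s : ℝ) (hs : |s| ≤ 1) :
    |(Leg (2 * j + 1)).eval s| ≤ 1 ∧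
    (1 - s ^ 2) * ((Polynomial.derivative (Leg (2 * j + 1))).eval s) ^ 2
      ≤ (2 * (j : ℝ) + 1) * (2 * j + 2) ∧
    (1 - s ^ 2) * ((Leg (2 * j + 1)).eval s) ^ 2 ≤ 1 / (2 * (j : ℝ) + 2) := by
  set P := Leg (2 * j + 1) with hP
  have hodd : ∀ x : ℝ, P.eval (-x) = -P.eval x := by
    intro x
    have h := leg_neg (2 * j + 1) x
    rw [hP]
    unfold Leg
    rw [h, pow_succ, pow_mul]
    simp
  have hev : ∀ x : ℝ, (Polynomial.derivative P).eval (-x) = (Polynomial.derivative P).eval x := by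
    intro x
    have h1 : HasDerivAt (fun y : ℝ => P.eval (-y)) ((Polynomial.derivative P).eval (-x) * (-1)) x :=
      (P.hasDerivAt (-x)).comp x (hasDerivAt_neg x)
    have h2 : HasDerivAt (fun y : ℝ => -P.eval y) (-(Polynomial.derivative P).eval x) x := (P.hasDerivAt x).neg
    have h3 : (fun y : ℝ => P.eval (-y)) = fun y => -P.eval y := funext hodd
    rw [h3] at h1
    have h4 := h1.unique h2
    linarith
  have h0 : P.eval 0 = 0 := by
    have h := hodd 0
    rw [neg_zero] at h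
    linarith
  have hj : (0 : ℝ) ≤ j := Nat.cast_nonneg j
  have key := qb_core P (2 * (j : ℝ) + 1) (by linarith)
    (by
      intro x
      have h := leg_ode (2 * j + 1) x
      rw [← hP] at h
      rw [h]
      push_cast
      ring)
    (leg_one (2 * j + 1)) h0 (leg_deriv_zero j)
  have e1 : (2 * (j : ℝ) + 1) * (2 * (j : ℝ) + 1 + 1) = (2 * (j : ℝ) + 1) * (2 * j + 2) := by ring
  have e2 : 1 / (2 * (j : ℝ) + 1 + 1) = 1 / (2 * (j : ℝ) + 2) := by ring_nf
  rw [e1, e2] at key
  rw [abs_le] at hs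
  rcases le_total 0 s with h | h
  · exact key s ⟨h, hs.2⟩
  · have h2 := key (-s) ⟨by linarith, by linarith [hs.1]⟩
    rw [hodd s, hev s, abs_neg, neg_sq, neg_sq] at h2
    exact h2

end Pool.Agent.Lib.RotSphere
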