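import Pool.Agent.Lib.MP_dba1af_an.RS.Diff
import Pool.Agent.Lib.MP_dba1af_an.RS.Ener

noncomputable section
open MeasureTheory Set
open scoped ContDiff

namespace Pool.Agent.Lib.RotSphere

/-- Row QBound (over the stubs). `- 2 δ R b ≤ ε R^2 + δ^2 b^2 / ε` pointwise, `b^2 ≤ A^2 ∑ (D i φ)^2`,
integrate and use `energy`. -/
theorem diff_bound_quant {φ w χ : ℝ → E → ℝ} (h : IsPert φ) (hl : IsLin w χ) (A δ ε t : ℝ)
    (hε : 0 < ε) (hgrad : ∀ x : E, ‖x‖ = 1 →
      (br (φ t) (w t) x) ^ 2 ≤ A ^ 2 * ∑ i, D i (φ t) x ^ 2) :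
    - 2 * δ * ∫ x : S2, (lap (φ t) x - δ * w t x) * br (φ t) (w t) x ∂area ≤
      ε * (∫ x : S2, (lap (φ t) x - δ * w t x) ^ 2 ∂area) +
      δ ^ 2 * A ^ 2 / ε * ∫ x : S2, ∑ i, D i (φ 0) x ^ 2 ∂area := by
  have hφt : ContDiff ℝ ∞ (φ t) := sm_slice h.smooth t
  have hwt : ContDiff ℝ ∞ (w t) := sm_slice hl.smooth t
  have hR : Continuous (fun x : E => lap (φ t) x - δ * w t x) :=
    (contDiff_lap hφt).continuous.sub (continuous_const.mul hwt.continuous)
  have hB : Continuous (fun x : E => br (φ t) (w t) x) := (contDiff_br hφt hwt).continuous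
  have hD : Continuous (fun x : E => ∑ i, D i (φ t) x ^ 2) := by
    apply continuous_finsetSum
    intro i _
    exact (contDiff_D hφt i).continuous.pow 2
  have hpt : ∀ x : S2, - 2 * δ * ((lap (φ t) x - δ * w t x) * br (φ t) (w t) x) ≤
      ε * (lap (φ t) x - δ * w t x) ^ 2 + δ ^ 2 * A ^ 2 / ε * ∑ i, D i (φ t) (x : E) ^ 2 := by
    intro x
    have hb := hgrad x (norm_eq_of_mem_sphere x)
    generalize lap (φ t) (x : E) - δ * w t (x : E) = R at *
    generalize br (φ t) (w t) (x : E) = B at *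
    generalize ∑ i, D i (φ t) (x : E) ^ 2 = G at *
    have h1 : 0 ≤ (ε * R + δ * B) ^ 2 / ε := by positivity
    have h2 : (ε * R + δ * B) ^ 2 / ε = ε * R ^ 2 + 2 * δ * (R * B) + δ ^ 2 / ε * B ^ 2 := by
      field_simp
      ring
    have h3 : δ ^ 2 / ε * B ^ 2 ≤ δ ^ 2 / ε * (A ^ 2 * G) :=
      mul_le_mul_of_nonneg_left hb (by positivity)
    have h4 : δ ^ 2 * A ^ 2 / ε * G = δ ^ 2 / ε * (A ^ 2 * G) := by ring
    rw [h4]
    linarith
  have hi1 : Integrable (fun x : S2 => - 2 * δ * ((lap (φ t) x - δ * w t x) *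
      br (φ t) (w t) x)) area :=
    integrable_area (f := fun x => - 2 * δ * ((lap (φ t) x - δ * w t x) * br (φ t) (w t) x))
      (continuous_const.mul (hR.mul hB))
  have hi2 : Integrable (fun x : S2 => ε * (lap (φ t) x - δ * w t x) ^ 2) area :=
    integrable_area (f := fun x => ε * (lap (φ t) x - δ * w t x) ^ 2)
      (continuous_const.mul (hR.pow 2))
  have hi3 : Integrable (fun x : S2 => δ ^ 2 * A ^ 2 / ε * ∑ i, D i (φ t) (x : E) ^ 2) area :=
    integrable_area (f := fun x => δ ^ 2 * A ^ 2 / ε * ∑ i, D i (φ t) x ^ 2)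
      (continuous_const.mul hD)
  rw [← energy h t, ← integral_const_mul, ← integral_const_mul, ← integral_const_mul,
    ← integral_add hi2 hi3]
  exact integral_mono hi1 (hi2.add hi3) hpt

end Pool.Agent.Lib.RotSphere
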