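import Pool.Agent.Lib.MP_dba1af_an.RS.LinEq

noncomputable section
open MeasureTheory Set
open scoped ContDiff

namespace Pool.Agent.Lib.RotSphere

/-- The index of the `k`-th degree `2 jj m k + 1`. -/
def jj (m k : ℕ) : ℕ := m ^ 4 + k * m ^ 3

/-- The focusing solution of the linearized equation; the focusing time is `m^8 / 2`. -/
def wq (m : ℕ) (t : ℝ) (x : E) : ℝ :=
  ∑ k ∈ Finset.range m, (Leg (2 * jj m k + 1)).eval
    (ph ((spd (jj m k) : ℝ) * (t - (m : ℝ) ^ 8 / 2)) x)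

/-- Its stream function. -/
def cq (m : ℕ) (t : ℝ) (x : E) : ℝ :=
  ∑ k ∈ Finset.range m, (-1 / ((2 * (jj m k : ℝ) + 1) * (2 * (jj m k : ℝ) + 2))) *
    (Leg (2 * jj m k + 1)).eval (ph ((spd (jj m k) : ℝ) * (t - (m : ℝ) ^ 8 / 2)) x)

/-- The focusing point. -/
def e0 : E := WithLp.toLp 2 ![1, 0, 0]

end Pool.Agent.Lib.RotSphere
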