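import Pool.Agent.Lib.MP_dba1af_an.RS.LegOde
import Pool.Agent.Lib.MP_dba1af_an.RS.LegVal

noncomputable section
open MeasureTheory Set
open scoped ContDiff

namespace Pool.Agent.Lib.RotSphere

open Polynomial in
private theorem qd_coeff (n k : ℕ) : ((k : ℝ) + 2) * ((k : ℝ) + 1) * (Leg n).coeff (k + 2) =
    ((k : ℝ) * (k + 1) - n * (n + 1)) * (Leg n).coeff k := by
  have h : derivative (derivative (Leg n)) - X * (X * derivative (derivative (Leg n))) -
      C 2 * (X * derivative (Leg n)) = C (-((n : ℝ) * (n + 1))) * Leg n := by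
    apply Polynomial.funext
    intro s
    have h1 := leg_ode n s
    simp only [eval_sub, eval_mul, eval_X, eval_C]
    linear_combination h1
  have hk := congrArg (fun q : ℝ[X] => q.coeff k) h
  simp only [coeff_sub, coeff_C_mul] at hk
  rcases k with _ | k
  · simp only [coeff_X_mul_zero, coeff_derivative] at hk
    push_cast at hk ⊢
    linear_combination hk
  · rcases k with _ | k
    · simp only [coeff_X_mul, coeff_X_mul_zero, coeff_derivative] at hk
      push_cast at hk ⊢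
      linear_combination hk
    · simp only [coeff_X_mul, coeff_derivative] at hk
      push_cast at hk ⊢
      linear_combination hk

private def qdB (j i : ℕ) : ℝ :=
  ((2 * j + 2 * i + 2).factorial : ℝ) /
    (((j - i).factorial : ℝ) * ((j + i + 1).factorial : ℝ) * ((2 * i + 1).factorial : ℝ))

private theorem qdB_pos (j i : ℕ) : 0 < qdB j i := by
  unfold qdB
  positivity

private theorem qdB_succ (j i : ℕ) (h : i < j) :
    (2 * (i : ℝ) + 3) * (i + 1) * qdB j (i + 1) =
      ((j : ℝ) - i) * (2 * j + 2 * i + 3) * qdB j i := by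
  obtain ⟨m, rfl⟩ : ∃ m, j = i + m + 1 := ⟨j - i - 1, by omega⟩
  unfold qdB
  rw [show i + m + 1 - (i + 1) = m by omega, show i + m + 1 - i = m + 1 by omega,
    show 2 * (i + m + 1) + 2 * (i + 1) + 2 = (2 * (i + m + 1) + 2 * i + 2) + 1 + 1 by omega,
    show i + m + 1 + (i + 1) + 1 = (i + m + 1 + i + 1) + 1 by omega,
    show 2 * (i + 1) + 1 = (2 * i + 1) + 1 + 1 by omega,
    Nat.factorial_succ (2 * (i + m + 1) + 2 * i + 2 + 1),
    Nat.factorial_succ (2 * (i + m + 1) + 2 * i + 2),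
    Nat.factorial_succ (i + m + 1 + i + 1), Nat.factorial_succ (2 * i + 1 + 1),
    Nat.factorial_succ (2 * i + 1), Nat.factorial_succ m]
  have h1 : ((2 * (i + m + 1) + 2 * i + 2).factorial : ℝ) ≠ 0 := by positivity
  have h2 : ((i + m + 1 + i + 1).factorial : ℝ) ≠ 0 := by positivity
  have h3 : ((2 * i + 1).factorial : ℝ) ≠ 0 := by positivity
  have h4 : ((m).factorial : ℝ) ≠ 0 := by positivity
  push_cast
  generalize ((2 * (i + m + 1) + 2 * i + 2).factorial : ℝ) = f1 at *
  generalize ((i + m + 1 + i + 1).factorial : ℝ) = f2 at *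
  generalize ((2 * i + 1).factorial : ℝ) = f3 at *
  generalize ((m).factorial : ℝ) = f4 at *
  have h5 : (i : ℝ) + m + 1 + i + 1 + 1 ≠ 0 := by positivity
  have h6 : 2 * (i : ℝ) + 1 + 1 + 1 ≠ 0 := by positivity
  have h7 : 2 * (i : ℝ) + 1 + 1 ≠ 0 := by positivity
  have h8 : (m : ℝ) + 1 ≠ 0 := by positivity
  field_simp
  ring

private theorem qd_prod (j : ℕ) : ∀ i : ℕ, i ≤ j →
    (Leg (2 * j + 1)).coeff (2 * i + 1) * qdB j 0 =
      (-1) ^ i * (Leg (2 * j + 1)).coeff 1 * qdB j i := by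
  intro i
  induction i with
  | zero => intro _; ring
  | succ i ih =>
    intro h
    have h1 := ih (by omega)
    have h2 := qd_coeff (2 * j + 1) (2 * i + 1)
    have h3 := qdB_succ j i (by omega)
    have hx : (2 * (i : ℝ) + 3) * (i + 1) ≠ 0 := by positivity
    rw [show 2 * (i + 1) + 1 = 2 * i + 1 + 2 by omega]
    have h4 : (2 * (i : ℝ) + 3) * (i + 1) * (Leg (2 * j + 1)).coeff (2 * i + 1 + 2) =
        -(((j : ℝ) - i) * (2 * j + 2 * i + 3)) * (Leg (2 * j + 1)).coeff (2 * i + 1) := by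
      push_cast at h2
      linear_combination (1 / 2) * h2
    apply mul_left_cancel₀ hx
    rw [pow_succ]
    linear_combination qdB j 0 * h4 - (((j : ℝ) - i) * (2 * j + 2 * i + 3)) * h1 +
      (-1) ^ i * (Leg (2 * j + 1)).coeff 1 * h3

private theorem qd_binom (j : ℕ) : (2 * j + 1) * (j.centralBinom) ^ 2 ≤ 16 ^ j := by
  induction j with
  | zero => simp
  | succ j ih =>
    have h := Nat.succ_mul_centralBinom_succ j
    have h1 : 0 < (j + 1) ^ 2 := by positivity
    refine Nat.le_of_mul_le_mul_left ?_ h1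
    calc (j + 1) ^ 2 * ((2 * (j + 1) + 1) * (j + 1).centralBinom ^ 2)
        = (2 * j + 3) * ((j + 1) * (j + 1).centralBinom) ^ 2 := by ring
      _ = (2 * j + 3) * (2 * (2 * j + 1) * j.centralBinom) ^ 2 := by rw [h]
      _ = 4 * ((2 * j + 3) * (2 * j + 1)) * ((2 * j + 1) * j.centralBinom ^ 2) := by ring
      _ ≤ 4 * (4 * (j + 1) ^ 2) * 16 ^ j := by
          apply Nat.mul_le_mul _ ih
          nlinarith
      _ = (j + 1) ^ 2 * 16 ^ (j + 1) := by ring

/-- Row QDer0. `P'(0)^2 ≤ l` for `l = 2 j + 1`, `P = Leg l`. From `leg_ode` the coefficients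
satisfy `(k+2)(k+1) c (k+2) = (k (k+1) - l (l+1)) c k = - (l-k)(l+k+1) c k`; starting with the
leading coefficient `C(2l,l)/2^l` one gets downwards
`c (l - 2r) = (-1)^r C(l,r) C(2l-2r,l) / 2^l`, so `|c 1| = (2j+2) C(2j+1,j) / 2^(2j+1)
= (2j+1) C(2j,j) / 4^j`, and `(2j+1) C(2j,j)^2 ≤ 16^j`.
(Equivalently: the product `|c 1| = |c l| ∏ ...`; any route to the inequality is fine.) -/
theorem leg_deriv_zero (j : ℕ) :
    ((Polynomial.derivative (Leg (2 * j + 1))).eval 0) ^ 2 ≤ 2 * (j : ℝ) + 1 := by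
  have h0 : (Polynomial.derivative (Leg (2 * j + 1))).eval 0 = (Leg (2 * j + 1)).coeff 1 := by
    rw [← Polynomial.coeff_zero_eq_eval_zero, Polynomial.coeff_derivative]
    simp
  have hl : (Leg (2 * j + 1)).coeff (2 * j + 1) =
      ((2 * (2 * j + 1)).choose (2 * j + 1) : ℝ) / 2 ^ (2 * j + 1) := by
    have h1 : (Leg (2 * j + 1)).leadingCoeff =
        ((2 * (2 * j + 1)).choose (2 * j + 1) : ℝ) / 2 ^ (2 * j + 1) :=
      leg_leadingCoeff (2 * j + 1)
    have h2 : (Leg (2 * j + 1)).natDegree = 2 * j + 1 := leg_natDegree (2 * j + 1)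
    rw [Polynomial.leadingCoeff, h2] at h1
    exact h1
  have hB : qdB j j = ((2 * (2 * j + 1)).choose (2 * j + 1) : ℝ) := by
    unfold qdB
    rw [Nat.choose_eq_factorial_div_factorial (by omega), Nat.sub_self,
      Nat.cast_div (Nat.factorial_mul_factorial_dvd_factorial (by omega)) (by positivity)]
    rw [show 2 * j + 2 * j + 2 = 2 * (2 * j + 1) by omega, show j + j + 1 = 2 * j + 1 by omega,
      show 2 * (2 * j + 1) - (2 * j + 1) = 2 * j + 1 by omega]
    simp
  have hB0 : qdB j 0 = 2 * (2 * j + 1) * (j.centralBinom : ℝ) := by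
    unfold qdB
    rw [Nat.centralBinom, Nat.choose_eq_factorial_div_factorial (by omega),
      Nat.cast_div (Nat.factorial_mul_factorial_dvd_factorial (by omega)) (by positivity)]
    rw [show 2 * j + 2 * 0 + 2 = 2 * j + 1 + 1 by omega, show j + 0 + 1 = j + 1 by omega,
      show 2 * j - j = j by omega, show j - 0 = j by omega, Nat.factorial_succ (2 * j + 1),
      Nat.factorial_succ (2 * j), Nat.factorial_succ j]
    have h1 : ((j).factorial : ℝ) ≠ 0 := by positivity
    have h2 : (j : ℝ) + 1 ≠ 0 := by positivity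
    push_cast
    simp only [mul_zero, zero_add, Nat.factorial_one, Nat.cast_one, mul_one]
    field_simp
    ring
  have h := qd_prod j j le_rfl
  have hC : ((2 * (2 * j + 1)).choose (2 * j + 1) : ℝ) ≠ 0 := by
    rw [← hB]
    exact (qdB_pos j j).ne'
  rw [hl, hB, hB0] at h
  have h3 : (-1) ^ j * (Leg (2 * j + 1)).coeff 1 =
      2 * (2 * j + 1) * (j.centralBinom : ℝ) / 2 ^ (2 * j + 1) := by
    apply mul_right_cancel₀ hC
    rw [← h]
    ring
  have h4 : ((Leg (2 * j + 1)).coeff 1) ^ 2 =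
      (2 * (2 * j + 1) * (j.centralBinom : ℝ) / 2 ^ (2 * j + 1)) ^ 2 := by
    rw [← h3, mul_pow, ← pow_mul, mul_comm j 2, pow_mul]
    norm_num
  rw [h0, h4, div_pow, div_le_iff₀ (by positivity)]
  have h5 : ((2 * (j : ℝ) + 1) * (j.centralBinom : ℝ) ^ 2) ≤ 16 ^ j := by
    exact_mod_cast qd_binom j
  have h6 : ((2 : ℝ) ^ (2 * j + 1)) ^ 2 = 4 * 16 ^ j := by
    rw [← pow_mul, show (2 * j + 1) * 2 = 2 + 4 * j by ring, pow_add, pow_mul]
    norm_num
  rw [h6]
  have h7 : 0 ≤ 2 * (j : ℝ) + 1 := by positivity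
  nlinarith [mul_le_mul_of_nonneg_left h5 h7]

end Pool.Agent.Lib.RotSphere
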