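import Pool.Agent.Lib.MP_dba1af_an.RS.QDef
import Pool.Agent.Lib.MP_dba1af_an.RS.QBd

noncomputable section
open MeasureTheory Set
open scoped ContDiff

namespace Pool.Agent.Lib.RotSphere

private def phL (θ : ℝ) : E →L[ℝ] ℝ :=
  Real.cos θ • EuclideanSpace.proj (0 : Fin 3) + Real.sin θ • EuclideanSpace.proj (1 : Fin 3)

private theorem phL_apply (θ : ℝ) (x : E) : phL θ x = ph θ x := by
  show Real.cos θ * x 0 + Real.sin θ * x 1 = x 0 * Real.cos θ + x 1 * Real.sin θ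
  ring

open Polynomial in
private theorem hasFDerivAt_term (P : ℝ[X]) (c θ : ℝ) (x : E) :
    HasFDerivAt (fun y : E => c * P.eval (ph θ y)) (c • ((derivative P).eval (ph θ x) • phL θ)) x := by
  have h1 : HasFDerivAt (fun y : E => ph θ y) (phL θ) x := by
    have h := (phL θ).hasFDerivAt (x := x)
    have e : (fun y : E => ph θ y) = fun y => phL θ y := by
      funext y
      rw [phL_apply]
    rw [e]
    exact h
  have h2 : HasFDerivAt (fun y : E => P.eval (ph θ y)) ((derivative P).eval (ph θ x) • phL θ) x :=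
    (P.hasDerivAt (ph θ x)).comp_hasFDerivAt x h1
  exact h2.const_mul c

private theorem sum_ph_J (θ : ℝ) (x : E) (hx : ‖x‖ = 1) :
    ∑ i, ph θ (J i x) ^ 2 = 1 - ph θ x ^ 2 := by
  have h : x 0 ^ 2 + x 1 ^ 2 + x 2 ^ 2 = 1 := by
    have h1 := EuclideanSpace.norm_sq_eq x
    rw [hx, Fin.sum_univ_three] at h1
    simp only [Real.norm_eq_abs, sq_abs] at h1
    linarith
  have h2 := Real.sin_sq_add_cos_sq θ
  rw [Fin.sum_univ_three]
  have e0 : ph θ (J 0 x) = - x 2 * Real.sin θ := by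
    simp only [ph, J_apply]
    simp
  have e1 : ph θ (J 1 x) = x 2 * Real.cos θ := by
    simp only [ph, J_apply]
    simp
  have e2 : ph θ (J 2 x) = - x 1 * Real.cos θ + x 0 * Real.sin θ := by
    simp only [ph, J_apply]
    simp
  rw [e0, e1, e2, ph]
  linear_combination (x 2 ^ 2 + x 0 ^ 2 + x 1 ^ 2) * h2 + h

/-- Row QEn (over the stub QBd). `D i (P ∘ ph θ) x = P'(s) (J i x) · e(θ)`,
`∑ ((J i x) · e(θ))^2 = |x × e(θ)|^2 = 1 - s^2`, so with `L = (2j+1)(2j+2) ≥ 4 m^8` every summand of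
`cq` has gradient of length `≤ sqrt L / L ≤ 1 / (2 m^4)`; `m` summands (Cauchy-Schwarz or the
triangle inequality). -/
theorem energy_cq (m : ℕ) (hm : 1 ≤ m) (t : ℝ) (x : E) (hx : ‖x‖ = 1) :
    ∑ i, D i (cq m t) x ^ 2 ≤ 1 / (4 * (m : ℝ) ^ 6) := by
  set L : ℕ → ℝ := fun k => (2 * (jj m k : ℝ) + 1) * (2 * (jj m k : ℝ) + 2) with hL
  set θ : ℕ → ℝ := fun k => (spd (jj m k) : ℝ) * (t - (m : ℝ) ^ 8 / 2) with hθ
  set s : ℕ → ℝ := fun k => ph (θ k) x with hs
  set Q : ℕ → ℝ := fun k => (Polynomial.derivative (Leg (2 * jj m k + 1))).eval (s k) with hQ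
  have hD : ∀ i, D i (cq m t) x = ∑ k ∈ Finset.range m, (-1 / L k) * (Q k * ph (θ k) (J i x)) := by
    intro i
    have h1 : HasFDerivAt (cq m t) (∑ k ∈ Finset.range m, (-1 / L k) • (Q k • phL (θ k))) x := by
      have := HasFDerivAt.fun_sum (u := Finset.range m) (x := x)
        (A := fun k (y : E) => (-1 / L k) * (Leg (2 * jj m k + 1)).eval (ph (θ k) y))
        (A' := fun k => (-1 / L k) • (Q k • phL (θ k)))
        (fun k _ => hasFDerivAt_term (Leg (2 * jj m k + 1)) (-1 / L k) (θ k) x)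
      exact this
    unfold D
    rw [h1.fderiv, sum_apply]
    refine Finset.sum_congr rfl fun k _ => ?_
    rw [smul_apply, smul_apply, phL_apply, smul_eq_mul, smul_eq_mul]
  have hm0 : (1 : ℝ) ≤ m := by exact_mod_cast hm
  have hj : ∀ k, (m : ℝ) ^ 4 ≤ (jj m k : ℝ) := by
    intro k
    have : m ^ 4 ≤ jj m k := Nat.le_add_right _ _
    exact_mod_cast this
  have hLpos : ∀ k, 4 * (m : ℝ) ^ 8 ≤ L k := by
    intro k
    have h1 := hj k
    have h2 : (0 : ℝ) ≤ (m : ℝ) ^ 4 := by positivity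
    have h3 : (m : ℝ) ^ 8 = (m : ℝ) ^ 4 * (m : ℝ) ^ 4 := by ring
    rw [hL, h3]
    show 4 * ((m : ℝ) ^ 4 * (m : ℝ) ^ 4) ≤ (2 * (jj m k : ℝ) + 1) * (2 * (jj m k : ℝ) + 2)
    nlinarith [mul_le_mul h1 h1 h2 (h2.trans h1)]
  have hm8 : (0 : ℝ) < 4 * (m : ℝ) ^ 8 := by positivity
  have hterm : ∀ k, ∑ i, ((-1 / L k) * (Q k * ph (θ k) (J i x))) ^ 2 ≤ 1 / (4 * (m : ℝ) ^ 8) := by
    intro k
    have hLk : 0 < L k := hm8.trans_le (hLpos k)
    have h1 : ∑ i, ((-1 / L k) * (Q k * ph (θ k) (J i x))) ^ 2 =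
        (1 / L k) ^ 2 * ((1 - s k ^ 2) * Q k ^ 2) := by
      rw [← sum_ph_J (θ k) x hx, Finset.sum_mul, Finset.mul_sum]
      refine Finset.sum_congr rfl fun i _ => ?_
      ring
    have h2 : (1 - s k ^ 2) * Q k ^ 2 ≤ L k :=
      (leg_bounds (jj m k) (s k) (abs_ph_le (θ k) x hx)).2.1
    rw [h1]
    calc (1 / L k) ^ 2 * ((1 - s k ^ 2) * Q k ^ 2) ≤ (1 / L k) ^ 2 * L k :=
          mul_le_mul_of_nonneg_left h2 (by positivity)
      _ = 1 / L k := by field_simp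
      _ ≤ 1 / (4 * (m : ℝ) ^ 8) := one_div_le_one_div_of_le hm8 (hLpos k)
  calc ∑ i, D i (cq m t) x ^ 2
      ≤ ∑ i : Fin 3, (m : ℝ) * ∑ k ∈ Finset.range m, ((-1 / L k) * (Q k * ph (θ k) (J i x))) ^ 2 := by
        refine Finset.sum_le_sum fun i _ => ?_
        rw [hD i]
        have := sq_sum_le_card_mul_sum_sq (s := Finset.range m)
          (f := fun k => (-1 / L k) * (Q k * ph (θ k) (J i x)))
        rw [Finset.card_range] at this
        exact this
    _ = (m : ℝ) * ∑ k ∈ Finset.range m, ∑ i, ((-1 / L k) * (Q k * ph (θ k) (J i x))) ^ 2 := by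
        rw [← Finset.mul_sum, Finset.sum_comm]
    _ ≤ (m : ℝ) * ∑ k ∈ Finset.range m, 1 / (4 * (m : ℝ) ^ 8) := by
        refine mul_le_mul_of_nonneg_left (Finset.sum_le_sum fun k _ => hterm k) (by positivity)
    _ = 1 / (4 * (m : ℝ) ^ 6) := by
        rw [Finset.sum_const, Finset.card_range, nsmul_eq_mul]
        field_simp

end Pool.Agent.Lib.RotSphere
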