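import Pool.Agent.Lib.MP_dba1af_an.RS.QMain

noncomputable section
open MeasureTheory Set
open scoped ContDiff

namespace Pool.Agent.Lib.RotSphere

/-- The solid body rotation is a steady solution with vorticity `2 x_2`. -/
theorem rotation_steady : IsEuler (fun _ x => -1 * X2 x) ∧
    ∀ x, lap (fun x => -1 * X2 x) x = 2 * x 2 := by
  have hl : lap (fun y => -1 * X2 y) = fun y => 2 * X2 y := by
    rw [lap_smul contDiff_X2, lap_X2]
    funext y; ring
  refine ⟨⟨?_, ?_⟩, fun x => by rw [hl]; rfl⟩
  · exact contDiff_const.mul (contDiff_X2.comp contDiff_snd)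
  · intro t x _
    have h0 : br (fun y => -1 * X2 y) (lap (fun y => -1 * X2 y)) x = 0 := by
      rw [hl, br_smul_right contDiff_X2, br_X2_right]
      have h2 : D 2 (fun y => -1 * X2 y) x = 0 := by
        rw [D_smul contDiff_X2]
        have h3 : D 2 X2 x = 0 := by
          have h4 : br X2 X2 x = - D 2 X2 x := by rw [br_X2_left]
          rw [br_self] at h4
          linarith
        simp only [h3, mul_zero]
      simp only [h2, mul_zero]
    rw [h0, neg_zero]
    exact hasDerivAt_const t _

end Pool.Agent.Lib.RotSphere
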