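import Pool.Agent.Lib.MP_dba1af_an.RS.Base

noncomputable section
open MeasureTheory Set
open scoped ContDiff

namespace Pool.Agent.Lib.RotSphere

private theorem bound_eq (r : ℝ) (h0 : 0 < r) (h1 : r ≤ 1) :
    ((Measure.toSphereBallBound 3 r : NNReal) : ℝ) = 3 / 64 * r ^ 3 := by
  have h2 : min (Real.toNNReal r) 2 = Real.toNNReal r := by
    apply min_eq_left
    rw [Real.toNNReal_le_iff_le_coe]
    push_cast
    linarith
  rw [Measure.toSphereBallBound, if_pos ⟨by norm_num, h0⟩, h2]
  push_cast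
  rw [Real.coe_toNNReal r h0.le]
  ring

/-- Row QLarge. Quantitative form of row Large, with the lower bound of Mathlib for the measure of a
ball on the sphere, `Measure.toSphereBallBound_mul_measureReal_unitBall_le_toSphere_ball`
(`toSphereBallBound 3 r = 3 (r/4)^3` for `0 < r ≤ 2`): on the ball of radius `r` about `x₀` one has
`|f - δ w| ≥ B δ`. -/
theorem large_quant : ∃ κ : ℝ, 0 < κ ∧ ∀ (w : E → ℝ), Continuous w → ∀ (B r : ℝ), 0 < B → 0 < r →
    r ≤ 1 → ∀ x₀ : S2, (∀ x : S2, ‖(x : E) - x₀‖ ≤ r → 2 * B ≤ |w x|) →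
    ∀ f : E → ℝ, Continuous f → ∀ δ : ℝ, 0 < δ → (∀ x : S2, |f x| < B * δ) →
      κ * r ^ 3 * B ^ 2 * δ ^ 2 ≤ ∫ x : S2, (f x - δ * w x) ^ 2 ∂area := by
  refine ⟨3 / 64 * (volume : Measure E).real (Metric.ball 0 1), ?_, ?_⟩
  · have h : 0 < (volume : Measure E).real (Metric.ball 0 1) :=
      ENNReal.toReal_pos (Metric.measure_ball_pos _ _ one_pos).ne' measure_ball_lt_top.ne
    positivity
  intro w hw B r hB hr hr1 x₀ hx₀ f hf δ hδ hfB
  have hcont : Continuous fun x : S2 => (f x - δ * w x) ^ 2 := by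
    have h1 : Continuous fun x : S2 => f x := hf.comp continuous_subtype_val
    have h2 : Continuous fun x : S2 => w x := hw.comp continuous_subtype_val
    exact (h1.sub (continuous_const.mul h2)).pow 2
  have hint : Integrable (fun x : S2 => (f x - δ * w x) ^ 2) area :=
    hcont.integrable_of_hasCompactSupport (HasCompactSupport.of_compactSpace _)
  have hlow : ∀ x ∈ Metric.ball x₀ r, (B * δ) ^ 2 ≤ (f x - δ * w x) ^ 2 := by
    intro x hx
    have h1 : ‖(x : E) - x₀‖ ≤ r := by
      rw [← dist_eq_norm, ← Subtype.dist_eq]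
      exact (Metric.mem_ball.1 hx).le
    have h2 := hx₀ x h1
    have h3 := hfB x
    have h4 : B * δ ≤ |f x - δ * w x| := by
      have h5 : |δ * w x| ≤ |f x - δ * w x| + |f x| := by
        have := abs_sub_abs_le_abs_sub (δ * w x) (f x)
        rw [abs_sub_comm] at this
        linarith
      rw [abs_mul, abs_of_pos hδ] at h5
      have h6 : δ * (2 * B) ≤ δ * |w x| := mul_le_mul_of_nonneg_left h2 hδ.le
      linarith
    rw [← sq_abs (f x - δ * w x)]
    exact pow_le_pow_left₀ (by positivity) h4 2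
  have h1 := setIntegral_ge_of_const_le_real (μ := area) Metric.isOpen_ball.measurableSet (measure_ne_top _ _) hlow hint.integrableOn
  have h2 : ∫ x in Metric.ball x₀ r, (f x - δ * w x) ^ 2 ∂area ≤ ∫ x : S2, (f x - δ * w x) ^ 2 ∂area :=
    setIntegral_le_integral hint (Filter.Eventually.of_forall fun x => sq_nonneg _)
  have h3 := Measure.toSphereBallBound_mul_measureReal_unitBall_le_toSphere_ball (volume : Measure E) hr x₀
  rw [finrank_euclideanSpace_fin, bound_eq r hr hr1] at h3
  have h4 : (B * δ) ^ 2 * (3 / 64 * r ^ 3 * (volume : Measure E).real (Metric.ball 0 1)) ≤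
      (B * δ) ^ 2 * area.real (Metric.ball x₀ r) := mul_le_mul_of_nonneg_left h3 (sq_nonneg _)
  calc 3 / 64 * (volume : Measure E).real (Metric.ball 0 1) * r ^ 3 * B ^ 2 * δ ^ 2
      = (B * δ) ^ 2 * (3 / 64 * r ^ 3 * (volume : Measure E).real (Metric.ball 0 1)) := by ring
    _ ≤ _ := h4.trans (h1.trans h2)

end Pool.Agent.Lib.RotSphere
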