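import Pool.Agent.Lib.MP_dba1af_an.RS.Wave

noncomputable section
open MeasureTheory Set
open scoped ContDiff

namespace Pool.Agent.Lib.RotSphere

/-- Row QSep. With `r = x · e'(θ)`: `1 - ph θ x ^ 2 = r^2 + x_2^2` and
`ph θ x sin Δ = r cos Δ - r'`, `Δ = θ' - θ`. If the maximum is `≥ 1/16` the claim is trivial, else
`(ph θ x)^2 ≥ 15/16` and `(ph θ x)^2 sin^2 Δ ≤ 2 (r^2 + r'^2) ≤ 4 max`. -/
theorem sep (θ θ' : ℝ) (x : E) (hx : ‖x‖ = 1) :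
    Real.sin (θ' - θ) ^ 2 ≤ 16 * max (1 - ph θ x ^ 2) (1 - ph θ' x ^ 2) := by
  have hn : x 0 ^ 2 + x 1 ^ 2 + x 2 ^ 2 = 1 := by
    have h1 := EuclideanSpace.norm_sq_eq x
    rw [hx, Fin.sum_univ_three] at h1
    simp only [Real.norm_eq_abs, sq_abs] at h1
    linarith
  have hcs := Real.sin_sq_add_cos_sq θ
  have hcs' := Real.sin_sq_add_cos_sq θ'
  have hcsd := Real.sin_sq_add_cos_sq (θ' - θ)
  obtain ⟨r, hr⟩ : ∃ r : ℝ, r = -x 0 * Real.sin θ + x 1 * Real.cos θ := ⟨_, rfl⟩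
  obtain ⟨r', hr'⟩ : ∃ r' : ℝ, r' = -x 0 * Real.sin θ' + x 1 * Real.cos θ' := ⟨_, rfl⟩
  have h1 : ph θ x ^ 2 + r ^ 2 + x 2 ^ 2 = 1 := by
    rw [← hn, hr]
    unfold ph
    linear_combination (x 0 ^ 2 + x 1 ^ 2) * hcs
  have h1' : ph θ' x ^ 2 + r' ^ 2 + x 2 ^ 2 = 1 := by
    rw [← hn, hr']
    unfold ph
    linear_combination (x 0 ^ 2 + x 1 ^ 2) * hcs'
  have h2 : ph θ x * Real.sin (θ' - θ) = r * Real.cos (θ' - θ) - r' := by
    rw [hr, hr', Real.sin_sub, Real.cos_sub]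
    unfold ph
    linear_combination (x 0 * Real.sin θ' - x 1 * Real.cos θ') * hcs
  obtain ⟨M, hM⟩ : ∃ M : ℝ, M = max (1 - ph θ x ^ 2) (1 - ph θ' x ^ 2) := ⟨_, rfl⟩
  rw [← hM]
  have hM1 : 1 - ph θ x ^ 2 ≤ M := by rw [hM]; exact le_max_left _ _
  have hM2 : 1 - ph θ' x ^ 2 ≤ M := by rw [hM]; exact le_max_right _ _
  have h3 : r ^ 2 ≤ M := by nlinarith [sq_nonneg (x 2)]
  have h3' : r' ^ 2 ≤ M := by nlinarith [sq_nonneg (x 2)]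
  have hM0 : 0 ≤ M := (sq_nonneg r).trans h3
  by_cases hc : 1 / 16 ≤ M
  · nlinarith [sq_nonneg (Real.cos (θ' - θ))]
  · push Not at hc
    have h4 : 15 / 16 ≤ ph θ x ^ 2 := by linarith
    have h5 : ph θ x ^ 2 * Real.sin (θ' - θ) ^ 2 ≤ 4 * M := by
      have h6 : ph θ x ^ 2 * Real.sin (θ' - θ) ^ 2 = (r * Real.cos (θ' - θ) - r') ^ 2 := by
        rw [← h2]; ring
      have h7 : (r * Real.cos (θ' - θ)) ^ 2 ≤ r ^ 2 := by
        have h8 : Real.cos (θ' - θ) ^ 2 ≤ 1 := by nlinarith [sq_nonneg (Real.sin (θ' - θ))]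
        rw [mul_pow]
        nlinarith [sq_nonneg r]
      rw [h6]
      nlinarith [sq_nonneg (r * Real.cos (θ' - θ) + r')]
    have h6 : 15 / 16 * Real.sin (θ' - θ) ^ 2 ≤ 4 * M :=
      (mul_le_mul_of_nonneg_right h4 (sq_nonneg _)).trans h5
    linarith

end Pool.Agent.Lib.RotSphere
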