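import Pool.Agent.Lib.MP_dba1af_an.RS.QAng
import Pool.Agent.Lib.MP_dba1af_an.RS.QSep
import Pool.Agent.Lib.MP_dba1af_an.RS.QBd

noncomputable section
open MeasureTheory Set
open scoped ContDiff

namespace Pool.Agent.Lib.RotSphere

/-- Row QSup (over the stubs QAng, QSep, QBd). For two different `k, k'` one of `1 - s_k^2`,
`1 - s_k'^2` is `≥ 1 / (65536 m^2)` (`ang_sep`, `sep`), so for all `k` but at most one
`P(s_k)^2 ≤ 65536 m^2 / (2 j + 2) ≤ 32768 / m^2 ≤ (182 / m)^2`; the exceptional one is `≤ 1`.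
Choose `k₀` minimizing `1 - s_k^2` (`Finset.exists_min_image`). -/
theorem sup0 (m : ℕ) (hm : 1 ≤ m) (x : E) (hx : ‖x‖ = 1) : |wq m 0 x| ≤ 183 := by
  have hm0 : (0 : ℝ) < m := by exact_mod_cast hm
  obtain ⟨θ, hθ⟩ : ∃ θ : ℕ → ℝ, ∀ k, θ k = (spd (jj m k) : ℝ) * (0 - (m : ℝ) ^ 8 / 2) :=
    ⟨_, fun _ => rfl⟩
  obtain ⟨s, hs⟩ : ∃ s : ℕ → ℝ, ∀ k, s k = ph (θ k) x := ⟨_, fun _ => rfl⟩
  obtain ⟨P, hP⟩ : ∃ P : ℕ → ℝ, ∀ k, P k = (Leg (2 * jj m k + 1)).eval (s k) :=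
    ⟨_, fun _ => rfl⟩
  have hw : wq m 0 x = ∑ k ∈ Finset.range m, P k := by
    unfold wq
    refine Finset.sum_congr rfl fun k _ => ?_
    rw [hP, hs, hθ]
  have hs1 : ∀ k, |s k| ≤ 1 := fun k => by
    rw [hs]
    exact abs_ph_le _ x hx
  obtain ⟨k₀, hk₀, hmin⟩ := Finset.exists_min_image (Finset.range m) (fun k => 1 - s k ^ 2)
    (Finset.nonempty_range_iff.2 (by omega))
  have hother : ∀ k ∈ (Finset.range m).erase k₀, |P k| ≤ 182 / m := by
    intro k hk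
    rw [Finset.mem_erase] at hk
    have h1 := ang_sep m hm k k₀ (Finset.mem_range.1 hk.2) (Finset.mem_range.1 hk₀) hk.1
    rw [← hθ, ← hθ] at h1
    have h2 := sep (θ k) (θ k₀) x hx
    have h3 : 1 - s k₀ ^ 2 ≤ 1 - s k ^ 2 := hmin k hk.2
    rw [← hs, ← hs, max_eq_left h3] at h2
    have h5 : (1 / (64 * (m : ℝ))) ^ 2 ≤ Real.sin (θ k₀ - θ k) ^ 2 := by
      rw [← sq_abs (Real.sin _)]
      exact pow_le_pow_left₀ (by positivity) h1 2
    have h6 : 1 / (65536 * (m : ℝ) ^ 2) ≤ 1 - s k ^ 2 := by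
      have h7 : (1 / (64 * (m : ℝ))) ^ 2 = 16 * (1 / (65536 * (m : ℝ) ^ 2)) := by
        field_simp
        norm_num
      linarith
    have h7 := (leg_bounds (jj m k) (s k) (hs1 k)).2.2
    rw [← hP] at h7
    have h9 : (m : ℝ) ^ 4 ≤ (jj m k : ℝ) := by
      unfold jj
      push_cast
      exact le_add_of_nonneg_right (by positivity)
    have a1 : 1 / (65536 * (m : ℝ) ^ 2) * P k ^ 2 ≤ 1 / (2 * (m : ℝ) ^ 4) := by
      refine (mul_le_mul_of_nonneg_right h6 (sq_nonneg _)).trans (h7.trans ?_)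
      exact one_div_le_one_div_of_le (by positivity) (by linarith)
    have a2 : P k ^ 2 ≤ 32768 / (m : ℝ) ^ 2 := by
      have a3 : P k ^ 2 = (65536 * (m : ℝ) ^ 2) * (1 / (65536 * (m : ℝ) ^ 2) * P k ^ 2) := by
        field_simp
      have a4 : (65536 * (m : ℝ) ^ 2) * (1 / (2 * (m : ℝ) ^ 4)) = 32768 / (m : ℝ) ^ 2 := by
        field_simp
        norm_num
      rw [a3, ← a4]
      exact mul_le_mul_of_nonneg_left a1 (by positivity)
    have h10 : P k ^ 2 ≤ (182 / (m : ℝ)) ^ 2 := by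
      refine a2.trans ?_
      rw [div_pow]
      exact div_le_div_of_nonneg_right (by norm_num) (by positivity)
    exact abs_le_of_sq_le_sq h10 (by positivity)
  rw [hw]
  refine (Finset.abs_sum_le_sum_abs _ _).trans ?_
  rw [← Finset.add_sum_erase _ _ hk₀]
  have hb : |P k₀| ≤ 1 := by
    rw [hP]
    exact (leg_bounds _ _ (hs1 k₀)).1
  have hsum : ∑ k ∈ (Finset.range m).erase k₀, |P k| ≤ 182 := by
    refine (Finset.sum_le_card_nsmul _ _ _ hother).trans ?_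
    rw [Finset.card_erase_of_mem hk₀, Finset.card_range, nsmul_eq_mul]
    have h1 : ((m - 1 : ℕ) : ℝ) ≤ m := by exact_mod_cast Nat.sub_le m 1
    have h2 : (m : ℝ) * (182 / m) = 182 := by
      field_simp
    exact (mul_le_mul_of_nonneg_right h1 (by positivity)).trans h2.le
  linarith

end Pool.Agent.Lib.RotSphere
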