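import Pool.Agent.Lib.MP_dba1af_an.RS.Pert
import Pool.Agent.Lib.MP_dba1af_an.RS.Coord

noncomputable section
open MeasureTheory Set
open scoped ContDiff

namespace Pool.Agent.Lib.RotSphere

private theorem red_D2 (x : E) : D 2 X2 x = 0 := by
  have h1 := congrFun (br_X2_left X2) x
  rw [br_self X2] at h1
  have h2 : (0 : ℝ) = - D 2 X2 x := h1
  linarith

private theorem red_lap {ψ : ℝ → E → ℝ} (h : IsEuler ψ) (t : ℝ) :
    lap (fun y => ψ t y + X2 y) = fun y => lap (ψ t) y + (-2) * X2 y := by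
  have hs : ContDiff ℝ ∞ (ψ t) := sm_slice h.smooth t
  rw [lap_add hs contDiff_X2, lap_X2]

/-- Row Reduce (over the stub files). The perturbation `φ = ψ + x_2` of a solution `ψ`. -/
theorem isPert_of_isEuler {ψ : ℝ → E → ℝ} (h : IsEuler ψ) :
    IsPert (fun t x => ψ t x + X2 x) := by
  have hX := contDiff_X2
  constructor
  · have h1 : Sm (fun (_ : ℝ) (x : E) => X2 x) := hX.comp (contDiff_snd (𝕜 := ℝ) (E := ℝ) (F := E))
    exact sm_add h.smooth h1
  · intro t x hx
    have hs : ContDiff ℝ ∞ (ψ t) := sm_slice h.smooth t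
    have hL : ContDiff ℝ ∞ (lap (ψ t)) := contDiff_lap hs
    have hc : ContDiff ℝ ∞ (fun y : E => (-2 : ℝ) * X2 y) := contDiff_const.mul hX
    have e1 : dt (fun s => lap (fun y => ψ s y + X2 y)) t x = - br (ψ t) (lap (ψ t)) x := by
      have h1 : (fun s => lap (fun y => ψ s y + X2 y) x) = fun s => lap (ψ s) x + (-2) * X2 x := by
        funext s
        rw [red_lap h s]
      show deriv (fun s => lap (fun y => ψ s y + X2 y) x) t = _
      rw [h1]
      exact ((h.eq t x hx).add_const _).deriv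
    have e2 : D 2 (lap (fun y => ψ t y + X2 y)) x = D 2 (lap (ψ t)) x := by
      rw [red_lap h t, D_add hL hc 2, D_smul hX (-2) 2]
      show D 2 (lap (ψ t)) x + (-2) * D 2 X2 x = _
      rw [red_D2 x]
      ring
    have e3 : D 2 (fun y => ψ t y + X2 y) x = D 2 (ψ t) x := by
      rw [D_add hs hX 2]
      show D 2 (ψ t) x + D 2 X2 x = _
      rw [red_D2 x]
      ring
    have e4 : br (fun y => ψ t y + X2 y) (lap (fun y => ψ t y + X2 y)) x =
        br (ψ t) (lap (ψ t)) x - 2 * D 2 (ψ t) x - D 2 (lap (ψ t)) x := by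
      rw [red_lap h t, br_add_right hL hc, br_smul_right hX (-2), br_add_left hs hX, br_add_left hs hX,
        br_X2_left, br_X2_right, br_X2_right]
      show br (ψ t) (lap (ψ t)) x + - D 2 (lap (ψ t)) x + (-2) * (D 2 (ψ t) x + D 2 X2 x) = _
      rw [red_D2 x]
      ring
    show dt (fun s => lap (fun y => ψ s y + X2 y)) t x =
      - (D 2 (lap (fun y => ψ t y + X2 y)) x + 2 * D 2 (fun y => ψ t y + X2 y) x +
        br (fun y => ψ t y + X2 y) (lap (fun y => ψ t y + X2 y)) x)
    rw [e1, e2, e3, e4]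
    ring

theorem lap_pert {ψ : ℝ → E → ℝ} (h : IsEuler ψ) (t : ℝ) (x : E) :
    lap (fun y => ψ t y + X2 y) x = lap (ψ t) x - 2 * x 2 := by
  rw [red_lap h t]
  show lap (ψ t) x + (-2) * x 2 = _
  ring

end Pool.Agent.Lib.RotSphere
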