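import Pool.Agent.Lib.MP_dba1af_an.RS.QFin

noncomputable section
open MeasureTheory Set
open scoped ContDiff

namespace Pool.Agent.Lib.RotSphere

theorem br_smul_left {f g : E → ℝ} (hf : ContDiff ℝ ∞ f) (c : ℝ) :
    br (fun y => c * f y) g = fun y => c * br f g y := by
  funext x
  have h : vel (fun y => c * f y) x = c • vel f x := by
    ext i
    simp only [vel, PiLp.smul_apply, smul_eq_mul]
    rw [D_smul hf]
  simp only [br, h, map_smul, smul_eq_mul]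

/-- Scaling of the solutions. -/
theorem isEuler_scale {ψ : ℝ → E → ℝ} (h : IsEuler ψ) (b : ℝ) :
    IsEuler (fun t x => b * ψ (b * t) x) := by
  have hs : ∀ t, ContDiff ℝ ∞ (ψ t) := fun t => sm_slice h.smooth t
  refine ⟨?_, ?_⟩
  · have h1 : ContDiff ℝ ∞ (fun p : ℝ × E => ((b * p.1, p.2) : ℝ × E)) := by fun_prop
    exact contDiff_const.mul (h.smooth.comp h1)
  · intro t x hx
    have e1 : ∀ s, lap (fun y => b * ψ (b * s) y) = fun y => b * lap (ψ (b * s)) y :=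
      fun s => lap_smul (hs _) b
    have h2 : HasDerivAt (fun s : ℝ => b * s) b t := by
      simpa using (hasDerivAt_id t).const_mul b
    have h3 := ((h.eq (b * t) x hx).comp t h2).const_mul b
    rw [e1 t, br_smul_left (hs _), br_smul_right (contDiff_lap (hs _))]
    have e2 : (fun s => lap (fun y => b * ψ (b * s) y) x) =
        fun s => b * lap (ψ (b * s)) x := by
      funext s; rw [e1 s]
    rw [e2]
    refine h3.congr_deriv ?_
    ring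

theorem lap_scale {ψ : ℝ → E → ℝ} (h : IsEuler ψ) (b t : ℝ) (x : E) :
    lap (fun y => b * ψ (b * t) y) x = b * lap (ψ (b * t)) x := by
  rw [lap_smul (sm_slice h.smooth _)]

/-- Conservation of the `L²` distance to `a x_2`. -/
theorem dist_conserved_scale {ψ : ℝ → E → ℝ} (h : IsEuler ψ) {a : ℝ} (ha : 0 < a) (t : ℝ) :
    ∫ x : S2, (lap (ψ t) x - a * (x : E) 2) ^ 2 ∂area =
      ∫ x : S2, (lap (ψ 0) x - a * (x : E) 2) ^ 2 ∂area := by
  have hb : 2 / a ≠ 0 := by positivity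
  have key : ∀ s : ℝ, ∫ x : S2, (lap (fun y => 2 / a * ψ (2 / a * s) y) x - 2 * (x : E) 2) ^ 2 ∂area
      = (2 / a) ^ 2 * ∫ x : S2, (lap (ψ (2 / a * s)) x - a * (x : E) 2) ^ 2 ∂area := by
    intro s
    rw [← integral_const_mul]
    congr 1
    funext x
    rw [lap_scale h]
    field_simp
  have h1 := dist_conserved (isEuler_scale h (2 / a)) (t / (2 / a))
  simp only [key] at h1
  have h2 := mul_left_cancel₀ (by positivity : (2 / a) ^ 2 ≠ 0) h1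
  have e1 : 2 / a * (t / (2 / a)) = t := by field_simp
  rwa [e1, mul_zero] at h2

/-- The solid body rotations. -/
theorem rotation_steady_scale {a : ℝ} : IsEuler (fun _ x => -(a / 2) * X2 x) ∧
    ∀ x, lap (fun x => -(a / 2) * X2 x) x = a * x 2 := by
  have h := isEuler_scale rotation_steady.1 (a / 2)
  have e : (fun (_ : ℝ) (x : E) => a / 2 * (-1 * X2 x)) = fun _ x => -(a / 2) * X2 x := by
    funext t x; ring
  rw [e] at h
  refine ⟨h, fun x => ?_⟩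
  rw [lap_smul contDiff_X2, lap_X2]
  change -(a / 2) * (-2 * x 2) = a * x 2
  ring

theorem power_growth_scale {a : ℝ} (ha : 0 < a) : ∃ c : ℝ, 0 < c ∧ ∀ m : ℕ, 1 ≤ m →
    ∃ g : E → ℝ, ContDiff ℝ ∞ g ∧ (∀ x, ‖x‖ = 1 → |lap g x| ≤ 1) ∧
      ∀ δ : ℝ, 0 < δ → δ ≤ c / (m : ℝ) ^ 15 → ∀ ψ : ℝ → E → ℝ, IsEuler ψ →
        (∀ x : E, ‖x‖ = 1 → lap (ψ 0) x = a * x 2 + δ * lap g x) →
        ∃ x : E, ‖x‖ = 1 ∧ c * m * δ ≤ |lap (ψ ((m : ℝ) ^ 8 / a)) x - a * x 2| := by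
  obtain ⟨c, hc, hmain⟩ := power_growth
  refine ⟨min c (c * (a / 2)), by positivity, ?_⟩
  intro m hm
  have hm0 : (0 : ℝ) < m := by exact_mod_cast hm
  obtain ⟨f, hf, hf1, hg⟩ := hmain m hm
  refine ⟨f, hf, hf1, ?_⟩
  intro δ hδ hδc ψ hψ hini
  have hδ' : 2 / a * δ ≤ c / (m : ℝ) ^ 15 := by
    have h1 : δ ≤ c * (a / 2) / (m : ℝ) ^ 15 := by
      refine hδc.trans ?_
      gcongr
      exact min_le_right _ _
    calc 2 / a * δ ≤ 2 / a * (c * (a / 2) / (m : ℝ) ^ 15) := by gcongr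
      _ = c / (m : ℝ) ^ 15 := by field_simp
  obtain ⟨x, hx, hbig⟩ := hg (2 / a * δ) (by positivity) hδ' _ (isEuler_scale hψ (2 / a)) (by
    intro x hx
    rw [lap_scale hψ, mul_zero, hini x hx]
    field_simp)
  refine ⟨x, hx, ?_⟩
  rw [lap_scale hψ] at hbig
  have e1 : 2 / a * ((m : ℝ) ^ 8 / 2) = (m : ℝ) ^ 8 / a := by field_simp
  rw [e1] at hbig
  have e2 : 2 / a * lap (ψ ((m : ℝ) ^ 8 / a)) x - 2 * x 2 =
      2 / a * (lap (ψ ((m : ℝ) ^ 8 / a)) x - a * x 2) := by field_simp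
  rw [e2, abs_mul, abs_of_pos (by positivity : 0 < 2 / a)] at hbig
  have h3 : c * m * δ ≤ |lap (ψ ((m : ℝ) ^ 8 / a)) x - a * x 2| := by
    have h4 : 2 / a * (c * m * δ) ≤ 2 / a * |lap (ψ ((m : ℝ) ^ 8 / a)) x - a * x 2| := by
      refine le_trans (le_of_eq (by ring)) hbig
    exact le_of_mul_le_mul_left h4 (by positivity)
  refine le_trans ?_ h3
  have : min c (c * (a / 2)) ≤ c := min_le_left _ _
  gcongr

/-- Power growth in terms of the size `δ` of the perturbation. -/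
theorem power_growth_scale' {a : ℝ} (ha : 0 < a) : ∃ c C : ℝ, 0 < c ∧ 0 < C ∧
    ∀ δ : ℝ, 0 < δ → δ ≤ c →
    ∃ g : E → ℝ, ContDiff ℝ ∞ g ∧ (∀ x, ‖x‖ = 1 → |lap g x| ≤ 1) ∧
      ∃ T : ℝ, 0 < T ∧ T ≤ C * δ ^ (-(8 / 15) : ℝ) ∧ ∀ ψ : ℝ → E → ℝ, IsEuler ψ →
        (∀ x : E, ‖x‖ = 1 → lap (ψ 0) x = a * x 2 + δ * lap g x) →
        ∃ x : E, ‖x‖ = 1 ∧ c * δ ^ (14 / 15 : ℝ) ≤ |lap (ψ T) x - a * x 2| := by
  obtain ⟨c0, hc0, hmain⟩ := power_growth_scale ha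
  refine ⟨min c0 (c0 / 2 * c0 ^ (1 / 15 : ℝ)), c0 ^ (8 / 15 : ℝ) / a, by positivity,
    by positivity, ?_⟩
  intro δ hδ hδc
  have hδ0 : δ ≤ c0 := hδc.trans (min_le_left _ _)
  set y : ℝ := (c0 / δ) ^ (1 / 15 : ℝ) with hy
  have hq : 1 ≤ c0 / δ := by rw [le_div_iff₀ hδ]; linarith
  have hy1 : 1 ≤ y := Real.one_le_rpow hq (by norm_num)
  have hy0 : 0 < y := by linarith
  have hy15 : y ^ 15 = c0 / δ := by
    rw [hy, ← Real.rpow_natCast, ← Real.rpow_mul (by positivity)]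
    norm_num
  obtain ⟨m, hm1, hmy, hm2⟩ : ∃ m : ℕ, 1 ≤ m ∧ (m : ℝ) ≤ y ∧ y / 2 ≤ m := by
    refine ⟨⌊y⌋₊, ?_, Nat.floor_le hy0.le, ?_⟩
    · exact (Nat.one_le_floor_iff y).mpr hy1
    · have h1 := Nat.lt_floor_add_one y
      have h2 : (1 : ℝ) ≤ ⌊y⌋₊ := by exact_mod_cast (Nat.one_le_floor_iff y).mpr hy1
      linarith
  have hm0 : (0 : ℝ) < m := by exact_mod_cast hm1
  obtain ⟨f, hf, hf1, hgrow⟩ := hmain m hm1
  refine ⟨f, hf, hf1, (m : ℝ) ^ 8 / a, by positivity, ?_, ?_⟩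
  · have h1 : (m : ℝ) ^ 8 ≤ y ^ 8 := pow_le_pow_left₀ hm0.le hmy 8
    have h2 : y ^ 8 = c0 ^ (8 / 15 : ℝ) * δ ^ (-(8 / 15) : ℝ) := by
      rw [hy, ← Real.rpow_natCast, ← Real.rpow_mul (by positivity), Real.div_rpow hc0.le hδ.le,
        Real.rpow_neg hδ.le, div_eq_mul_inv]
      norm_num
    rw [h2] at h1
    calc (m : ℝ) ^ 8 / a ≤ c0 ^ (8 / 15 : ℝ) * δ ^ (-(8 / 15) : ℝ) / a := by gcongr
      _ = c0 ^ (8 / 15 : ℝ) / a * δ ^ (-(8 / 15) : ℝ) := by ring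
  · intro ψ hψ hini
    have hδm : δ ≤ c0 / (m : ℝ) ^ 15 := by
      rw [le_div_iff₀ (by positivity)]
      have h1 : (m : ℝ) ^ 15 ≤ c0 / δ := by
        rw [← hy15]; exact pow_le_pow_left₀ hm0.le hmy 15
      have h2 := (le_div_iff₀ hδ).mp h1
      linarith
    obtain ⟨x, hx, hbig⟩ := hgrow δ hδ hδm ψ hψ hini
    refine ⟨x, hx, le_trans ?_ hbig⟩
    have h1 : min c0 (c0 / 2 * c0 ^ (1 / 15 : ℝ)) * δ ^ (14 / 15 : ℝ) ≤
        c0 / 2 * c0 ^ (1 / 15 : ℝ) * δ ^ (14 / 15 : ℝ) := by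
      apply mul_le_mul_of_nonneg_right (min_le_right _ _) (by positivity)
    refine h1.trans ?_
    have h2 : c0 / 2 * c0 ^ (1 / 15 : ℝ) * δ ^ (14 / 15 : ℝ) = c0 * (y / 2) * δ := by
      have h3 : δ ^ (14 / 15 : ℝ) * δ ^ (1 / 15 : ℝ) = δ := by
        rw [← Real.rpow_add hδ]; norm_num
      have h4 : y = c0 ^ (1 / 15 : ℝ) / δ ^ (1 / 15 : ℝ) := by
        rw [hy, Real.div_rpow hc0.le hδ.le]
      have h5 : 0 < δ ^ (1 / 15 : ℝ) := by positivity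
      rw [h4]
      have h6 : c0 * (c0 ^ (1 / 15 : ℝ) / δ ^ (1 / 15 : ℝ) / 2) * δ =
          c0 / 2 * c0 ^ (1 / 15 : ℝ) * (δ / δ ^ (1 / 15 : ℝ)) := by ring
      rw [h6]
      congr 1
      rw [eq_div_iff h5.ne']
      exact h3
    rw [h2]
    have : y / 2 ≤ (m : ℝ) := hm2
    gcongr

end Pool.Agent.Lib.RotSphere
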