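import Pool.Agent.Lib.MP_dba1af_an.RS.QScale

noncomputable section
open MeasureTheory Set
open scoped ContDiff

namespace Pool.Agent.Lib.RotSphere

/-- The rotation field `x ↦ e_i × x` about the `i`-th coordinate axis. -/
def rotField (i : Fin 3) (x : E) : E := WithLp.toLp 2 (fun k =>
  if k = i + 1 then - x (i + 2) else if k = i + 2 then x (i + 1) else 0)

/-- The derivative of `f` along the rotation field about the `i`-th axis. -/
def dRot (i : Fin 3) (f : E → ℝ) (x : E) : ℝ := fderiv ℝ f x (rotField i x)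

/-- The Laplace-Beltrami operator of the unit sphere: the sum of the squares of the derivatives
along the three rotation fields. -/
def lapS (f : E → ℝ) (x : E) : ℝ := ∑ i, dRot i (dRot i f) x

/-- The velocity field `x × ∇ f` with stream function `f`. -/
def velS (f : E → ℝ) (x : E) : E := WithLp.toLp 2 (fun i => dRot i f x)

/-- Smooth solutions `ψ` (stream functions) of the 2D Euler equation on the unit sphere: the
vorticity `lapS (ψ t)` is transported by the velocity `velS (ψ t)`. -/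
structure EulerS (ψ : ℝ → E → ℝ) : Prop where
  smooth : ContDiff ℝ ∞ (fun p : ℝ × E => ψ p.1 p.2)
  eq : ∀ t x, ‖x‖ = 1 →
    HasDerivAt (fun s => lapS (ψ s) x) (- fderiv ℝ (lapS (ψ t)) x (velS (ψ t) x)) t

/-- The square of the `L²` distance on the sphere of the vorticity at time `t` to `a x_2`. -/
def distSq (a : ℝ) (ψ : ℝ → E → ℝ) (t : ℝ) : ℝ :=
  ∫ x : S2, (lapS (ψ t) x - a * (x : E) 2) ^ 2 ∂area

/-- `g` is smooth and the perturbation `lapS g` of the vorticity is at most `1` on the sphere. -/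
def IsProfile (g : E → ℝ) : Prop := ContDiff ℝ ∞ g ∧ ∀ x, ‖x‖ = 1 → |lapS g x| ≤ 1

/-- Every smooth solution with the initial vorticity `a x_2 + δ lapS g` has at the time `T` a
vorticity which differs by at least `η` from `a x_2` at some point of the sphere. -/
def Grows (a : ℝ) (g : E → ℝ) (δ T η : ℝ) : Prop :=
  ∀ ψ : ℝ → E → ℝ, EulerS ψ → (∀ x : E, ‖x‖ = 1 → lapS (ψ 0) x = a * x 2 + δ * lapS g x) →
    ∃ x : E, ‖x‖ = 1 ∧ η ≤ |lapS (ψ T) x - a * x 2|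

theorem rotField_eq (i : Fin 3) (x : E) : rotField i x = J i x := rfl

theorem dRot_eq (i : Fin 3) (f : E → ℝ) : dRot i f = D i f := rfl

theorem lapS_eq (f : E → ℝ) : lapS f = lap f := rfl

theorem velS_eq (f : E → ℝ) (x : E) : velS f x = vel f x := rfl

theorem eulerS_iff (ψ : ℝ → E → ℝ) : EulerS ψ ↔ IsEuler ψ :=
  ⟨fun h => ⟨h.smooth, h.eq⟩, fun h => ⟨h.smooth, h.eq⟩⟩

theorem rotation_steadyS (a : ℝ) : EulerS (fun _ x => -(a / 2) * x 2) ∧
    ∀ x : E, lapS (fun y => -(a / 2) * y 2) x = a * x 2 :=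
  ⟨(eulerS_iff _).2 rotation_steady_scale.1, rotation_steady_scale.2⟩

theorem distSq_const {a : ℝ} (ha : 0 < a) {ψ : ℝ → E → ℝ} (h : EulerS ψ) (t : ℝ) :
    distSq a ψ t = distSq a ψ 0 := dist_conserved_scale ((eulerS_iff ψ).1 h) ha t

theorem grows_fixed {a : ℝ} (ha : 0 < a) : ∃ c : ℝ, 0 < c ∧ ∀ m : ℕ, 1 ≤ m →
    ∃ g : E → ℝ, IsProfile g ∧ ∀ δ : ℝ, 0 < δ → δ ≤ c / (m : ℝ) ^ 15 →
      Grows a g δ ((m : ℝ) ^ 8 / a) (c * m * δ) := by
  obtain ⟨c, hc, h⟩ := power_growth_scale ha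
  refine ⟨c, hc, fun m hm => ?_⟩
  obtain ⟨g, hf, hf1, hg⟩ := h m hm
  exact ⟨g, ⟨hf, hf1⟩, fun δ hδ hδc ψ hψ hini => hg δ hδ hδc ψ ((eulerS_iff ψ).1 hψ) hini⟩

theorem grows_power {a : ℝ} (ha : 0 < a) : ∃ c C : ℝ, 0 < c ∧ 0 < C ∧
    ∀ δ : ℝ, 0 < δ → δ ≤ c → ∃ g : E → ℝ, IsProfile g ∧ ∃ T : ℝ, 0 < T ∧
      T ≤ C * δ ^ (-(8 / 15) : ℝ) ∧ Grows a g δ T (c * δ ^ (14 / 15 : ℝ)) := by
  obtain ⟨c, C, hc, hC, h⟩ := power_growth_scale' ha
  refine ⟨c, C, hc, hC, fun δ hδ hδc => ?_⟩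
  obtain ⟨g, hf, hf1, T, hT, hTC, hg⟩ := h δ hδ hδc
  exact ⟨g, ⟨hf, hf1⟩, T, hT, hTC, fun ψ hψ hini => hg ψ ((eulerS_iff ψ).1 hψ) hini⟩

end Pool.Agent.Lib.RotSphere
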