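import Pool.Agent.Lib.MP_dba1af_an.RS.Base

noncomputable section
open MeasureTheory Set
open scoped ContDiff
open scoped Pointwise

namespace Pool.Agent.Lib.RotSphere

private theorem cap_mem (x₀ : S2) {r : ℝ} (hr : 0 < r) (hr1 : r ≤ 1) {t : ℝ} (ht : 1 / 2 ≤ t) (ht' : t ≤ 3 / 4)
    {z : E} (hz : z ∈ Metric.ball (t • (x₀ : E)) (r / 8)) :
    z ∈ Ioo (0 : ℝ) 1 • ((Subtype.val : S2 → E) '' Metric.ball x₀ r) := by
  have hx : ‖(x₀ : E)‖ = 1 := norm_eq_of_mem_sphere x₀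
  have hc : ‖t • (x₀ : E)‖ = t := by rw [norm_smul, hx, mul_one, Real.norm_of_nonneg (by linarith)]
  have hd : ‖z - t • (x₀ : E)‖ < r / 8 := by rw [← dist_eq_norm]; exact hz
  have h1 : |‖z‖ - t| < r / 8 := by
    have := abs_norm_sub_norm_le z (t • (x₀ : E))
    rw [hc] at this
    linarith
  have h2 := abs_lt.1 h1
  have hz0 : 3 / 8 ≤ ‖z‖ := by linarith
  have hz1 : ‖z‖ < 1 := by linarith
  have hzp : 0 < ‖z‖ := by linarith
  have hn : ‖‖z‖⁻¹ • z‖ = 1 := by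
    rw [norm_smul, norm_inv, norm_norm, inv_mul_cancel₀ hzp.ne']
  have hdist : ‖‖z‖⁻¹ • z - (x₀ : E)‖ < r := by
    have e : ‖z‖⁻¹ • z - (x₀ : E) = ‖z‖⁻¹ • ((z - t • (x₀ : E)) + (t - ‖z‖) • (x₀ : E)) := by
      rw [sub_smul, sub_add_sub_cancel, smul_sub, smul_smul, inv_mul_cancel₀ hzp.ne', one_smul]
    rw [e, norm_smul, norm_inv, norm_norm, inv_mul_lt_iff₀ hzp]
    calc ‖(z - t • (x₀ : E)) + (t - ‖z‖) • (x₀ : E)‖ ≤ ‖z - t • (x₀ : E)‖ + ‖(t - ‖z‖) • (x₀ : E)‖ := norm_add_le _ _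
      _ = ‖z - t • (x₀ : E)‖ + |‖z‖ - t| := by rw [norm_smul, hx, mul_one, Real.norm_eq_abs, abs_sub_comm]
      _ < r / 8 + r / 8 := add_lt_add hd h1
      _ ≤ ‖z‖ * r := by nlinarith
  refine ⟨‖z‖, ⟨hzp, hz1⟩, ‖z‖⁻¹ • z, ⟨⟨‖z‖⁻¹ • z, by rw [mem_sphere_zero_iff_norm]; exact hn⟩, ?_, rfl⟩, ?_⟩
  · show dist (‖z‖⁻¹ • z) (x₀ : E) < r
    rw [dist_eq_norm]
    exact hdist
  · show ‖z‖ • (‖z‖⁻¹ • z) = z
    rw [smul_smul, mul_inv_cancel₀ hzp.ne', one_smul]

/-- Row RCap. Lower bound of the area of a cap. The cone over the cap, whose volume is a third of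
the area (`Measure.toSphere_apply'`), contains the disjoint balls with centres
`(1/2 + k r / 4) x₀`, `k = 0, ..., ⌊1/r⌋`, and radius `r / 8`: for `z` in such a ball
`3/8 ≤ |z| < 1` and `|z/|z| - x₀| ≤ 2 (r/8)/(3/8) < r`. Total volume
`≥ (1/r) (r/8)^3 vol(ball 0 1)`. -/
theorem cap_area : ∃ κ : ℝ, 0 < κ ∧ ∀ (x₀ : S2) (r : ℝ), 0 < r → r ≤ 1 →
    κ * r ^ 2 ≤ area.real (Metric.ball x₀ r) := by
  have hV : 0 < ((volume : Measure E) (Metric.ball 0 1)).toReal :=
    ENNReal.toReal_pos (Metric.measure_ball_pos volume (0 : E) one_pos).ne' measure_ball_lt_top.ne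
  refine ⟨((volume : Measure E) (Metric.ball 0 1)).toReal / 512, by positivity, ?_⟩
  intro x₀ r hr hr1
  set V := ((volume : Measure E) (Metric.ball 0 1)).toReal with hVd
  set n := ⌊1 / r⌋₊ + 1 with hn
  have hn1 : 1 / r ≤ (n : ℝ) := by
    rw [hn]; push_cast; exact (Nat.lt_floor_add_one (1 / r)).le
  set c : ℕ → ℝ := fun k => 1 / 2 + k * r / 4 with hc
  have hk : ∀ k ∈ Finset.range n, (k : ℝ) * r ≤ 1 := by
    intro k hk
    rw [Finset.mem_range, hn, Nat.lt_succ_iff] at hk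
    have h1 : (k : ℝ) ≤ 1 / r := (Nat.le_floor_iff (by positivity)).1 hk
    rwa [le_div_iff₀ hr] at h1
  have hsub : (⋃ k ∈ Finset.range n, Metric.ball (c k • (x₀ : E)) (r / 8)) ⊆
      Ioo (0 : ℝ) 1 • ((Subtype.val : S2 → E) '' Metric.ball x₀ r) := by
    intro z hz
    simp only [mem_iUnion] at hz
    obtain ⟨k, hkn, hz⟩ := hz
    have h1 := hk k hkn
    have h2 : 0 ≤ (k : ℝ) * r := by positivity
    exact cap_mem x₀ hr hr1 (by rw [hc]; dsimp only; linarith) (by rw [hc]; dsimp only; linarith) hz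
  have hdisj : ∀ i ∈ Finset.range n, ∀ j ∈ Finset.range n, i ≠ j →
      Disjoint (Metric.ball (c i • (x₀ : E)) (r / 8)) (Metric.ball (c j • (x₀ : E)) (r / 8)) := by
    intro i _ j _ hij
    apply Metric.ball_disjoint_ball
    rw [dist_eq_norm, ← sub_smul, norm_smul, norm_eq_of_mem_sphere x₀, mul_one, Real.norm_eq_abs]
    have e : c i - c j = ((i : ℝ) - j) * (r / 4) := by rw [hc]; ring
    rw [e, abs_mul, abs_of_pos (by positivity : (0 : ℝ) < r / 4)]
    have h1 : (1 : ℝ) ≤ |(i : ℝ) - j| := by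
      have : (1 : ℤ) ≤ |(i : ℤ) - j| := Int.one_le_abs (by omega)
      exact_mod_cast this
    nlinarith
  have hvol : (volume : Measure E) (⋃ k ∈ Finset.range n, Metric.ball (c k • (x₀ : E)) (r / 8)) =
      n * (ENNReal.ofReal ((r / 8) ^ 3) * (volume : Measure E) (Metric.ball 0 1)) := by
    rw [measure_biUnion_finset (fun i hi j hj hij => hdisj i hi j hj hij) (fun k _ => measurableSet_ball)]
    have : ∀ k ∈ Finset.range n, (volume : Measure E) (Metric.ball (c k • (x₀ : E)) (r / 8)) =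
        ENNReal.ofReal ((r / 8) ^ 3) * (volume : Measure E) (Metric.ball 0 1) := by
      intro k _
      rw [Measure.addHaar_ball _ _ (by positivity)]
      simp
    rw [Finset.sum_congr rfl this, Finset.sum_const, Finset.card_range, nsmul_eq_mul]
  have hle := measure_mono (μ := (volume : Measure E)) hsub
  rw [hvol] at hle
  have harea : area (Metric.ball x₀ r) =
      (3 : ENNReal) * (volume : Measure E) (Ioo (0 : ℝ) 1 • ((Subtype.val : S2 → E) '' Metric.ball x₀ r)) := by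
    have := Measure.toSphere_apply' (volume : Measure E) (s := Metric.ball x₀ r) measurableSet_ball
    rw [this, finrank_euclideanSpace_fin]
    rfl
  have hle2 : (n : ENNReal) * (ENNReal.ofReal ((r / 8) ^ 3) * (volume : Measure E) (Metric.ball 0 1)) ≤ area (Metric.ball x₀ r) := by
    rw [harea]
    calc _ ≤ 1 * (volume : Measure E) (Ioo (0 : ℝ) 1 • ((Subtype.val : S2 → E) '' Metric.ball x₀ r)) := by
          rw [one_mul]; exact hle
      _ ≤ _ := by gcongr; norm_num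
  have hfin : area (Metric.ball x₀ r) ≠ ⊤ := measure_ne_top _ _
  have h3 := ENNReal.toReal_mono hfin hle2
  rw [ENNReal.toReal_mul, ENNReal.toReal_mul, ENNReal.toReal_natCast, ENNReal.toReal_ofReal (by positivity)] at h3
  show V / 512 * r ^ 2 ≤ (area (Metric.ball x₀ r)).toReal
  refine le_trans ?_ h3
  rw [← hVd]
  have h4 : 1 ≤ (n : ℝ) * r := by rwa [div_le_iff₀ hr] at hn1
  have e : (n : ℝ) * ((r / 8) ^ 3 * V) = ((n : ℝ) * r) * (V / 512 * r ^ 2) := by ring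
  rw [e]
  have h5 : 0 ≤ V / 512 * r ^ 2 := by positivity
  nlinarith

end Pool.Agent.Lib.RotSphere
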