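import Pool.Agent.Lib.MP_dba1af_an.RS.QBd

noncomputable section
open MeasureTheory Set
open scoped ContDiff

namespace Pool.Agent.Lib.RotSphere

open Polynomial in
private theorem rd_core (P : ℝ[X]) (l : ℝ) (hl : 1 ≤ l)
    (hode : ∀ s : ℝ, (1 - s ^ 2) * (derivative (derivative P)).eval s - 2 * s * (derivative P).eval s =
      -(l * (l + 1)) * P.eval s)
    (h0 : P.eval 0 = 0) (hd : ((derivative P).eval 0) ^ 2 ≤ l) (t : ℝ)
    (ht : t ∈ Icc (0 : ℝ) 1) (hbig : 2 ≤ Real.sqrt (1 - t ^ 2) * Real.sqrt (l * (l + 1))) :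
    Real.sqrt (1 - t ^ 2) * (P.eval t) ^ 2 ≤ 4 / (l + 1) := by
  have hL : 0 < l * (l + 1) := by nlinarith
  set L : ℝ := l * (l + 1) with hLdef
  set r : ℝ := Real.sqrt L with hr
  have hr0 : 0 < r := Real.sqrt_pos.2 hL
  have hr2 : r ^ 2 = L := Real.sq_sqrt hL.le
  have hp : ∀ s, HasDerivAt (fun x => P.eval x) ((derivative P).eval s) s := fun s => P.hasDerivAt s
  have hq : ∀ s, HasDerivAt (fun x => (derivative P).eval x) ((derivative (derivative P)).eval s) s :=
    fun s => (derivative P).hasDerivAt s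
  have hw : ∀ s : ℝ, HasDerivAt (fun x : ℝ => 1 - x ^ 2) (-(2 * s)) s := by
    intro s
    have := (hasDerivAt_pow 2 s).const_sub 1
    simpa using this
  set q : ℝ → ℝ := fun x => Real.sqrt (1 - x ^ 2) with hqdef
  have hqt : 2 ≤ q t * r := hbig
  have hqtpos : 0 < q t := by
    by_contra h
    have : q t = 0 := le_antisymm (not_lt.1 h) (Real.sqrt_nonneg _)
    rw [this] at hqt
    linarith
  have hqbig : ∀ x ∈ Icc (0 : ℝ) t, 2 ≤ q x * r := by
    intro x hx
    have h1 : q t ≤ q x := by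
      apply Real.sqrt_le_sqrt
      nlinarith [hx.1, hx.2]
    nlinarith
  have hqpos : ∀ x ∈ Icc (0 : ℝ) t, 0 < q x := by
    intro x hx
    have h1 : q t ≤ q x := by
      apply Real.sqrt_le_sqrt
      nlinarith [hx.1, hx.2]
    linarith
  have hqsq : ∀ x ∈ Icc (0 : ℝ) t, q x ^ 2 = 1 - x ^ 2 := by
    intro x hx
    apply Real.sq_sqrt
    nlinarith [hx.1, hx.2, ht.2]
  have hqd : ∀ x ∈ Icc (0 : ℝ) t, HasDerivAt q (-x / q x) x := by
    intro x hx
    have h1 : (1 - x ^ 2) ≠ 0 := by
      rw [← hqsq x hx]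
      exact pow_ne_zero 2 (hqpos x hx).ne'
    refine ((hw x).sqrt h1).congr_deriv ?_
    have h2 := (hqpos x hx).ne'
    show -(2 * x) / (2 * q x) = -x / q x
    field_simp
  set F : ℝ → ℝ := fun x => q x * (P.eval x ^ 2 + (1 - x ^ 2) * (derivative P).eval x ^ 2 / L) -
    x * q x * (P.eval x * (derivative P).eval x) / L with hF
  have hFd : ∀ x ∈ Icc (0 : ℝ) t,
      HasDerivAt F (-(P.eval x * (derivative P).eval x) / (L * q x)) x := by
    intro x hx
    have h2 := ((hqd x hx).mul (((hp x).pow 2).add ((((hw x).mul ((hq x).pow 2))).div_const L))).sub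
      (((((hasDerivAt_id x).mul (hqd x hx)).mul ((hp x).mul (hq x)))).div_const L)
    refine h2.congr_deriv ?_
    have h3 := hode x
    have h4 := hqsq x hx
    have h5 := (hqpos x hx).ne'
    simp only [Pi.pow_apply, Pi.mul_apply, Pi.add_apply, id]
    generalize q x = Q at *
    generalize (derivative (derivative P)).eval x = P2 at *
    generalize (derivative P).eval x = P1 at *
    generalize P.eval x = P0 at *
    push_cast
    have h6 : L = r ^ 2 := hr2.symm
    rw [← h4]
    have h7 : Q ^ 2 * P2 = 2 * x * P1 - L * P0 := by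
      rw [h4]; linarith
    have h8 : P2 = (2 * x * P1 - L * P0) / Q ^ 2 := by
      rw [eq_div_iff (pow_ne_zero 2 h5)]; linarith
    rw [h8]
    have h9 : L ≠ 0 := hL.ne'
    generalize L = M at *
    field_simp
    have h10 : x ^ 2 = 1 - Q ^ 2 := by linarith
    linear_combination (-(P0 * P1)) * h10
  set g : ℝ → ℝ := fun x => (2 / 3) * x / (r * q x) with hg
  have hgd : ∀ x ∈ Icc (0 : ℝ) t, HasDerivAt g ((2 / 3) / (r * q x ^ 3)) x := by
    intro x hx
    have h5 := (hqpos x hx).ne'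
    have h2 := ((hasDerivAt_id x).const_mul (2 / 3 : ℝ)).div ((hqd x hx).const_mul r)
      (mul_ne_zero hr0.ne' h5)
    refine h2.congr_deriv ?_
    have h4 := hqsq x hx
    simp only [id]
    generalize q x = Q at *
    field_simp
    nlinarith
  have hHle : ∀ x ∈ Icc (0 : ℝ) t, |P.eval x * (derivative P).eval x| * (2 * q x) ≤
      r * (P.eval x ^ 2 + (1 - x ^ 2) * (derivative P).eval x ^ 2 / L) := by
    intro x hx
    rw [← hqsq x hx, ← hr2]
    have h5 := hqpos x hx
    generalize q x = Q at *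
    generalize (derivative P).eval x = P1 at *
    generalize P.eval x = P0 at *
    have e : r * (P0 ^ 2 + Q ^ 2 * P1 ^ 2 / r ^ 2) = (r ^ 2 * P0 ^ 2 + Q ^ 2 * P1 ^ 2) / r := by
      field_simp
    rw [e, le_div_iff₀ hr0, abs_mul]
    nlinarith [sq_nonneg (r * |P0| - Q * |P1|), sq_abs P0, sq_abs P1]
  have hFge : ∀ x ∈ Icc (0 : ℝ) t,
      3 / 4 * q x * (P.eval x ^ 2 + (1 - x ^ 2) * (derivative P).eval x ^ 2 / L) ≤ F x := by
    intro x hx
    have h1 := hHle x hx
    have h2 := hqbig x hx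
    have h3 := hqpos x hx
    have h4 := hqsq x hx
    have hx1 : x ≤ 1 := hx.2.trans ht.2
    simp only [hF]
    set H : ℝ := P.eval x ^ 2 + (1 - x ^ 2) * (derivative P).eval x ^ 2 / L with hH
    have hH0 : 0 ≤ H := by
      rw [hH, ← h4]; positivity
    have h6 : x * q x * (P.eval x * (derivative P).eval x) / L ≤ 1 / 4 * q x * H := by
      rw [div_le_iff₀ hL, ← hr2]
      have h7 : P.eval x * (derivative P).eval x ≤ |P.eval x * (derivative P).eval x| := le_abs_self _
      have h8 : x * q x * (P.eval x * (derivative P).eval x) ≤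
          q x * |P.eval x * (derivative P).eval x| := by
        have : x * (P.eval x * (derivative P).eval x) ≤ 1 * |P.eval x * (derivative P).eval x| := by
          have := mul_le_mul_of_nonneg_left h7 hx.1
          have h9 := mul_le_mul_of_nonneg_right hx1 (abs_nonneg (P.eval x * (derivative P).eval x))
          linarith
        nlinarith
      have h10 : q x * |P.eval x * (derivative P).eval x| ≤ r * H / 2 := by linarith
      have h11 : r * H / 2 ≤ 1 / 4 * q x * H * r ^ 2 := by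
        nlinarith [mul_nonneg (mul_nonneg hr0.le hH0) (sub_nonneg.2 h2)]
      linarith
    linarith
  have hFle : ∀ x ∈ Icc (0 : ℝ) t, -(P.eval x * (derivative P).eval x) / (L * q x) ≤
      (2 / 3) / (r * q x ^ 3) * F x := by
    intro x hx
    have h1 := hHle x hx
    have h3 := hqpos x hx
    have h5 := hFge x hx
    set H : ℝ := P.eval x ^ 2 + (1 - x ^ 2) * (derivative P).eval x ^ 2 / L with hH
    have h6 : (2 / 3) / (r * q x ^ 3) * (3 / 4 * q x * H) ≤ (2 / 3) / (r * q x ^ 3) * F x :=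
      mul_le_mul_of_nonneg_left h5 (by positivity)
    refine le_trans ?_ h6
    have e : (2 / 3) / (r * q x ^ 3) * (3 / 4 * q x * H) = (r * H) / (2 * r ^ 2 * q x ^ 2) := by
      field_simp
      ring
    rw [e, ← hr2]
    have h7 : -(P.eval x * (derivative P).eval x) ≤ |P.eval x * (derivative P).eval x| := neg_le_abs _
    have e2 : -(P.eval x * (derivative P).eval x) / (r ^ 2 * q x) =
        (-(P.eval x * (derivative P).eval x) * (2 * q x)) / (2 * r ^ 2 * q x ^ 2) := by
      field_simp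
    rw [e2]
    apply div_le_div_of_nonneg_right _ (by positivity)
    refine le_trans (mul_le_mul_of_nonneg_right h7 (by positivity)) h1
  have hanti : AntitoneOn (fun x => F x * Real.exp (-g x)) (Icc (0 : ℝ) t) := by
    have hGd : ∀ x ∈ Icc (0 : ℝ) t, HasDerivAt (fun x => F x * Real.exp (-g x))
        ((-(P.eval x * (derivative P).eval x) / (L * q x)) * Real.exp (-g x) +
          F x * (Real.exp (-g x) * (-((2 / 3) / (r * q x ^ 3))))) x := by
      intro x hx
      exact (hFd x hx).mul ((hgd x hx).neg.exp)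
    refine antitoneOn_of_deriv_nonpos (convex_Icc 0 t)
      (fun s hs => (hGd s hs).continuousAt.continuousWithinAt)
      (fun s hs => (hGd s (interior_subset hs)).differentiableAt.differentiableWithinAt) fun s hs => ?_
    rw [(hGd s (interior_subset hs)).deriv]
    have h1 := hFle s (interior_subset hs)
    have h2 := Real.exp_pos (-g s)
    nlinarith
  have hfin := hanti (left_mem_Icc.2 ht.1) (right_mem_Icc.2 ht.1) ht.1
  simp only at hfin
  have hF0 : F 0 ≤ 1 / (l + 1) := by
    have h3 : (derivative P).eval 0 ^ 2 / (l * (l + 1)) ≤ 1 / (l + 1) := by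
      rw [div_le_div_iff₀ hL (by linarith)]
      nlinarith [mul_le_mul_of_nonneg_right hd (show (0 : ℝ) ≤ l + 1 by linarith)]
    have e : F 0 = (derivative P).eval 0 ^ 2 / (l * (l + 1)) := by
      simp [hF, hqdef, h0, hLdef]
    rw [e]
    exact h3
  have hg0 : g 0 = 0 := by simp [hg]
  have htm : t ∈ Icc (0 : ℝ) t := right_mem_Icc.2 ht.1
  have hgt : g t ≤ 1 / 3 := by
    have h1 := hqtpos
    simp only [hg]
    rw [div_le_iff₀ (by positivity)]
    nlinarith [ht.2]
  rw [hg0, neg_zero, Real.exp_zero, mul_one] at hfin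
  have h5 := hFge t htm
  have hexp : Real.exp (g t) ≤ 3 := by
    have : Real.exp (g t) ≤ Real.exp 1 := Real.exp_le_exp.2 (by linarith)
    have h2 := Real.exp_one_lt_d9
    linarith
  have hFt : F t ≤ 3 * (1 / (l + 1)) := by
    have h1 : F t = (F t * Real.exp (-g t)) * Real.exp (g t) := by
      rw [mul_assoc, ← Real.exp_add]
      simp
    rw [h1]
    have h2 : F t * Real.exp (-g t) ≤ 1 / (l + 1) := hfin.trans hF0
    have h3 : (F t * Real.exp (-g t)) * Real.exp (g t) ≤ (1 / (l + 1)) * Real.exp (g t) :=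
      mul_le_mul_of_nonneg_right h2 (Real.exp_pos _).le
    have h4 : (1 / (l + 1)) * Real.exp (g t) ≤ (1 / (l + 1)) * 3 :=
      mul_le_mul_of_nonneg_left hexp (by have : 0 < l + 1 := by linarith
                                         positivity)
    linarith
  have h6 : q t * P.eval t ^ 2 ≤
      q t * (P.eval t ^ 2 + (1 - t ^ 2) * (derivative P).eval t ^ 2 / L) := by
    apply mul_le_mul_of_nonneg_left _ hqtpos.le
    have : 0 ≤ (1 - t ^ 2) * (derivative P).eval t ^ 2 / L := by
      rw [← hqsq t htm]; positivity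
    linarith
  have h7 : (4 : ℝ) / (l + 1) = 4 / 3 * (3 * (1 / (l + 1))) := by
    field_simp
  show q t * P.eval t ^ 2 ≤ 4 / (l + 1)
  rw [h7]
  linarith

private theorem rd_all (j : ℕ) (s : ℝ) (hs0 : 0 ≤ s) (hs1 : s ≤ 1) :
    Real.sqrt (1 - s ^ 2) * ((Leg (2 * j + 1)).eval s) ^ 2 ≤ 4 / (2 * (j : ℝ) + 2) := by
  set P := Leg (2 * j + 1) with hP
  have hodd : ∀ x : ℝ, P.eval (-x) = -P.eval x := by
    intro x
    have h := leg_neg (2 * j + 1) x
    rw [hP]
    unfold Leg
    rw [h, pow_succ, pow_mul]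
    simp
  have h0 : P.eval 0 = 0 := by
    have h := hodd 0
    rw [neg_zero] at h
    linarith
  have hj : (0 : ℝ) ≤ j := Nat.cast_nonneg j
  rcases le_or_gt 2 (Real.sqrt (1 - s ^ 2) *
    Real.sqrt ((2 * (j : ℝ) + 1) * ((2 * (j : ℝ) + 1) + 1))) with hbig | hsmall
  · have key := rd_core P (2 * (j : ℝ) + 1) (by linarith)
      (by
        intro x
        have h := leg_ode (2 * j + 1) x
        rw [← hP] at h
        rw [h]
        push_cast
        ring)
      h0 (leg_deriv_zero j) s ⟨hs0, hs1⟩ hbig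
    have e2 : (4 : ℝ) / (2 * (j : ℝ) + 1 + 1) = 4 / (2 * (j : ℝ) + 2) := by ring_nf
    rwa [e2] at key
  · have hb := (leg_bounds j s (by rw [abs_of_nonneg hs0]; exact hs1)).1
    rw [← hP] at hb
    have hb2 : P.eval s ^ 2 ≤ 1 := by
      rw [← sq_abs]
      nlinarith [abs_nonneg (P.eval s)]
    have hr0 : (2 * (j : ℝ) + 2) / 2 ≤
        Real.sqrt ((2 * (j : ℝ) + 1) * ((2 * (j : ℝ) + 1) + 1)) := by
      apply Real.le_sqrt_of_sq_le
      nlinarith
    have hq0 : 0 ≤ Real.sqrt (1 - s ^ 2) := Real.sqrt_nonneg _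
    have h1 : Real.sqrt (1 - s ^ 2) * P.eval s ^ 2 ≤ Real.sqrt (1 - s ^ 2) := by nlinarith
    rw [le_div_iff₀ (by positivity)]
    nlinarith

/-- Row RDec (over QBd, QDer0, LegOde, LegVal). Sharp decay. `P = Leg (2j+1)`, `L = (2j+1)(2j+2)`,
`q = sqrt(1-s^2)`, `H = P^2 + q^2 P'^2 / L`. Put `F = q H - s q P P' / L`; by `leg_ode`
`F' = - P P' / (L q)` (compute `H' = 2 s P'^2 / L`, `(P P')' = P'^2 + P (2 s P' - L P)/q^2`).
As `|P P'| <= sqrt L H / (2 q)`: if `q sqrt L >= 2` then `F >= (3/4) q H` and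
`|F'| <= H / (2 sqrt L q^2) <= g' F`, `g = (2/3) s / (sqrt L q)`, `g' = (2/3) / (sqrt L q^3)`.
So `F exp(-g)` is antitone on `[0, s]` (if `q(s) sqrt L >= 2` the same holds on all of `[0,s]`),
`F(0) = H(0) = P'(0)^2 / L <= 1/(2j+2)`, `g <= 1/3`, hence `q H <= (4/3) exp(1/3)/(2j+2) <= 4/(2j+2)`.
If `q sqrt L < 2` then `q H <= q <= 2 / sqrt L <= 4/(2j+2)` (`H <= 1`: from the proof of
`leg_bounds`, or use only `P^2 <= 1`). `s < 0` by oddness. -/
theorem leg_decay (j : ℕ) (s : ℝ) (hs : |s| ≤ 1) :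
    Real.sqrt (1 - s ^ 2) * ((Leg (2 * j + 1)).eval s) ^ 2 ≤ 4 / (2 * (j : ℝ) + 2) := by
  rw [abs_le] at hs
  rcases le_total 0 s with h | h
  · exact rd_all j s h hs.2
  · have h2 := rd_all j (-s) (by linarith) (by linarith [hs.1])
    have hodd : (Leg (2 * j + 1)).eval (-s) = -(Leg (2 * j + 1)).eval s := by
      have h := leg_neg (2 * j + 1) s
      unfold Leg
      rw [h, pow_succ, pow_mul]
      simp
    rw [hodd, neg_sq, neg_sq] at h2
    exact h2

end Pool.Agent.Lib.RotSphere
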