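import Pool.Agent.Lib.MP_dba1af_an.RS.RDef
import Pool.Agent.Lib.MP_dba1af_an.RS.QBd

noncomputable section
open MeasureTheory Set
open scoped ContDiff

namespace Pool.Agent.Lib.RotSphere

private theorem rg_ph (θ : ℝ) (x : E) : HasFDerivAt (ph θ)
    (Real.cos θ • (EuclideanSpace.proj (0 : Fin 3) : E →L[ℝ] ℝ) +
      Real.sin θ • (EuclideanSpace.proj (1 : Fin 3) : E →L[ℝ] ℝ)) x := by
  have h0 : HasFDerivAt (fun y : E => y 0) (EuclideanSpace.proj (0 : Fin 3) : E →L[ℝ] ℝ) x :=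
    (EuclideanSpace.proj (0 : Fin 3) : E →L[ℝ] ℝ).hasFDerivAt
  have h1 : HasFDerivAt (fun y : E => y 1) (EuclideanSpace.proj (1 : Fin 3) : E →L[ℝ] ℝ) x :=
    (EuclideanSpace.proj (1 : Fin 3) : E →L[ℝ] ℝ).hasFDerivAt
  exact (h0.mul_const (Real.cos θ)).add (h1.mul_const (Real.sin θ))

private theorem rg_term (P : Polynomial ℝ) (θ : ℝ) (x : E) :
    HasFDerivAt (fun y => P.eval (ph θ y))
      ((Polynomial.derivative P).eval (ph θ x) •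
        (Real.cos θ • (EuclideanSpace.proj (0 : Fin 3) : E →L[ℝ] ℝ) +
          Real.sin θ • (EuclideanSpace.proj (1 : Fin 3) : E →L[ℝ] ℝ))) x :=
  (P.hasDerivAt (ph θ x)).comp_hasFDerivAt x (rg_ph θ x)

private theorem rg_br (m : ℕ) (f : E → ℝ) (t : ℝ) (x : E) :
    br f (wr m t) x = ∑ k ∈ Finset.range m,
      (Polynomial.derivative (Leg (2 * jr m k + 1))).eval
        (ph ((spd (jr m k) : ℝ) * (t - (m : ℝ) ^ 4 / 2)) x) *
      (vel f x 0 * Real.cos ((spd (jr m k) : ℝ) * (t - (m : ℝ) ^ 4 / 2)) +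
        vel f x 1 * Real.sin ((spd (jr m k) : ℝ) * (t - (m : ℝ) ^ 4 / 2))) := by
  have h : HasFDerivAt (wr m t) (∑ k ∈ Finset.range m,
      ((Polynomial.derivative (Leg (2 * jr m k + 1))).eval
        (ph ((spd (jr m k) : ℝ) * (t - (m : ℝ) ^ 4 / 2)) x) •
        (Real.cos ((spd (jr m k) : ℝ) * (t - (m : ℝ) ^ 4 / 2)) •
            (EuclideanSpace.proj (0 : Fin 3) : E →L[ℝ] ℝ) +
          Real.sin ((spd (jr m k) : ℝ) * (t - (m : ℝ) ^ 4 / 2)) •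
            (EuclideanSpace.proj (1 : Fin 3) : E →L[ℝ] ℝ)))) x :=
    HasFDerivAt.fun_sum fun k _ => rg_term _ _ x
  unfold br
  rw [h.fderiv, ContinuousLinearMap.sum_apply]
  refine Finset.sum_congr rfl fun k _ => ?_
  have ep : ∀ (i : Fin 3) (v : E), (EuclideanSpace.proj i : E →L[ℝ] ℝ) v = v i := fun _ _ => rfl
  simp only [ContinuousLinearMap.smul_apply, ContinuousLinearMap.add_apply, smul_eq_mul, ep]
  ring

private theorem rg_geo (c s v0 v1 v2 x0 x1 x2 : ℝ) (hcs : c ^ 2 + s ^ 2 = 1)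
    (hx : x0 ^ 2 + x1 ^ 2 + x2 ^ 2 = 1) (ho : x0 * v0 + x1 * v1 + x2 * v2 = 0) :
    (v0 * c + v1 * s) ^ 2 ≤ (1 - (x0 * c + x1 * s) ^ 2) * (v0 ^ 2 + v1 ^ 2 + v2 ^ 2) := by
  have key : (1 - (x0 * c + x1 * s) ^ 2) * (v0 ^ 2 + v1 ^ 2 + v2 ^ 2) - (v0 * c + v1 * s) ^ 2 =
      (-x0 * v2 * s + x1 * v2 * c + x2 * (v0 * s - v1 * c)) ^ 2 := by
    linear_combination (-(v0 ^ 2 + v1 ^ 2 + v2 ^ 2) * (c ^ 2 + s ^ 2) + (v0 * c + v1 * s) ^ 2) * hx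
      + (-(v0 ^ 2 + v1 ^ 2 + v2 ^ 2)) * hcs
      + (-2 * (v0 * c + v1 * s) * (x0 * c + x1 * s)
        + (c ^ 2 + s ^ 2) * (x0 * v0 + x1 * v1 + x2 * v2)) * ho
  have := sq_nonneg (-x0 * v2 * s + x1 * v2 * c + x2 * (v0 * s - v1 * c))
  linarith

private theorem rg_orth (f : E → ℝ) (x : E) :
    x 0 * D 0 f x + x 1 * D 1 f x + x 2 * D 2 f x = 0 := by
  have h : x 0 • J 0 x + x 1 • J 1 x + x 2 • J 2 x = 0 := by
    ext k
    fin_cases k <;> simp [J_apply] <;> ring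
  have h2 := congrArg (fderiv ℝ f x) h
  simp only [map_add, map_smul, smul_eq_mul, map_zero] at h2
  exact h2

private theorem rg_num (m k : ℕ) (hm : 1 ≤ m) (hk : k < m) :
    (2 * (jr m k : ℝ) + 1) * (2 * (jr m k : ℝ) + 2) ≤ (4 * (m : ℝ) ^ 2) ^ 2 := by
  have h1 : 2 * jr m k + 2 ≤ 4 * m ^ 2 := by
    unfold jr
    obtain ⟨n, rfl⟩ : ∃ n, m = n + 1 := ⟨m - 1, by omega⟩
    have h3 : k * (n + 1) ≤ n * (n + 1) := Nat.mul_le_mul_right _ (by omega)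
    have h5 : (n + 1) ^ 2 = n * (n + 1) + (n + 1) := by ring
    omega
  have h2 : 2 * (jr m k : ℝ) + 2 ≤ 4 * (m : ℝ) ^ 2 := by exact_mod_cast h1
  have h0 : (0 : ℝ) ≤ jr m k := Nat.cast_nonneg _
  calc (2 * (jr m k : ℝ) + 1) * (2 * (jr m k : ℝ) + 2)
      ≤ (2 * (jr m k : ℝ) + 2) * (2 * (jr m k : ℝ) + 2) := by
        apply mul_le_mul_of_nonneg_right <;> linarith
    _ ≤ (4 * (m : ℝ) ^ 2) * (4 * (m : ℝ) ^ 2) := by
        apply mul_le_mul h2 h2 <;> linarith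
    _ = (4 * (m : ℝ) ^ 2) ^ 2 := by ring

/-- Row RGrad: copy of QGrad (`sqrt((2j+1)(2j+2)) ≤ 4 m^2`, `m` summands). -/
theorem grad_bound' (m : ℕ) (hm : 1 ≤ m) (f : E → ℝ) (t : ℝ) (x : E) (hx : ‖x‖ = 1) :
    (br f (wr m t) x) ^ 2 ≤ (4 * (m : ℝ) ^ 3) ^ 2 * ∑ i, D i f x ^ 2 := by
  have hx2 : x 0 ^ 2 + x 1 ^ 2 + x 2 ^ 2 = 1 := by
    have h1 := EuclideanSpace.norm_sq_eq x
    rw [hx, Fin.sum_univ_three] at h1
    simp only [Real.norm_eq_abs, sq_abs] at h1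
    linarith
  rw [rg_br, Fin.sum_univ_three]
  set W := D 0 f x ^ 2 + D 1 f x ^ 2 + D 2 f x ^ 2 with hW
  have hW0 : 0 ≤ W := by positivity
  refine (sq_sum_le_card_mul_sum_sq).trans ?_
  rw [Finset.card_range]
  have hk : ∀ k ∈ Finset.range m,
      ((Polynomial.derivative (Leg (2 * jr m k + 1))).eval
        (ph ((spd (jr m k) : ℝ) * (t - (m : ℝ) ^ 4 / 2)) x) *
      (vel f x 0 * Real.cos ((spd (jr m k) : ℝ) * (t - (m : ℝ) ^ 4 / 2)) +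
        vel f x 1 * Real.sin ((spd (jr m k) : ℝ) * (t - (m : ℝ) ^ 4 / 2)))) ^ 2 ≤
      (4 * (m : ℝ) ^ 2) ^ 2 * W := by
    intro k hk
    generalize ((spd (jr m k) : ℝ) * (t - (m : ℝ) ^ 4 / 2)) = θ
    have h1 := rg_geo (Real.cos θ) (Real.sin θ) (D 0 f x) (D 1 f x) (D 2 f x) (x 0) (x 1) (x 2)
      (by rw [add_comm]; exact Real.sin_sq_add_cos_sq θ) hx2 (rg_orth f x)
    have h2 := (leg_bounds (jr m k) (ph θ x) (abs_ph_le θ x hx)).2.1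
    have h3 := rg_num m k hm (Finset.mem_range.1 hk)
    have e0 : vel f x 0 = D 0 f x := rfl
    have e1 : vel f x 1 = D 1 f x := rfl
    have e2 : ph θ x = x 0 * Real.cos θ + x 1 * Real.sin θ := rfl
    rw [e0, e1, mul_pow]
    calc _ ≤ (Polynomial.derivative (Leg (2 * jr m k + 1))).eval (ph θ x) ^ 2 *
          ((1 - ph θ x ^ 2) * W) := by
          apply mul_le_mul_of_nonneg_left _ (sq_nonneg _)
          rw [e2]
          exact h1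
      _ = ((1 - ph θ x ^ 2) * (Polynomial.derivative (Leg (2 * jr m k + 1))).eval (ph θ x) ^ 2) * W := by
          ring
      _ ≤ (4 * (m : ℝ) ^ 2) ^ 2 * W := mul_le_mul_of_nonneg_right (h2.trans h3) hW0
  calc _ ≤ (m : ℝ) * ∑ _k ∈ Finset.range m, (4 * (m : ℝ) ^ 2) ^ 2 * W :=
        mul_le_mul_of_nonneg_left (Finset.sum_le_sum hk) (Nat.cast_nonneg _)
    _ = (4 * (m : ℝ) ^ 3) ^ 2 * W := by
        rw [Finset.sum_const, Finset.card_range, nsmul_eq_mul]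
        ring

end Pool.Agent.Lib.RotSphere
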