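import Pool.Agent.Lib.MP_dba1af_an.RS.RCap
import Pool.Agent.Lib.MP_dba1af_an.RS.QLarge

noncomputable section
open MeasureTheory Set
open scoped ContDiff

namespace Pool.Agent.Lib.RotSphere

/-- Row RLarge: copy of QLarge with `cap_area` (over the stub RCap) instead of `toSphereBallBound`. -/
theorem large_quant' : ∃ κ : ℝ, 0 < κ ∧ ∀ (w : E → ℝ), Continuous w → ∀ (B r : ℝ), 0 < B → 0 < r →
    r ≤ 1 → ∀ x₀ : S2, (∀ x : S2, ‖(x : E) - x₀‖ ≤ r → 2 * B ≤ |w x|) →
    ∀ f : E → ℝ, Continuous f → ∀ δ : ℝ, 0 < δ → (∀ x : S2, |f x| < B * δ) →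
      κ * r ^ 2 * B ^ 2 * δ ^ 2 ≤ ∫ x : S2, (f x - δ * w x) ^ 2 ∂area := by
  obtain ⟨κ, hκ, hcap⟩ := cap_area
  refine ⟨κ, hκ, ?_⟩
  intro w hw B r hB hr hr1 x₀ hx₀ f hf δ hδ hfB
  have hcont : Continuous fun x : S2 => (f x - δ * w x) ^ 2 := by
    have h1 : Continuous fun x : S2 => f x := hf.comp continuous_subtype_val
    have h2 : Continuous fun x : S2 => w x := hw.comp continuous_subtype_val
    exact (h1.sub (continuous_const.mul h2)).pow 2
  have hint : Integrable (fun x : S2 => (f x - δ * w x) ^ 2) area :=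
    hcont.integrable_of_hasCompactSupport (HasCompactSupport.of_compactSpace _)
  have hlow : ∀ x ∈ Metric.ball x₀ r, (B * δ) ^ 2 ≤ (f x - δ * w x) ^ 2 := by
    intro x hx
    have h1 : ‖(x : E) - x₀‖ ≤ r := by
      rw [← dist_eq_norm, ← Subtype.dist_eq]
      exact (Metric.mem_ball.1 hx).le
    have h2 := hx₀ x h1
    have h3 := hfB x
    have h4 : B * δ ≤ |f x - δ * w x| := by
      have h5 : |δ * w x| ≤ |f x - δ * w x| + |f x| := by
        have := abs_sub_abs_le_abs_sub (δ * w x) (f x)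
        rw [abs_sub_comm] at this
        linarith
      rw [abs_mul, abs_of_pos hδ] at h5
      have h6 : δ * (2 * B) ≤ δ * |w x| := mul_le_mul_of_nonneg_left h2 hδ.le
      linarith
    rw [← sq_abs (f x - δ * w x)]
    exact pow_le_pow_left₀ (by positivity) h4 2
  have h1 := setIntegral_ge_of_const_le_real (μ := area) Metric.isOpen_ball.measurableSet (measure_ne_top _ _) hlow hint.integrableOn
  have h2 : ∫ x in Metric.ball x₀ r, (f x - δ * w x) ^ 2 ∂area ≤ ∫ x : S2, (f x - δ * w x) ^ 2 ∂area :=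
    setIntegral_le_integral hint (Filter.Eventually.of_forall fun x => sq_nonneg _)
  have h3 : κ * r ^ 2 ≤ area.real (Metric.ball x₀ r) := hcap x₀ r hr hr1
  have h4 : (B * δ) ^ 2 * (κ * r ^ 2) ≤
      (B * δ) ^ 2 * area.real (Metric.ball x₀ r) := mul_le_mul_of_nonneg_left h3 (sq_nonneg _)
  calc κ * r ^ 2 * B ^ 2 * δ ^ 2
      = (B * δ) ^ 2 * (κ * r ^ 2) := by ring
    _ ≤ _ := h4.trans (h1.trans h2)

end Pool.Agent.Lib.RotSphere
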