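import Pool.Agent.Lib.MP_dba1af_an.RS.RDef

noncomputable section
open MeasureTheory Set
open scoped ContDiff

namespace Pool.Agent.Lib.RotSphere

private theorem rlsm_sum {ι : Type} (s : Finset ι) (c : ι → ℝ) (f : ι → E → ℝ)
    (hf : ∀ j, ContDiff ℝ ∞ (f j)) : ContDiff ℝ ∞ (fun y => ∑ j ∈ s, c j * f j y) :=
  ContDiff.sum fun j _ => contDiff_const.mul (hf j)

private theorem rllap_sum {ι : Type} (s : Finset ι) (c : ι → ℝ) (f : ι → E → ℝ)
    (hf : ∀ j, ContDiff ℝ ∞ (f j)) :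
    lap (fun y => ∑ j ∈ s, c j * f j y) = fun y => ∑ j ∈ s, c j * lap (f j) y := by
  classical
  induction s using Finset.induction_on with
  | empty =>
    have h0 : ∀ i, D i (fun _ : E => (0 : ℝ)) = fun _ => 0 := by
      intro i
      funext z
      simp [D]
    funext y
    simp [lap, h0]
  | insert a s ha ih =>
    simp only [Finset.sum_insert ha]
    rw [lap_add (contDiff_const.mul (hf a)) (rlsm_sum s c f hf), lap_smul (hf a), ih]

private theorem rlD_sum {ι : Type} (i : Fin 3) (s : Finset ι) (c : ι → ℝ) (f : ι → E → ℝ)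
    (hf : ∀ j, ContDiff ℝ ∞ (f j)) :
    D i (fun y => ∑ j ∈ s, c j * f j y) = fun y => ∑ j ∈ s, c j * D i (f j) y := by
  classical
  induction s using Finset.induction_on with
  | empty =>
    funext y
    simp [D]
  | insert a s ha ih =>
    simp only [Finset.sum_insert ha]
    rw [D_add (contDiff_const.mul (hf a)) (rlsm_sum s c f hf), D_smul (hf a), ih]

open Polynomial in
private theorem rlsm_wave (P : ℝ[X]) (θ : ℝ) : ContDiff ℝ ∞ (fun y : E => P.eval (ph θ y)) := by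
  have h : ContDiff ℝ ∞ (fun y : E => ((1 : ℝ), y)) := contDiff_const.prodMk contDiff_id
  have h2 := (contDiff_wave P θ).comp h
  have h3 : (fun p : ℝ × E => P.eval (ph (θ * p.1) p.2)) ∘ (fun y : E => ((1 : ℝ), y)) =
      fun y : E => P.eval (ph θ y) := by
    funext y
    simp [Function.comp]
  rw [h3] at h2
  exact h2

open Polynomial in
private theorem rlsm_shift (P : ℝ[X]) (c a : ℝ) :
    ContDiff ℝ ∞ (fun p : ℝ × E => P.eval (ph (c * (p.1 - a)) p.2)) := by
  have h : ContDiff ℝ ∞ (fun p : ℝ × E => (p.1 - a, p.2)) :=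
    (contDiff_fst.sub contDiff_const).prodMk contDiff_snd
  exact (contDiff_wave P c).comp h

open Polynomial in
private theorem rlder_shift (P : ℝ[X]) (c a t : ℝ) (x : E) :
    HasDerivAt (fun s => P.eval (ph (c * (s - a)) x))
      (- c * ((derivative P).eval (ph (c * (t - a)) x) *
        (x 0 * Real.sin (c * (t - a)) - x 1 * Real.cos (c * (t - a))))) t :=
  (hasDerivAt_wave P c (t - a) x).comp_sub_const t a

/-- Row RLin (over the stubs). As `isLin_wl` (file LinEq) with a shift of the time. -/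
theorem isLin_wr (m : ℕ) : IsLin (wr m) (cr m) := by
  obtain ⟨a, ha⟩ : ∃ a : ℝ, a = (m : ℝ) ^ 4 / 2 := ⟨_, rfl⟩
  have hw : wr m = fun t x => ∑ k ∈ Finset.range m, 1 * (Leg (2 * jr m k + 1)).eval
      (ph ((spd (jr m k) : ℝ) * (t - a)) x) := by
    funext t x
    rw [ha]
    simp only [one_mul]
    rfl
  have hc : cr m = fun t x => ∑ k ∈ Finset.range m,
      (-1 / ((2 * (jr m k : ℝ) + 1) * (2 * (jr m k : ℝ) + 2))) *
      (Leg (2 * jr m k + 1)).eval (ph ((spd (jr m k) : ℝ) * (t - a)) x) := by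
    funext t x
    rw [ha]
    rfl
  rw [hw, hc]
  have hs : ∀ t : ℝ, ∀ k, ContDiff ℝ ∞ (fun y : E => (Leg (2 * jr m k + 1)).eval
      (ph ((spd (jr m k) : ℝ) * (t - a)) y)) :=
    fun t k => rlsm_wave _ _
  have hspd : ∀ j : ℕ, ((spd j : ℚ) : ℝ) = 1 - 2 / ((2 * j + 1) * (2 * j + 2)) := by
    intro j
    simp [spd]
  refine ⟨?_, ?_, ?_, ?_⟩
  · exact ContDiff.sum fun k _ => contDiff_const.mul (rlsm_shift _ _ _)
  · exact ContDiff.sum fun k _ => contDiff_const.mul (rlsm_shift _ _ _)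
  · intro t x hx
    refine (congrFun (rllap_sum (Finset.range m)
      (fun k : ℕ => -1 / ((2 * (jr m k : ℝ) + 1) * (2 * (jr m k : ℝ) + 2)))
      (fun k y => (Leg (2 * jr m k + 1)).eval (ph ((spd (jr m k) : ℝ) * (t - a)) y)) (hs t)) x).trans ?_
    refine Finset.sum_congr rfl fun k _ => ?_
    rw [lap_wave _ _ x hx, leg_ode]
    have h1 : (2 * (jr m k : ℝ) + 1) ≠ 0 := by positivity
    have h2 : (2 * (jr m k : ℝ) + 2) ≠ 0 := by positivity
    push_cast
    field_simp
    ring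
  · intro t x hx
    have e1 : D 2 (fun x => ∑ k ∈ Finset.range m, 1 * (Leg (2 * jr m k + 1)).eval
        (ph ((spd (jr m k) : ℝ) * (t - a)) x)) x = ∑ k ∈ Finset.range m, 1 *
        D 2 (fun y => (Leg (2 * jr m k + 1)).eval (ph ((spd (jr m k) : ℝ) * (t - a)) y)) x :=
      congrFun (rlD_sum 2 (Finset.range m) (fun _ : ℕ => (1 : ℝ))
        (fun k y => (Leg (2 * jr m k + 1)).eval (ph ((spd (jr m k) : ℝ) * (t - a)) y)) (hs t)) x
    have e2 : D 2 (fun x => ∑ k ∈ Finset.range m,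
        (-1 / ((2 * (jr m k : ℝ) + 1) * (2 * (jr m k : ℝ) + 2))) *
        (Leg (2 * jr m k + 1)).eval (ph ((spd (jr m k) : ℝ) * (t - a)) x)) x =
        ∑ k ∈ Finset.range m, (-1 / ((2 * (jr m k : ℝ) + 1) * (2 * (jr m k : ℝ) + 2))) *
        D 2 (fun y => (Leg (2 * jr m k + 1)).eval (ph ((spd (jr m k) : ℝ) * (t - a)) y)) x :=
      congrFun (rlD_sum 2 (Finset.range m)
        (fun k : ℕ => -1 / ((2 * (jr m k : ℝ) + 1) * (2 * (jr m k : ℝ) + 2)))
        (fun k y => (Leg (2 * jr m k + 1)).eval (ph ((spd (jr m k) : ℝ) * (t - a)) y)) (hs t)) x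
    have e3 : HasDerivAt (fun s => ∑ k ∈ Finset.range m, 1 * (Leg (2 * jr m k + 1)).eval
        (ph ((spd (jr m k) : ℝ) * (s - a)) x)) (∑ k ∈ Finset.range m, 1 *
        (- (spd (jr m k) : ℝ) * ((Polynomial.derivative (Leg (2 * jr m k + 1))).eval
          (ph ((spd (jr m k) : ℝ) * (t - a)) x) *
        (x 0 * Real.sin ((spd (jr m k) : ℝ) * (t - a)) -
          x 1 * Real.cos ((spd (jr m k) : ℝ) * (t - a)))))) t :=
      HasDerivAt.fun_sum fun k _ => (rlder_shift _ _ a t x).const_mul 1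
    have e4 : dt (fun t x => ∑ k ∈ Finset.range m, 1 * (Leg (2 * jr m k + 1)).eval
        (ph ((spd (jr m k) : ℝ) * (t - a)) x)) t x = _ := e3.deriv
    rw [e4, e1, e2, Finset.mul_sum, ← Finset.sum_add_distrib, ← Finset.sum_neg_distrib]
    refine Finset.sum_congr rfl fun k _ => ?_
    rw [D2_wave, hspd]
    ring

end Pool.Agent.Lib.RotSphere
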