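import Pool.Agent.Lib.MP_dba1af_an.RS.RDef
import Pool.Agent.Lib.MP_dba1af_an.RS.QPeak

noncomputable section
open MeasureTheory Set
open scoped ContDiff

namespace Pool.Agent.Lib.RotSphere

private theorem rp_deriv (P : Polynomial ℝ) (a : ℝ) :
    HasDerivAt (fun a => P.eval (Real.cos a))
      ((Polynomial.derivative P).eval (Real.cos a) * (- Real.sin a)) a :=
  (P.hasDerivAt (Real.cos a)).comp a (Real.hasDerivAt_cos a)

private theorem rp_lip (j : ℕ) (B : ℝ) (hB : 0 ≤ B)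
    (hL : (2 * (j : ℝ) + 1) * (2 * j + 2) ≤ B ^ 2) (a : ℝ) :
    1 - B * |a| ≤ (Leg (2 * j + 1)).eval (Real.cos a) := by
  have h := Convex.norm_image_sub_le_of_norm_hasDerivWithin_le
    (f := fun a => (Leg (2 * j + 1)).eval (Real.cos a))
    (f' := fun a => (Polynomial.derivative (Leg (2 * j + 1))).eval (Real.cos a) * (- Real.sin a))
    (s := Set.univ) (C := B) (x := 0) (y := a)
    (fun b _ => (rp_deriv _ b).hasDerivWithinAt) ?_ convex_univ (mem_univ _) (mem_univ _)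
  · have h1 : (Leg (2 * j + 1)).eval 1 = 1 := leg_one (2 * j + 1)
    simp only [Real.cos_zero, h1, sub_zero, Real.norm_eq_abs] at h
    have h2 := neg_abs_le ((Leg (2 * j + 1)).eval (Real.cos a) - 1)
    linarith
  · intro b _
    have h1 := (leg_bounds j (Real.cos b) (Real.abs_cos_le_one b)).2.1
    rw [Real.norm_eq_abs]
    refine abs_le_of_sq_le_sq ?_ hB
    have h2 := Real.sin_sq_add_cos_sq b
    have h3 : 1 - Real.cos b ^ 2 = Real.sin b ^ 2 := by linarith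
    rw [h3] at h1
    calc ((Polynomial.derivative (Leg (2 * j + 1))).eval (Real.cos b) * (- Real.sin b)) ^ 2
        = Real.sin b ^ 2 * ((Polynomial.derivative (Leg (2 * j + 1))).eval (Real.cos b)) ^ 2 := by ring
      _ ≤ B ^ 2 := h1.trans hL

private theorem rp_jj (m k : ℕ) (_hm : 1 ≤ m) (hk : k < m) :
    (2 * (jr m k : ℝ) + 1) * (2 * (jr m k : ℝ) + 2) ≤ (4 * (m : ℝ) ^ 2) ^ 2 := by
  have h1 : jr m k + 1 ≤ 2 * m ^ 2 := by
    unfold jr
    have h2 : k * m + m ≤ m ^ 2 := by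
      calc k * m + m = (k + 1) * m := by ring
        _ ≤ m * m := Nat.mul_le_mul_right _ hk
        _ = m ^ 2 := by ring
    omega
  have h2 : (jr m k : ℝ) + 1 ≤ 2 * (m : ℝ) ^ 2 := by exact_mod_cast h1
  have h3 : (0 : ℝ) ≤ jr m k := Nat.cast_nonneg _
  nlinarith

private theorem rp_ang (x : E) (hx : ‖x‖ = 1) :
    ∃ a : ℝ, Real.cos a = x 0 ∧ |a| ≤ 2 * ‖x - e0‖ := by
  have h1 : x 0 ^ 2 + x 1 ^ 2 + x 2 ^ 2 = 1 := by
    have h := EuclideanSpace.norm_sq_eq x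
    rw [hx, Fin.sum_univ_three] at h
    simp only [Real.norm_eq_abs, sq_abs] at h
    linarith
  have h2 : ‖x - e0‖ ^ 2 = 2 - 2 * x 0 := by
    have h := EuclideanSpace.norm_sq_eq (x - e0)
    rw [Fin.sum_univ_three] at h
    simp only [Real.norm_eq_abs, sq_abs, PiLp.sub_apply] at h
    have e1 : e0 0 = 1 := rfl
    have e2 : e0 1 = 0 := rfl
    have e3 : e0 2 = 0 := rfl
    rw [e1, e2, e3] at h
    rw [h]
    linarith
  have h3 : -1 ≤ x 0 := by nlinarith [sq_nonneg (x 1), sq_nonneg (x 2)]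
  have h4 : x 0 ≤ 1 := by nlinarith [sq_nonneg (x 1), sq_nonneg (x 2)]
  refine ⟨Real.arccos (x 0), Real.cos_arccos h3 h4, ?_⟩
  have h5 := Real.arccos_nonneg (x 0)
  have h6 := Real.arccos_le_pi (x 0)
  have h7 := Real.cos_le_one_sub_mul_cos_sq (x := Real.arccos (x 0)) (by rw [abs_of_nonneg h5]; exact h6)
  rw [Real.cos_arccos h3 h4] at h7
  refine abs_le_of_sq_le_sq ?_ (by positivity)
  have h8 : Real.arccos (x 0) ^ 2 ≤ 16 * (2 / Real.pi ^ 2 * Real.arccos (x 0) ^ 2) / 2 := by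
    have hpi : Real.pi ^ 2 ≤ 16 := by nlinarith [Real.pi_le_four, Real.pi_pos]
    have hpos : 0 < Real.pi ^ 2 := by positivity
    have e : 16 * (2 / Real.pi ^ 2 * Real.arccos (x 0) ^ 2) / 2 = 16 * Real.arccos (x 0) ^ 2 / Real.pi ^ 2 := by
      field_simp
    rw [e, le_div_iff₀ hpos]
    nlinarith [sq_nonneg (Real.arccos (x 0))]
  nlinarith

/-- Row RPeak: copy of QPeak (`sqrt((2j+1)(2j+2)) ≤ 4 m^2`). -/
theorem peak' (m : ℕ) (hm : 1 ≤ m) (x : E) (hx : ‖x‖ = 1)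
    (hr : ‖x - e0‖ ≤ 1 / (16 * (m : ℝ) ^ 2)) : (m : ℝ) / 2 ≤ wr m ((m : ℝ) ^ 4 / 2) x := by
  obtain ⟨a, ha, hle⟩ := rp_ang x hx
  have hm1 : (1 : ℝ) ≤ m := by exact_mod_cast hm
  have hm4 : 0 < (m : ℝ) ^ 2 := by positivity
  have hkey : ∀ k ∈ Finset.range m, (1 / 2 : ℝ) ≤ (Leg (2 * jr m k + 1)).eval
      (ph ((spd (jr m k) : ℝ) * ((m : ℝ) ^ 4 / 2 - (m : ℝ) ^ 4 / 2)) x) := by
    intro k hk
    have e : ph ((spd (jr m k) : ℝ) * ((m : ℝ) ^ 4 / 2 - (m : ℝ) ^ 4 / 2)) x = Real.cos a := by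
      unfold ph
      rw [sub_self, mul_zero, Real.cos_zero, Real.sin_zero, mul_one, mul_zero, add_zero, ha]
    rw [e]
    have h := rp_lip (jr m k) (4 * (m : ℝ) ^ 2) (by positivity) (rp_jj m k hm (Finset.mem_range.1 hk)) a
    have h2 : 4 * (m : ℝ) ^ 2 * |a| ≤ 1 / 2 := by
      have h3 : |a| ≤ 2 * (1 / (16 * (m : ℝ) ^ 2)) := hle.trans (by linarith)
      calc 4 * (m : ℝ) ^ 2 * |a| ≤ 4 * (m : ℝ) ^ 2 * (2 * (1 / (16 * (m : ℝ) ^ 2))) :=
            mul_le_mul_of_nonneg_left h3 (by positivity)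
        _ = 1 / 2 := by
            field_simp
            norm_num
    linarith
  have hs := Finset.sum_le_sum hkey
  rw [Finset.sum_const, Finset.card_range, nsmul_eq_mul] at hs
  unfold wr
  linarith

end Pool.Agent.Lib.RotSphere
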