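import Pool.Agent.Lib.MP_dba1af_an.RS.RAng
import Pool.Agent.Lib.MP_dba1af_an.RS.QSep
import Pool.Agent.Lib.MP_dba1af_an.RS.RDec

noncomputable section
open MeasureTheory Set
open scoped ContDiff

namespace Pool.Agent.Lib.RotSphere

private theorem sum_inv_sqrt (n : ℕ) :
    ∑ i ∈ Finset.range n, 1 / Real.sqrt ((i : ℝ) + 1) ≤ 2 * Real.sqrt n := by
  induction n with
  | zero => simp
  | succ n ih =>
    rw [Finset.sum_range_succ]
    push_cast
    have ha : 0 ≤ Real.sqrt n := Real.sqrt_nonneg _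
    have hb : 0 < Real.sqrt ((n : ℝ) + 1) := Real.sqrt_pos.2 (by positivity)
    have ha2 : Real.sqrt n ^ 2 = n := Real.sq_sqrt (Nat.cast_nonneg n)
    have hb2 : Real.sqrt ((n : ℝ) + 1) ^ 2 = (n : ℝ) + 1 := Real.sq_sqrt (by positivity)
    have h1 : 1 / Real.sqrt ((n : ℝ) + 1) ≤ 2 * Real.sqrt ((n : ℝ) + 1) - 2 * Real.sqrt n := by
      rw [div_le_iff₀ hb]
      nlinarith [sq_nonneg (Real.sqrt ((n : ℝ) + 1) - Real.sqrt n)]
    linarith

/-- Row RSup (model QSup; over the stubs RAng, RDec and the landed QSep, QBd). Choose `k₀`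
minimizing `1 - s_k^2`. For `k ≠ k₀`, `d = |k - k₀|`: `(d/(64 m))^2 ≤ sin^2 ≤ 16 (1 - s_k^2)`, so
`sqrt(1 - s_k^2) ≥ d/(256 m)` and `P(s_k)^2 ≤ 4 * 256 m / (d (2 m^2)) = 512/(d m)`, `|P(s_k)| ≤
23 / sqrt (d m)`. As `∑_{d=1}^{m} 1/sqrt d ≤ 2 sqrt m`, the sum over `k ≠ k₀` is at most
`2 * 23 * 2 = 92`, and the exceptional term is at most `1`. -/
theorem sup0' (m : ℕ) (hm : 1 ≤ m) (x : E) (hx : ‖x‖ = 1) : |wr m 0 x| ≤ 93 := by
  have hm0 : (0 : ℝ) < m := by exact_mod_cast hm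
  obtain ⟨θ, hθ⟩ : ∃ θ : ℕ → ℝ, ∀ k, θ k = (spd (jr m k) : ℝ) * (0 - (m : ℝ) ^ 4 / 2) :=
    ⟨_, fun _ => rfl⟩
  obtain ⟨s, hs⟩ : ∃ s : ℕ → ℝ, ∀ k, s k = ph (θ k) x := ⟨_, fun _ => rfl⟩
  obtain ⟨P, hP⟩ : ∃ P : ℕ → ℝ, ∀ k, P k = (Leg (2 * jr m k + 1)).eval (s k) :=
    ⟨_, fun _ => rfl⟩
  have hw : wr m 0 x = ∑ k ∈ Finset.range m, P k := by
    unfold wr
    refine Finset.sum_congr rfl fun k _ => ?_
    rw [hP, hs, hθ]
  have hs1 : ∀ k, |s k| ≤ 1 := fun k => by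
    rw [hs]
    exact abs_ph_le _ x hx
  obtain ⟨k₀, hk₀, hmin⟩ := Finset.exists_min_image (Finset.range m) (fun k => 1 - s k ^ 2)
    (Finset.nonempty_range_iff.2 (by omega))
  have hk₀m : k₀ < m := Finset.mem_range.1 hk₀
  have hsm : 0 < Real.sqrt m := Real.sqrt_pos.2 hm0
  have hother : ∀ k < m, ∀ d : ℕ, 1 ≤ d → (k + d = k₀ ∨ k₀ + d = k) →
      |P k| ≤ 23 / Real.sqrt m * (1 / Real.sqrt d) := by
    intro k hk d hd hkd
    have hd0 : (0 : ℝ) < d := by exact_mod_cast hd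
    have h1 : (d : ℝ) / (64 * (m : ℝ)) ≤ |Real.sin (θ k₀ - θ k)| := by
      rcases hkd with h | h
      · have h2 := ang_sep' m hm k k₀ (by omega) hk₀m
        rw [← hθ, ← hθ] at h2
        have h3 : (k₀ : ℝ) - k = d := by
          rw [← h]
          push_cast
          ring
        rwa [h3] at h2
      · have h2 := ang_sep' m hm k₀ k (by omega) hk
        rw [← hθ, ← hθ] at h2
        have h3 : (k : ℝ) - k₀ = d := by
          rw [← h]
          push_cast
          ring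
        rw [h3] at h2
        rwa [show θ k₀ - θ k = -(θ k - θ k₀) by ring, Real.sin_neg, abs_neg]
    have h2 := sep (θ k) (θ k₀) x hx
    have h3 : 1 - s k₀ ^ 2 ≤ 1 - s k ^ 2 := hmin k (Finset.mem_range.2 hk)
    rw [← hs, ← hs, max_eq_left h3] at h2
    have h5 : ((d : ℝ) / (64 * (m : ℝ))) ^ 2 ≤ Real.sin (θ k₀ - θ k) ^ 2 := by
      rw [← sq_abs (Real.sin _)]
      exact pow_le_pow_left₀ (by positivity) h1 2
    have h6 : ((d : ℝ) / (256 * m)) ^ 2 ≤ 1 - s k ^ 2 := by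
      have h7 : ((d : ℝ) / (64 * (m : ℝ))) ^ 2 = 16 * ((d : ℝ) / (256 * m)) ^ 2 := by
        field_simp
        norm_num
      linarith
    have h8 : (d : ℝ) / (256 * m) ≤ Real.sqrt (1 - s k ^ 2) := Real.le_sqrt_of_sq_le h6
    have h9 := leg_decay (jr m k) (s k) (hs1 k)
    rw [← hP] at h9
    have h10 : (m : ℝ) ^ 2 ≤ (jr m k : ℝ) := by
      unfold jr
      push_cast
      exact le_add_of_nonneg_right (by positivity)
    have a1 : (d : ℝ) / (256 * m) * P k ^ 2 ≤ 4 / (2 * (m : ℝ) ^ 2) := by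
      refine (mul_le_mul_of_nonneg_right h8 (sq_nonneg _)).trans (h9.trans ?_)
      exact div_le_div_of_nonneg_left (by norm_num) (by positivity) (by linarith)
    have a2 : P k ^ 2 ≤ 512 / ((m : ℝ) * d) := by
      have a3 : P k ^ 2 = (256 * m / d) * ((d : ℝ) / (256 * m) * P k ^ 2) := by
        field_simp
      have a4 : (256 * (m : ℝ) / d) * (4 / (2 * (m : ℝ) ^ 2)) = 512 / ((m : ℝ) * d) := by
        field_simp
        norm_num
      rw [a3, ← a4]
      exact mul_le_mul_of_nonneg_left a1 (by positivity)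
    have a5 : (23 / Real.sqrt m * (1 / Real.sqrt d)) ^ 2 = 529 / ((m : ℝ) * d) := by
      rw [mul_pow, div_pow, div_pow, Real.sq_sqrt hm0.le, Real.sq_sqrt hd0.le]
      field_simp
      norm_num
    refine abs_le_of_sq_le_sq ?_ (by positivity)
    rw [a5]
    refine a2.trans ?_
    exact div_le_div_of_nonneg_right (by norm_num) (by positivity)
  have hb : |P k₀| ≤ 1 := by
    rw [hP]
    exact (leg_bounds _ _ (hs1 k₀)).1
  have hsq : ∀ r : ℕ, r ≤ m → 23 / Real.sqrt m * (2 * Real.sqrt r) ≤ 46 := by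
    intro r hr
    have h1 : Real.sqrt r ≤ Real.sqrt m := Real.sqrt_le_sqrt (by exact_mod_cast hr)
    have h2 : 23 / Real.sqrt m * (2 * Real.sqrt m) = 46 := by
      field_simp
      norm_num
    rw [← h2]
    exact mul_le_mul_of_nonneg_left (by linarith) (by positivity)
  obtain ⟨r, hr⟩ : ∃ r, m = k₀ + (1 + r) := ⟨m - k₀ - 1, by omega⟩
  have hleft : ∑ k ∈ Finset.range k₀, |P k| ≤ 46 := by
    have h1 : ∑ k ∈ Finset.range k₀, |P k| ≤
        ∑ k ∈ Finset.range k₀, 23 / Real.sqrt m * (1 / Real.sqrt (((k₀ - 1 - k : ℕ) : ℝ) + 1)) := by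
      refine Finset.sum_le_sum fun k hk => ?_
      have hk' := Finset.mem_range.1 hk
      have h2 := hother k (by omega) (k₀ - 1 - k + 1) (by omega) (Or.inl (by omega))
      push_cast at h2
      exact h2
    have h3 := Finset.sum_range_reflect
      (fun k : ℕ => 23 / Real.sqrt m * (1 / Real.sqrt ((k : ℝ) + 1))) k₀
    rw [h3, ← Finset.mul_sum] at h1
    refine h1.trans ((mul_le_mul_of_nonneg_left (sum_inv_sqrt k₀) (by positivity)).trans ?_)
    exact hsq k₀ hk₀m.le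
  have hright : ∑ k ∈ Finset.range r, |P (k₀ + (1 + k))| ≤ 46 := by
    have h1 : ∑ k ∈ Finset.range r, |P (k₀ + (1 + k))| ≤
        ∑ k ∈ Finset.range r, 23 / Real.sqrt m * (1 / Real.sqrt ((k : ℝ) + 1)) := by
      refine Finset.sum_le_sum fun k hk => ?_
      have hk' := Finset.mem_range.1 hk
      have h2 := hother (k₀ + (1 + k)) (by omega) (k + 1) (by omega) (Or.inr (by omega))
      push_cast at h2
      exact h2
    rw [← Finset.mul_sum] at h1
    refine h1.trans ((mul_le_mul_of_nonneg_left (sum_inv_sqrt r) (by positivity)).trans ?_)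
    exact hsq r (by omega)
  have hsplit : ∑ k ∈ Finset.range m, |P k| =
      ∑ k ∈ Finset.range k₀, |P k| + (|P k₀| + ∑ k ∈ Finset.range r, |P (k₀ + (1 + k))|) := by
    rw [hr, Finset.sum_range_add, Finset.sum_range_add]
    simp
  rw [hw]
  refine (Finset.abs_sum_le_sum_abs _ _).trans ?_
  rw [hsplit]
  linarith

end Pool.Agent.Lib.RotSphere
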