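import Pool.Agent.Lib.MP_dba1af_an.RS.QStat
import Pool.Agent.Lib.MP_dba1af_an.RS.RLin
import Pool.Agent.Lib.MP_dba1af_an.RS.RSup
import Pool.Agent.Lib.MP_dba1af_an.RS.RPeak
import Pool.Agent.Lib.MP_dba1af_an.RS.RGrad
import Pool.Agent.Lib.MP_dba1af_an.RS.REn
import Pool.Agent.Lib.MP_dba1af_an.RS.RLarge

noncomputable section
open MeasureTheory Set
open scoped ContDiff

namespace Pool.Agent.Lib.RotSphere

/-- The initial energy of `cr`. -/
theorem energy_cr_int (m : ℕ) (hm : 1 ≤ m) :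
    ∫ x : S2, ∑ i, D i (cr m 0) x ^ 2 ∂area ≤ area.real univ * (1 / (4 * (m : ℝ) ^ 2)) := by
  have h1 : ∫ x : S2, ∑ i, D i (cr m 0) x ^ 2 ∂area ≤
      ∫ _ : S2, (1 / (4 * (m : ℝ) ^ 2)) ∂area := by
    apply integral_mono_of_nonneg
    · exact Filter.Eventually.of_forall fun x => Finset.sum_nonneg fun i _ => sq_nonneg _
    · exact integrable_const _
    · exact Filter.Eventually.of_forall fun x => energy_cr m hm 0 x (norm_S2 x)
  rw [integral_const, smul_eq_mul] at h1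
  exact h1

/-- The squared `L²` distance to the linearized solution at the focusing time. -/
theorem dist_quant_r (m : ℕ) (hm : 1 ≤ m) (φ : ℝ → E → ℝ) (hφ : IsPert φ) (δ : ℝ)
    (h0 : ∀ x : E, ‖x‖ = 1 → lap (φ 0) x = δ * wr m 0 x) :
    ∫ x : S2, (lap (φ ((m : ℝ) ^ 4 / 2)) x - δ * wr m ((m : ℝ) ^ 4 / 2) x) ^ 2 ∂area ≤
      2 * Real.exp 1 * area.real univ * δ ^ 4 * (m : ℝ) ^ 12 := by
  have hl := isLin_wr m
  have hm1 : (1 : ℝ) ≤ m := by exact_mod_cast hm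
  have hm0 : (0 : ℝ) < m := by linarith
  set T : ℝ := (m : ℝ) ^ 4 / 2 with hTdef
  have hT : 0 < T := by positivity
  set E0 : ℝ := ∫ x : S2, ∑ i, D i (φ 0) x ^ 2 ∂area with hE0
  have hE00 : 0 ≤ E0 := integral_nonneg fun x => Finset.sum_nonneg fun i _ => sq_nonneg _
  have hinit : E0 ≤ 2 * δ ^ 2 * (area.real univ * (1 / (4 * (m : ℝ) ^ 2))) := by
    refine (energy_init (sm_slice hφ.smooth 0) (sm_slice hl.smooth' 0) δ ?_).trans ?_
    · intro x hx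
      rw [h0 x hx, hl.lap_eq 0 x hx]
    · exact mul_le_mul_of_nonneg_left (energy_cr_int m hm) (by positivity)
  have hgr := gron (y := fun s => ∫ x : S2, (lap (φ s) x - δ * wr m s x) ^ 2 ∂area)
    (y' := fun s => - 2 * δ * ∫ x : S2, (lap (φ s) x - δ * wr m s x) * br (φ s) (wr m s) x ∂area)
    (L := 1 / T) (B := δ ^ 2 * (4 * (m : ℝ) ^ 3) ^ 2 / (1 / T) * E0) (T := T)
    (by positivity) (by positivity) hT.le
    (fun t => diff_deriv hφ hl δ t) (by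
      intro t _
      exact diff_bound_quant hφ hl (4 * (m : ℝ) ^ 3) δ (1 / T) t (by positivity)
        (fun x hx => grad_bound' m hm (φ t) t x hx)) (by
      have : ∀ x : S2, (lap (φ 0) x - δ * wr m 0 x) ^ 2 = 0 := by
        intro x
        rw [h0 x (norm_S2 x)]; ring
      simp only [this, integral_zero])
  refine hgr.trans ?_
  have e1 : 1 / T * T = 1 := by field_simp
  rw [e1]
  have e2 : δ ^ 2 * (4 * (m : ℝ) ^ 3) ^ 2 / (1 / T) * E0 * T =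
      δ ^ 2 * (4 * (m : ℝ) ^ 3) ^ 2 * T ^ 2 * E0 := by
    field_simp
  rw [e2]
  have e3 : δ ^ 2 * (4 * (m : ℝ) ^ 3) ^ 2 * T ^ 2 * E0 ≤
      δ ^ 2 * (4 * (m : ℝ) ^ 3) ^ 2 * T ^ 2 *
        (2 * δ ^ 2 * (area.real univ * (1 / (4 * (m : ℝ) ^ 2)))) :=
    mul_le_mul_of_nonneg_left hinit (by positivity)
  calc Real.exp 1 * (δ ^ 2 * (4 * (m : ℝ) ^ 3) ^ 2 * T ^ 2 * E0)
      ≤ Real.exp 1 * (δ ^ 2 * (4 * (m : ℝ) ^ 3) ^ 2 * T ^ 2 *
        (2 * δ ^ 2 * (area.real univ * (1 / (4 * (m : ℝ) ^ 2))))) :=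
        mul_le_mul_of_nonneg_left e3 (Real.exp_pos 1).le
    _ = 2 * Real.exp 1 * area.real univ * δ ^ 4 * (m : ℝ) ^ 12 := by
        rw [hTdef]; field_simp; ring

/-- Power growth in the sup norm. -/
theorem power_growth_r : ∃ c : ℝ, 0 < c ∧ ∀ m : ℕ, 1 ≤ m →
    ∃ g : E → ℝ, ContDiff ℝ ∞ g ∧ (∀ x, ‖x‖ = 1 → |lap g x| ≤ 1) ∧
      ∀ δ : ℝ, 0 < δ → δ ≤ c / (m : ℝ) ^ 7 → ∀ ψ : ℝ → E → ℝ, IsEuler ψ →
        (∀ x : E, ‖x‖ = 1 → lap (ψ 0) x = 2 * x 2 + δ * lap g x) →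
        ∃ x : E, ‖x‖ = 1 ∧ c * m * δ ≤ |lap (ψ ((m : ℝ) ^ 4 / 2)) x - 2 * x 2| := by
  obtain ⟨κ, hκ, hlarge⟩ := large_quant'
  set A0 : ℝ := area.real univ with hA0
  have hA0' : 0 ≤ A0 := measureReal_nonneg
  set M : ℝ := 4096 * (2 * Real.exp 1 * A0 + 1) with hM
  have hMpos : 0 < M := by positivity
  obtain ⟨c1, hc1, hc1M⟩ : ∃ c1 : ℝ, 0 < c1 ∧ c1 ^ 2 * M < κ := by
    refine ⟨Real.sqrt (κ / (2 * M)), by positivity, ?_⟩
    rw [Real.sq_sqrt (by positivity)]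
    have : κ / (2 * M) * M = κ / 2 := by field_simp
    linarith
  refine ⟨min (1 / 372) c1, by positivity, ?_⟩
  intro m hm
  have hm1 : (1 : ℝ) ≤ m := by exact_mod_cast hm
  have hm0 : (0 : ℝ) < m := by linarith
  have hl := isLin_wr m
  have hlg : ∀ x : E, ‖x‖ = 1 → lap (fun y => (1 / 93 : ℝ) * cr m 0 y) x = wr m 0 x / 93 := by
    intro x hx
    rw [lap_smul (sm_slice hl.smooth' 0)]
    change 1 / 93 * lap (cr m 0) x = wr m 0 x / 93
    rw [hl.lap_eq 0 x hx]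
    ring
  refine ⟨fun y => (1 / 93 : ℝ) * cr m 0 y, contDiff_const.mul (sm_slice hl.smooth' 0), ?_, ?_⟩
  · intro x hx
    rw [hlg x hx, abs_div, abs_of_pos (by norm_num : (0 : ℝ) < 93), div_le_one (by norm_num)]
    exact sup0' m hm x hx
  intro δ hδ hδc ψ hψ hini
  by_contra hcon
  push Not at hcon
  have hp := isPert_of_isEuler hψ
  have hd := dist_quant_r m hm _ hp (δ / 93) (by
    intro x hx
    rw [lap_pert hψ, hini x hx, hlg x hx]; ring)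
  set T : ℝ := (m : ℝ) ^ 4 / 2 with hTdef
  have hsm : ∀ x : S2, |lap (fun y => ψ T y + X2 y) x| < (m : ℝ) / 4 * (δ / 93) := by
    intro x
    rw [lap_pert hψ]
    refine (hcon x (norm_S2 x)).trans_le ?_
    have : min (1 / 372) c1 ≤ 1 / 372 := min_le_left _ _
    have h2 : min (1 / 372) c1 * m * δ ≤ 1 / 372 * m * δ := by gcongr
    refine h2.trans (le_of_eq (by ring))
  have hlg' := hlarge (wr m T) (sm_slice hl.smooth T).continuous ((m : ℝ) / 4)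
    (1 / (16 * (m : ℝ) ^ 2)) (by positivity) (by positivity)
    (by
      rw [div_le_one (by positivity)]
      have : (1 : ℝ) ≤ (m : ℝ) ^ 2 := one_le_pow₀ hm1
      linarith) ⟨e0, by simpa using norm_e0⟩
    (by
      intro x hx
      have h1 := peak' m hm x (norm_S2 x) hx
      have h2 : (m : ℝ) / 2 ≤ |wr m T x| := h1.trans (le_abs_self _)
      linarith) (fun x => lap (fun y => ψ T y + X2 y) x)
    ((sm_slice (sm_lap hp.smooth) T).continuous) (δ / 93) (by positivity) hsm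
  have h3 := hlg'.trans hd
  -- numerics
  have h4 : κ ≤ (δ / 93) ^ 2 * (m : ℝ) ^ 14 * (4096 * (2 * Real.exp 1 * A0)) := by
    have e1 : κ * (1 / (16 * (m : ℝ) ^ 2)) ^ 2 * ((m : ℝ) / 4) ^ 2 * (δ / 93) ^ 2 =
        κ * ((δ / 93) ^ 2 / (4096 * (m : ℝ) ^ 2)) := by
      field_simp; ring
    have e2 : 2 * Real.exp 1 * A0 * (δ / 93) ^ 4 * (m : ℝ) ^ 12 =
        ((δ / 93) ^ 2 * (m : ℝ) ^ 14 * (4096 * (2 * Real.exp 1 * A0))) *
          ((δ / 93) ^ 2 / (4096 * (m : ℝ) ^ 2)) := by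
      field_simp
    rw [e1, e2] at h3
    exact le_of_mul_le_mul_right h3 (by positivity)
  have h5 : δ * (m : ℝ) ^ 7 ≤ c1 := by
    have := (le_div_iff₀ (by positivity : (0 : ℝ) < (m : ℝ) ^ 7)).mp hδc
    exact this.trans (min_le_right _ _)
  have h6 : (δ / 93) ^ 2 * (m : ℝ) ^ 14 ≤ c1 ^ 2 := by
    have h7 : (δ / 93 * (m : ℝ) ^ 7) ^ 2 ≤ c1 ^ 2 := by
      apply pow_le_pow_left₀ (by positivity)
      refine le_trans ?_ h5
      have : δ / 93 ≤ δ := by linarith [div_le_self hδ.le (by norm_num : (1 : ℝ) ≤ 93)]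
      gcongr
    refine le_trans (le_of_eq (by ring)) h7
  have h8 : (δ / 93) ^ 2 * (m : ℝ) ^ 14 * (4096 * (2 * Real.exp 1 * A0)) ≤ c1 ^ 2 * M := by
    apply mul_le_mul h6 _ (by positivity) (by positivity)
    rw [hM]; linarith
  linarith

end Pool.Agent.Lib.RotSphere
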