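import Pool.Agent.Lib.MP_dba1af_an.RS.RMain

noncomputable section
open MeasureTheory Set
open scoped ContDiff

namespace Pool.Agent.Lib.RotSphere

theorem power_growth_scale_r {a : ℝ} (ha : 0 < a) : ∃ c : ℝ, 0 < c ∧ ∀ m : ℕ, 1 ≤ m →
    ∃ g : E → ℝ, ContDiff ℝ ∞ g ∧ (∀ x, ‖x‖ = 1 → |lap g x| ≤ 1) ∧
      ∀ δ : ℝ, 0 < δ → δ ≤ c / (m : ℝ) ^ 7 → ∀ ψ : ℝ → E → ℝ, IsEuler ψ →
        (∀ x : E, ‖x‖ = 1 → lap (ψ 0) x = a * x 2 + δ * lap g x) →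
        ∃ x : E, ‖x‖ = 1 ∧ c * m * δ ≤ |lap (ψ ((m : ℝ) ^ 4 / a)) x - a * x 2| := by
  obtain ⟨c, hc, hmain⟩ := power_growth_r
  refine ⟨min c (c * (a / 2)), by positivity, ?_⟩
  intro m hm
  have hm0 : (0 : ℝ) < m := by exact_mod_cast hm
  obtain ⟨f, hf, hf1, hg⟩ := hmain m hm
  refine ⟨f, hf, hf1, ?_⟩
  intro δ hδ hδc ψ hψ hini
  have hδ' : 2 / a * δ ≤ c / (m : ℝ) ^ 7 := by
    have h1 : δ ≤ c * (a / 2) / (m : ℝ) ^ 7 := by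
      refine hδc.trans ?_
      gcongr
      exact min_le_right _ _
    calc 2 / a * δ ≤ 2 / a * (c * (a / 2) / (m : ℝ) ^ 7) := by gcongr
      _ = c / (m : ℝ) ^ 7 := by field_simp
  obtain ⟨x, hx, hbig⟩ := hg (2 / a * δ) (by positivity) hδ' _ (isEuler_scale hψ (2 / a)) (by
    intro x hx
    rw [lap_scale hψ, mul_zero, hini x hx]
    field_simp)
  refine ⟨x, hx, ?_⟩
  rw [lap_scale hψ] at hbig
  have e1 : 2 / a * ((m : ℝ) ^ 4 / 2) = (m : ℝ) ^ 4 / a := by field_simp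
  rw [e1] at hbig
  have e2 : 2 / a * lap (ψ ((m : ℝ) ^ 4 / a)) x - 2 * x 2 =
      2 / a * (lap (ψ ((m : ℝ) ^ 4 / a)) x - a * x 2) := by field_simp
  rw [e2, abs_mul, abs_of_pos (by positivity : 0 < 2 / a)] at hbig
  have h3 : c * m * δ ≤ |lap (ψ ((m : ℝ) ^ 4 / a)) x - a * x 2| := by
    have h4 : 2 / a * (c * m * δ) ≤ 2 / a * |lap (ψ ((m : ℝ) ^ 4 / a)) x - a * x 2| := by
      refine le_trans (le_of_eq (by ring)) hbig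
    exact le_of_mul_le_mul_left h4 (by positivity)
  refine le_trans ?_ h3
  have : min c (c * (a / 2)) ≤ c := min_le_left _ _
  gcongr

/-- Power growth in terms of the size `δ` of the perturbation. -/
theorem power_growth_scale_r' {a : ℝ} (ha : 0 < a) : ∃ c C : ℝ, 0 < c ∧ 0 < C ∧
    ∀ δ : ℝ, 0 < δ → δ ≤ c →
    ∃ g : E → ℝ, ContDiff ℝ ∞ g ∧ (∀ x, ‖x‖ = 1 → |lap g x| ≤ 1) ∧
      ∃ T : ℝ, 0 < T ∧ T ≤ C * δ ^ (-(4 / 7) : ℝ) ∧ ∀ ψ : ℝ → E → ℝ, IsEuler ψ →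
        (∀ x : E, ‖x‖ = 1 → lap (ψ 0) x = a * x 2 + δ * lap g x) →
        ∃ x : E, ‖x‖ = 1 ∧ c * δ ^ (6 / 7 : ℝ) ≤ |lap (ψ T) x - a * x 2| := by
  obtain ⟨c0, hc0, hmain⟩ := power_growth_scale_r ha
  refine ⟨min c0 (c0 / 2 * c0 ^ (1 / 7 : ℝ)), c0 ^ (4 / 7 : ℝ) / a, by positivity,
    by positivity, ?_⟩
  intro δ hδ hδc
  have hδ0 : δ ≤ c0 := hδc.trans (min_le_left _ _)
  set y : ℝ := (c0 / δ) ^ (1 / 7 : ℝ) with hy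
  have hq : 1 ≤ c0 / δ := by rw [le_div_iff₀ hδ]; linarith
  have hy1 : 1 ≤ y := Real.one_le_rpow hq (by norm_num)
  have hy0 : 0 < y := by linarith
  have hy7 : y ^ 7 = c0 / δ := by
    rw [hy, ← Real.rpow_natCast, ← Real.rpow_mul (by positivity)]
    norm_num
  obtain ⟨m, hm1, hmy, hm2⟩ : ∃ m : ℕ, 1 ≤ m ∧ (m : ℝ) ≤ y ∧ y / 2 ≤ m := by
    refine ⟨⌊y⌋₊, ?_, Nat.floor_le hy0.le, ?_⟩
    · exact (Nat.one_le_floor_iff y).mpr hy1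
    · have h1 := Nat.lt_floor_add_one y
      have h2 : (1 : ℝ) ≤ ⌊y⌋₊ := by exact_mod_cast (Nat.one_le_floor_iff y).mpr hy1
      linarith
  have hm0 : (0 : ℝ) < m := by exact_mod_cast hm1
  obtain ⟨f, hf, hf1, hgrow⟩ := hmain m hm1
  refine ⟨f, hf, hf1, (m : ℝ) ^ 4 / a, by positivity, ?_, ?_⟩
  · have h1 : (m : ℝ) ^ 4 ≤ y ^ 4 := pow_le_pow_left₀ hm0.le hmy 4
    have h2 : y ^ 4 = c0 ^ (4 / 7 : ℝ) * δ ^ (-(4 / 7) : ℝ) := by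
      rw [hy, ← Real.rpow_natCast, ← Real.rpow_mul (by positivity), Real.div_rpow hc0.le hδ.le,
        Real.rpow_neg hδ.le, div_eq_mul_inv]
      norm_num
    rw [h2] at h1
    calc (m : ℝ) ^ 4 / a ≤ c0 ^ (4 / 7 : ℝ) * δ ^ (-(4 / 7) : ℝ) / a := by gcongr
      _ = c0 ^ (4 / 7 : ℝ) / a * δ ^ (-(4 / 7) : ℝ) := by ring
  · intro ψ hψ hini
    have hδm : δ ≤ c0 / (m : ℝ) ^ 7 := by
      rw [le_div_iff₀ (by positivity)]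
      have h1 : (m : ℝ) ^ 7 ≤ c0 / δ := by
        rw [← hy7]; exact pow_le_pow_left₀ hm0.le hmy 7
      have h2 := (le_div_iff₀ hδ).mp h1
      linarith
    obtain ⟨x, hx, hbig⟩ := hgrow δ hδ hδm ψ hψ hini
    refine ⟨x, hx, le_trans ?_ hbig⟩
    have h1 : min c0 (c0 / 2 * c0 ^ (1 / 7 : ℝ)) * δ ^ (6 / 7 : ℝ) ≤
        c0 / 2 * c0 ^ (1 / 7 : ℝ) * δ ^ (6 / 7 : ℝ) := by
      apply mul_le_mul_of_nonneg_right (min_le_right _ _) (by positivity)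
    refine h1.trans ?_
    have h2 : c0 / 2 * c0 ^ (1 / 7 : ℝ) * δ ^ (6 / 7 : ℝ) = c0 * (y / 2) * δ := by
      have h3 : δ ^ (6 / 7 : ℝ) * δ ^ (1 / 7 : ℝ) = δ := by
        rw [← Real.rpow_add hδ]; norm_num
      have h4 : y = c0 ^ (1 / 7 : ℝ) / δ ^ (1 / 7 : ℝ) := by
        rw [hy, Real.div_rpow hc0.le hδ.le]
      have h5 : 0 < δ ^ (1 / 7 : ℝ) := by positivity
      rw [h4]
      have h6 : c0 * (c0 ^ (1 / 7 : ℝ) / δ ^ (1 / 7 : ℝ) / 2) * δ =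
          c0 / 2 * c0 ^ (1 / 7 : ℝ) * (δ / δ ^ (1 / 7 : ℝ)) := by ring
      rw [h6]
      congr 1
      rw [eq_div_iff h5.ne']
      exact h3
    rw [h2]
    have : y / 2 ≤ (m : ℝ) := hm2
    gcongr

end Pool.Agent.Lib.RotSphere
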