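import Pool.Agent.Lib.MP_dba1af_an.RS.RScale

noncomputable section
open MeasureTheory Set
open scoped ContDiff

namespace Pool.Agent.Lib.RotSphere

theorem grows_fixed_r {a : ℝ} (ha : 0 < a) : ∃ c : ℝ, 0 < c ∧ ∀ m : ℕ, 1 ≤ m →
    ∃ g : E → ℝ, IsProfile g ∧ ∀ δ : ℝ, 0 < δ → δ ≤ c / (m : ℝ) ^ 7 →
      Grows a g δ ((m : ℝ) ^ 4 / a) (c * m * δ) := by
  obtain ⟨c, hc, h⟩ := power_growth_scale_r ha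
  refine ⟨c, hc, fun m hm => ?_⟩
  obtain ⟨g, hf, hf1, hg⟩ := h m hm
  exact ⟨g, ⟨hf, hf1⟩, fun δ hδ hδc ψ hψ hini => hg δ hδ hδc ψ ((eulerS_iff ψ).1 hψ) hini⟩

theorem grows_power_r {a : ℝ} (ha : 0 < a) : ∃ c C : ℝ, 0 < c ∧ 0 < C ∧
    ∀ δ : ℝ, 0 < δ → δ ≤ c → ∃ g : E → ℝ, IsProfile g ∧ ∃ T : ℝ, 0 < T ∧
      T ≤ C * δ ^ (-(4 / 7) : ℝ) ∧ Grows a g δ T (c * δ ^ (6 / 7 : ℝ)) := by
  obtain ⟨c, C, hc, hC, h⟩ := power_growth_scale_r' ha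
  refine ⟨c, C, hc, hC, fun δ hδ hδc => ?_⟩
  obtain ⟨g, hf, hf1, T, hT, hTC, hg⟩ := h δ hδ hδc
  exact ⟨g, ⟨hf, hf1⟩, T, hT, hTC, fun ψ hψ hini => hg ψ ((eulerS_iff ψ).1 hψ) hini⟩

end Pool.Agent.Lib.RotSphere
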