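import Pool.Agent.Lib.MP_dba1af_an.RS.Base

noncomputable section
open MeasureTheory Set
open scoped ContDiff

namespace Pool.Agent.Lib.RotSphere

/-- The partial derivative in the time. -/
def dt (ψ : ℝ → E → ℝ) : ℝ → E → ℝ := fun t x => deriv (fun s => ψ s x) t

/-- Smooth functions of time and space. -/
def Sm (ψ : ℝ → E → ℝ) : Prop := ContDiff ℝ ∞ (fun p : ℝ × E => ψ p.1 p.2)

private theorem tm_line (x : E) (t : ℝ) : HasDerivAt (fun s : ℝ => (s, x)) ((1 : ℝ), (0 : E)) t :=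
  (hasDerivAt_id t).prodMk (hasDerivAt_const t x)

private theorem tm_space (t : ℝ) (x : E) :
    HasFDerivAt (fun y : E => (t, y)) (ContinuousLinearMap.inr ℝ ℝ E) x :=
  hasFDerivAt_prodMk_right t x

private theorem tm_der {ψ : ℝ → E → ℝ} (h : Sm ψ) (t : ℝ) (x : E) :
    HasDerivAt (fun s => ψ s x) (fderiv ℝ (fun p : ℝ × E => ψ p.1 p.2) (t, x) (1, 0)) t := by
  have hF : HasFDerivAt (fun p : ℝ × E => ψ p.1 p.2) (fderiv ℝ (fun p : ℝ × E => ψ p.1 p.2) (t, x)) (t, x) :=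
    ((ContDiff.differentiable h (by simp)) (t, x)).hasFDerivAt
  exact hF.comp_hasDerivAt t (tm_line x t)

private theorem tm_dt {ψ : ℝ → E → ℝ} (h : Sm ψ) (t : ℝ) (x : E) :
    dt ψ t x = fderiv ℝ (fun p : ℝ × E => ψ p.1 p.2) (t, x) (1, 0) := (tm_der h t x).deriv

private theorem tm_D {ψ : ℝ → E → ℝ} (h : Sm ψ) (i : Fin 3) (t : ℝ) (x : E) :
    D i (ψ t) x = fderiv ℝ (fun p : ℝ × E => ψ p.1 p.2) (t, x) (0, J i x) := by
  have hF : HasFDerivAt (fun p : ℝ × E => ψ p.1 p.2) (fderiv ℝ (fun p : ℝ × E => ψ p.1 p.2) (t, x)) (t, x) :=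
    ((ContDiff.differentiable h (by simp)) (t, x)).hasFDerivAt
  have h1 : HasFDerivAt (ψ t)
      ((fderiv ℝ (fun p : ℝ × E => ψ p.1 p.2) (t, x)).comp (ContinuousLinearMap.inr ℝ ℝ E)) x :=
    hF.comp x (tm_space t x)
  unfold D
  rw [h1.fderiv]
  rfl

private theorem tm_fd {ψ : ℝ → E → ℝ} (h : Sm ψ) : ContDiff ℝ ∞ (fderiv ℝ (fun p : ℝ × E => ψ p.1 p.2)) :=
  ContDiff.fderiv_right (m := ∞) h (by simp)

/-- Row Time. Joint smoothness, and `∂_t` commutes with `D i` and `lap`. -/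
theorem sm_slice {ψ : ℝ → E → ℝ} (h : Sm ψ) (t : ℝ) : ContDiff ℝ ∞ (ψ t) := by
  have h1 : ContDiff ℝ ∞ (fun x : E => (t, x)) := contDiff_const.prodMk contDiff_id
  have h2 := ContDiff.comp (g := fun p : ℝ × E => ψ p.1 p.2) h h1
  exact h2

theorem sm_dt {ψ : ℝ → E → ℝ} (h : Sm ψ) : Sm (dt ψ) := by
  have e : (fun p : ℝ × E => dt ψ p.1 p.2) = fun p : ℝ × E =>
      fderiv ℝ (fun p : ℝ × E => ψ p.1 p.2) p ((1 : ℝ), (0 : E)) := by
    funext p
    exact tm_dt h p.1 p.2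
  unfold Sm
  rw [e]
  exact (tm_fd h).clm_apply contDiff_const

theorem sm_D {ψ : ℝ → E → ℝ} (h : Sm ψ) (i : Fin 3) : Sm (fun t => D i (ψ t)) := by
  have e : (fun p : ℝ × E => D i (ψ p.1) p.2) = fun p : ℝ × E =>
      fderiv ℝ (fun p : ℝ × E => ψ p.1 p.2) p ((0 : ℝ), J i p.2) := by
    funext p
    exact tm_D h i p.1 p.2
  unfold Sm
  change ContDiff ℝ ∞ (fun p : ℝ × E => D i (ψ p.1) p.2)
  rw [e]
  exact (tm_fd h).clm_apply (contDiff_const.prodMk ((J i).contDiff.comp contDiff_snd))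

theorem sm_lap {ψ : ℝ → E → ℝ} (h : Sm ψ) : Sm (fun t => lap (ψ t)) := by
  unfold Sm
  change ContDiff ℝ ∞ (fun p : ℝ × E => ∑ i, D i (D i (ψ p.1)) p.2)
  exact ContDiff.sum fun i _ => sm_D (sm_D h i) i

theorem sm_hasDerivAt {ψ : ℝ → E → ℝ} (h : Sm ψ) (t : ℝ) (x : E) :
    HasDerivAt (fun s => ψ s x) (dt ψ t x) t := by
  rw [tm_dt h]
  exact tm_der h t x

theorem dt_D {ψ : ℝ → E → ℝ} (h : Sm ψ) (i : Fin 3) (t : ℝ) (x : E) :
    dt (fun s => D i (ψ s)) t x = D i (dt ψ t) x := by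
  set F : ℝ × E → ℝ := fun p => ψ p.1 p.2 with hF
  have hd : HasFDerivAt (fderiv ℝ F) (fderiv ℝ (fderiv ℝ F) (t, x)) (t, x) :=
    ((ContDiff.differentiable (tm_fd h) (by simp)) (t, x)).hasFDerivAt
  have h1 : HasDerivAt (fun s => D i (ψ s) x) (fderiv ℝ (fderiv ℝ F) (t, x) (1, 0) (0, J i x)) t := by
    have e : (fun s => D i (ψ s) x) = fun s => fderiv ℝ F (s, x) (0, J i x) := by
      funext s
      exact tm_D h i s x
    rw [e]
    have h2 : HasDerivAt (fun s => fderiv ℝ F (s, x)) (fderiv ℝ (fderiv ℝ F) (t, x) (1, 0)) t :=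
      hd.comp_hasDerivAt t (tm_line x t)
    have h3 := h2.clm_apply (hasDerivAt_const t ((0 : ℝ), J i x))
    simpa using h3
  have h4 : D i (dt ψ t) x = fderiv ℝ (fderiv ℝ F) (t, x) (0, J i x) (1, 0) := by
    have e : dt ψ t = fun y => fderiv ℝ F (t, y) (1, 0) := by
      funext y
      exact tm_dt h t y
    have h5 : HasFDerivAt (fun y => fderiv ℝ F (t, y))
        ((fderiv ℝ (fderiv ℝ F) (t, x)).comp (ContinuousLinearMap.inr ℝ ℝ E)) x :=
      hd.comp x (tm_space t x)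
    have h6 := h5.clm_apply (hasFDerivAt_const ((1 : ℝ), (0 : E)) x)
    unfold D
    rw [e, h6.fderiv]
    simp
  have hs : IsSymmSndFDerivAt ℝ F (t, x) :=
    (ContDiff.contDiffAt h).isSymmSndFDerivAt (by
      rw [minSmoothness_of_isRCLikeNormedField]
      exact WithTop.coe_le_coe.2 (le_top : (2 : ℕ∞) ≤ ⊤))
  rw [h4, dt, h1.deriv]
  exact hs.eq _ _

theorem dt_lap {ψ : ℝ → E → ℝ} (h : Sm ψ) (t : ℝ) (x : E) :
    dt (fun s => lap (ψ s)) t x = lap (dt ψ t) x := by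
  have h1 : HasDerivAt (fun s => ∑ i, D i (D i (ψ s)) x) (∑ i, dt (fun s => D i (D i (ψ s))) t x) t :=
    HasDerivAt.fun_sum fun i _ => sm_hasDerivAt (sm_D (sm_D h i) i) t x
  have h2 : dt (fun s => lap (ψ s)) t x = ∑ i, dt (fun s => D i (D i (ψ s))) t x := h1.deriv
  rw [h2]
  unfold lap
  refine Finset.sum_congr rfl fun i _ => ?_
  rw [dt_D (sm_D h i) i t x]
  congr 1
  funext y
  exact dt_D h i t y

end Pool.Agent.Lib.RotSphere
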